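import Pool.Agent.H304R3.HK.Defs
import Pool.Agent.H304R2.EC.Mult

set_option autoImplicit false

/-!
TEAM Q3, task M1 (helper372): the sum over ideals in terms of primary elements.
-/

open Finset

namespace Pool.Agent.H304R3.HK

open Pool.Agent.H304R2.EC (PS Sh)
open Pool.Agent.H304R2.EC.A1 (prim prim_iff Q S mem_S Sh_eq norm_def' re_mul' im_mul')

namespace M1

theorem mem_CS {n : ℕ} {a b : ℤ} : (a, b) ∈ CS n ↔ a ^ 2 + b ^ 2 = n := by
  unfold CS
  simp only [Finset.mem_filter, Finset.mem_product, Finset.mem_Icc]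
  constructor
  · rintro ⟨_, h⟩
    exact h
  · intro h3
    refine ⟨⟨⟨?_, ?_⟩, ⟨?_, ?_⟩⟩, h3⟩ <;> nlinarith [sq_nonneg a, sq_nonneg b,
      Int.le_self_sq a, Int.le_self_sq b, Int.le_self_sq (-a), Int.le_self_sq (-b)]

/-- Gaussian integers of norm `n` -/
noncomputable def CG (n : ℕ) : Finset GaussianInt :=
  (CS n).map ⟨fun p => (⟨p.1, p.2⟩ : GaussianInt), by
    rintro ⟨a, b⟩ ⟨c, d⟩ h
    simpa [Zsqrtd.ext_iff] using h⟩

theorem mem_CG {n : ℕ} {z : GaussianInt} : z ∈ CG n ↔ z.norm = n := by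
  unfold CG
  simp only [Finset.mem_map]
  constructor
  · rintro ⟨⟨a, b⟩, h, rfl⟩
    rw [mem_CS] at h
    rw [norm_def']
    exact h
  · intro h3
    rw [norm_def'] at h3
    exact ⟨(z.re, z.im), mem_CS.2 h3, by ext <;> rfl⟩

theorem bb_eq (h : GaussianInt → ℂ) (n : ℕ) : bb h n = (1 / 4 : ℂ) * ∑ z ∈ CG n, h z := by
  unfold bb CG
  rw [Finset.sum_map]
  rfl

theorem sum_unit {F : GaussianInt → ℂ} (u v : GaussianInt) (huv : u * v = 1) (n : ℕ)
    (hu : u.norm = 1) (hv : v.norm = 1) :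
    ∑ z ∈ CG n, F (u * z) = ∑ z ∈ CG n, F z := by
  have hvu : v * u = 1 := by rw [mul_comm]; exact huv
  refine Finset.sum_bij' (fun z _ => u * z) (fun z _ => v * z) ?_ ?_ ?_ ?_ ?_
  · intro z hz
    rw [mem_CG] at hz ⊢
    rw [Zsqrtd.norm_mul, hu, one_mul, hz]
  · intro z hz
    rw [mem_CG] at hz ⊢
    rw [Zsqrtd.norm_mul, hv, one_mul, hz]
  · intro z _
    show v * (u * z) = z
    rw [← mul_assoc, hvu, one_mul]
  · intro z _
    show u * (v * z) = z
    rw [← mul_assoc, huv, one_mul]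
  · intro z _
    rfl

theorem four_Q : ∀ a b : ZMod 4, (a ^ 2 + b ^ 2 = 1 ∨ a ^ 2 + b ^ 2 = 3) →
    (if Q a b then 1 else 0) + (if Q (-a) (-b) then 1 else 0) +
    (if Q (-b) a then 1 else 0) + (if Q b (-a) then 1 else 0) = 1 := by
  decide

theorem odd_zmod (z : GaussianInt) (hz : z.norm % 2 = 1) :
    ((z.re : ZMod 4)) ^ 2 + ((z.im : ZMod 4)) ^ 2 = 1 ∨
      ((z.re : ZMod 4)) ^ 2 + ((z.im : ZMod 4)) ^ 2 = 3 := by
  rw [norm_def'] at hz
  have h1 : ((z.re ^ 2 + z.im ^ 2 : ℤ) : ZMod 4) = 1 ∨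
      ((z.re ^ 2 + z.im ^ 2 : ℤ) : ZMod 4) = 3 := by
    have h4 : ∀ (r : ℤ), (((z.re ^ 2 + z.im ^ 2 : ℤ) : ZMod 4) = (r : ZMod 4)) ↔
        (z.re ^ 2 + z.im ^ 2) % 4 = r % 4 := by
      intro r
      have := ZMod.intCast_eq_intCast_iff' (z.re ^ 2 + z.im ^ 2) r 4
      simpa using this
    have e1 := h4 1
    have e3 := h4 3
    rw [Int.cast_one] at e1
    have e3' : (((z.re ^ 2 + z.im ^ 2 : ℤ) : ZMod 4) = 3) ↔
        (z.re ^ 2 + z.im ^ 2) % 4 = 3 % 4 := by
      have : ((3 : ℤ) : ZMod 4) = 3 := by norm_cast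
      rw [← this]; exact e3
    rw [e1, e3']
    omega
  push_cast at h1
  exact h1

open Classical in
theorem four_prim (z : GaussianInt) (hz : z.norm % 2 = 1) :
    ((if prim (1 * z) then (1 : ℂ) else 0) + (if prim ((-1) * z) then 1 else 0) +
    (if prim ((⟨0, 1⟩ : GaussianInt) * z) then 1 else 0) +
    (if prim ((⟨0, -1⟩ : GaussianInt) * z) then 1 else 0)) = 1 := by
  have h1 := four_Q _ _ (odd_zmod z hz)
  have e1 : prim (1 * z) ↔ Q (z.re : ZMod 4) (z.im : ZMod 4) := by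
    rw [one_mul, prim_iff]
  have e2 : prim ((-1) * z) ↔ Q (-(z.re : ZMod 4)) (-(z.im : ZMod 4)) := by
    rw [prim_iff, re_mul', im_mul']
    simp
  have e3 : prim ((⟨0, 1⟩ : GaussianInt) * z) ↔ Q (-(z.im : ZMod 4)) (z.re : ZMod 4) := by
    rw [prim_iff, re_mul', im_mul']
    simp
  have e4 : prim ((⟨0, -1⟩ : GaussianInt) * z) ↔ Q (z.im : ZMod 4) (-(z.re : ZMod 4)) := by
    rw [prim_iff, re_mul', im_mul']
    simp
  simp only [e1, e2, e3, e4]
  have h2 : (((if Q (z.re : ZMod 4) (z.im : ZMod 4) then 1 else 0) +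
      (if Q (-(z.re : ZMod 4)) (-(z.im : ZMod 4)) then 1 else 0) +
      (if Q (-(z.im : ZMod 4)) (z.re : ZMod 4) then 1 else 0) +
      (if Q (z.im : ZMod 4) (-(z.re : ZMod 4)) then 1 else 0) : ℕ) : ℂ) = ((1 : ℕ) : ℂ) := by
    rw [h1]
  push_cast at h2
  exact h2

theorem odd_sum (h : GaussianInt →* ℂ) (hi : h ⟨0, 1⟩ = 1) (m : ℕ) (hm : m % 2 = 1) :
    ∑ z ∈ CG m, h z = 4 * ∑ z ∈ S m, h z := by
  classical
  have hn1 : ((1 : GaussianInt)).norm = 1 := by simp
  have hm1 : ((-1 : GaussianInt)).norm = 1 := by rw [norm_def']; simp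
  have hni : ((⟨0, 1⟩ : GaussianInt)).norm = 1 := by rw [norm_def']; simp
  have hnj : ((⟨0, -1⟩ : GaussianInt)).norm = 1 := by rw [norm_def']; simp
  have hii : ((⟨0, 1⟩ : GaussianInt)) * ⟨0, 1⟩ = -1 := by ext <;> simp
  have hij : ((⟨0, 1⟩ : GaussianInt)) * ⟨0, -1⟩ = 1 := by ext <;> simp
  have hji : ((⟨0, -1⟩ : GaussianInt)) * ⟨0, 1⟩ = 1 := by ext <;> simp
  have hh1 : h (-1) = 1 := by rw [← hii, map_mul, hi, one_mul]
  have hhj : h ⟨0, -1⟩ = 1 := by
    have := congrArg h hij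
    rw [map_mul, hi, one_mul, map_one] at this
    exact this
  set F : GaussianInt → ℂ := fun z => if prim z then h z else 0 with hF
  have hFu : ∀ u v : GaussianInt, u * v = 1 → u.norm = 1 → v.norm = 1 → h u = 1 →
      ∑ z ∈ CG m, (if prim (u * z) then (1 : ℂ) else 0) * h z = ∑ z ∈ CG m, F z := by
    intro u v huv hu hv hhu
    rw [← sum_unit (F := F) u v huv m hu hv]
    refine Finset.sum_congr rfl (fun z _ => ?_)
    rw [hF]
    simp only
    rw [map_mul, hhu, one_mul]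
    split_ifs <;> simp
  have hS : ∑ z ∈ S m, h z = ∑ z ∈ CG m, F z := by
    rw [hF, ← Finset.sum_filter]
    refine Finset.sum_congr ?_ (fun _ _ => rfl)
    ext z
    rw [mem_S, Finset.mem_filter, mem_CG]
    tauto
  have key : ∀ z ∈ CG m, h z =
      (if prim (1 * z) then (1 : ℂ) else 0) * h z + (if prim ((-1) * z) then 1 else 0) * h z +
      (if prim ((⟨0, 1⟩ : GaussianInt) * z) then 1 else 0) * h z +
      (if prim ((⟨0, -1⟩ : GaussianInt) * z) then 1 else 0) * h z := by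
    intro z hz
    rw [mem_CG] at hz
    have := four_prim z (by rw [hz]; omega)
    rw [← add_mul, ← add_mul, ← add_mul, this, one_mul]
  rw [Finset.sum_congr rfl key, Finset.sum_add_distrib, Finset.sum_add_distrib,
    Finset.sum_add_distrib,
    hFu 1 1 (one_mul 1) hn1 hn1 (map_one h), hFu (-1) (-1) (by ring) hm1 hm1 hh1,
    hFu ⟨0, 1⟩ ⟨0, -1⟩ hij hni hnj hi, hFu ⟨0, -1⟩ ⟨0, 1⟩ hji hnj hni hhj, hS]
  ring

theorem CG_two (n : ℕ) : CG (2 * n) = (CG n).image (fun z => (⟨1, 1⟩ : GaussianInt) * z) := by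
  ext z
  rw [mem_CG, Finset.mem_image]
  constructor
  · intro hz
    have hz' := hz
    rw [norm_def'] at hz'
    have hpar : (z.re + z.im) % 2 = 0 := by
      have h1 : (z.re + z.im) ^ 2 = 2 * (n + z.re * z.im) := by
        push_cast at hz'
        linear_combination hz'
      have h2 : Even ((z.re + z.im) ^ 2) := by
        rw [h1]
        exact even_two_mul _
      rw [Int.even_pow] at h2
      exact Int.even_iff.1 h2.1
    obtain ⟨c, hc⟩ : ∃ c, z.re + z.im = 2 * c := ⟨(z.re + z.im) / 2, by omega⟩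
    have e1 : z.re = c - (c - z.re) := by ring
    have e2 : z.im = c + (c - z.re) := by omega
    have hzw : (⟨1, 1⟩ : GaussianInt) * ⟨c, c - z.re⟩ = z := by
      ext
      · rw [re_mul']
        simp
      · rw [im_mul']
        simp only [one_mul]
        linarith
    refine ⟨⟨c, c - z.re⟩, ?_, hzw⟩
    rw [mem_CG]
    have h3 := congrArg Zsqrtd.norm hzw
    rw [Zsqrtd.norm_mul, hz] at h3
    have h4 : (⟨1, 1⟩ : GaussianInt).norm = 2 := by rw [norm_def']; norm_num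
    rw [h4] at h3
    push_cast at h3
    linarith
  · rintro ⟨w, hw, rfl⟩
    rw [mem_CG] at hw
    have h4 : (⟨1, 1⟩ : GaussianInt).norm = 2 := by rw [norm_def']; norm_num
    rw [Zsqrtd.norm_mul, h4, hw]
    push_cast
    rfl

theorem bb_two (h : GaussianInt →* ℂ) (n : ℕ) : bb h (2 * n) = h ⟨1, 1⟩ * bb h n := by
  rw [bb_eq, bb_eq, CG_two, Finset.sum_image]
  · simp_rw [map_mul]
    rw [← Finset.mul_sum]
    ring
  · intro a _ b _ hab
    have h0 : (⟨1, 1⟩ : GaussianInt) ≠ 0 := by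
      intro h
      have := congrArg Zsqrtd.re h
      simp at this
    exact mul_left_cancel₀ h0 hab

end M1

open M1

theorem bb_zero (h : GaussianInt → ℂ) (h0 : h 0 = 0) : bb h 0 = 0 := by
  rw [bb_eq, Finset.sum_eq_zero, mul_zero]
  intro z hz
  rw [mem_CG, norm_def'] at hz
  have h1 : z.re = 0 := by
    push_cast at hz
    nlinarith [sq_nonneg z.re, sq_nonneg z.im]
  have h2 : z.im = 0 := by
    push_cast at hz
    nlinarith [sq_nonneg z.re, sq_nonneg z.im]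
  have : z = 0 := by
    ext
    · exact h1
    · exact h2
  rw [this, h0]

theorem bb_two_odd (h : GaussianInt →* ℂ) (hi : h ⟨0, 1⟩ = 1) (k m : ℕ) (hm : m % 2 = 1) :
    bb h (2 ^ k * m) = (h ⟨1, 1⟩) ^ k * Sh h m := by
  induction k with
  | zero =>
    rw [pow_zero, pow_zero, one_mul, one_mul, bb_eq, odd_sum h hi m hm, Sh_eq]
    ring
  | succ k ih =>
    have e : 2 ^ (k + 1) * m = 2 * (2 ^ k * m) := by ring
    rw [e, bb_two, ih]
    ring

end Pool.Agent.H304R3.HK
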