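import Mathlib

set_option autoImplicit false

/-!
TEAM Q3 (helper304, helper385): Hecke characters of `ℚ(i)` of infinity type one modulo `q`.
Definitions shared by all modules of the L-function side.
-/

namespace Pool.Agent.H304R3.HK

open Complex

/-- the complex number `a + b i` belonging to a Gaussian integer -/
noncomputable def tc (a : GaussianInt) : ℂ := (a.re : ℂ) + (a.im : ℂ) * I

/-- `χ` is (the extension by zero to `ℤ[i]` of) a primitive character of `(ℤ[i]/q)ˣ` with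
`χ(i) = -i`, so that `χ(a) a / |a|` only depends on the ideal `(a)` -/
structure HC (q : GaussianInt) (χ : GaussianInt →* ℂ) : Prop where
  q0 : q ≠ 0
  per : ∀ a b : GaussianInt, q ∣ a - b → χ a = χ b
  supp : ∀ a : GaussianInt, χ a ≠ 0 ↔ IsCoprime a q
  nrm : ∀ a : GaussianInt, IsCoprime a q → ‖χ a‖ = 1
  unit : χ ⟨0, 1⟩ = -I
  prim : ∀ d : GaussianInt, d ∣ q → ¬ q ∣ d → ∃ a : GaussianInt, IsCoprime a q ∧ d ∣ a - 1 ∧ χ a ≠ 1

/-- a completely multiplicative function on `ℤ[i]`, bounded by one, zero at `0`, one at `i` -/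
structure UH (h : GaussianInt →* ℂ) : Prop where
  h0 : h 0 = 0
  hb : ∀ a : GaussianInt, ‖h a‖ ≤ 1
  hi : h ⟨0, 1⟩ = 1

/-- Gaussian integers of norm `n` as pairs -/
noncomputable def CS (n : ℕ) : Finset (ℤ × ℤ) :=
  ((Finset.Icc (-(n : ℤ)) n) ×ˢ (Finset.Icc (-(n : ℤ)) n)).filter
    (fun p => p.1 ^ 2 + p.2 ^ 2 = n)

/-- sum over the ideals of norm `n` of a function that is constant on associates -/
noncomputable def bb (h : GaussianInt → ℂ) (n : ℕ) : ℂ :=
  (1 / 4 : ℂ) * ∑ p ∈ CS n, h ⟨p.1, p.2⟩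

open Classical in
/-- von Mangoldt function of `ℤ[i]`: `log N(π)` for the associates of `π ^ k`, `k ≥ 1` -/
noncomputable def LamK (a : GaussianInt) : ℝ :=
  if h : ∃ π : GaussianInt, Prime π ∧ ∃ k : ℕ, 0 < k ∧ Associated (π ^ k) a then
    Real.log ((Zsqrtd.norm h.choose : ℤ) : ℝ) else 0

/-- `ψ(a) = χ(a) a / |a|` -/
noncomputable def psi (χ : GaussianInt →* ℂ) : GaussianInt →* ℂ where
  toFun a := if a = 0 then 0 else χ a * (tc a / (‖tc a‖ : ℂ))
  map_one' := by simp [tc]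
  map_mul' := by
    intro a b
    by_cases ha : a = 0
    · simp [ha]
    by_cases hb : b = 0
    · simp [hb]
    have e : tc (a * b) = tc a * tc b := by
      simp only [tc, Zsqrtd.re_mul, Zsqrtd.im_mul]
      push_cast
      linear_combination (-(a.im : ℂ) * b.im) * Complex.I_sq
    rw [if_neg ha, if_neg hb, if_neg (mul_ne_zero ha hb), map_mul, e, norm_mul]
    push_cast
    rw [mul_div_mul_comm]
    ring

/-- coefficients of `L(s, ψ)` : `∑_{N(𝔞) = n} ψ(𝔞)` -/
noncomputable def bH (χ : GaussianInt →* ℂ) (n : ℕ) : ℂ := bb (psi χ) n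

/-- coefficients of `-L'/L(s, ψ)` : `∑_{N(𝔞) = n} Λ(𝔞) ψ(𝔞)` -/
noncomputable def aH (χ : GaussianInt →* ℂ) (n : ℕ) : ℂ :=
  bb (fun a => (LamK a : ℂ) * psi χ a) n

/-- theta series `∑ b(n) √n e^{-π n y}` -/
noncomputable def TH (b : ℕ → ℂ) (y : ℝ) : ℂ :=
  ∑' n : ℕ, b n * (Real.sqrt n : ℂ) * (Real.exp (-Real.pi * n * y) : ℂ)

/-- the function with Dirichlet series `∑ b(n) n^{-s}`, continued by its Mellin integral -/
noncomputable def FF (b : ℕ → ℂ) (s : ℂ) : ℂ :=
  (Real.pi : ℂ) ^ (s + 1 / 2) * (Complex.Gamma (s + 1 / 2))⁻¹ * mellin (TH b) (s + 1 / 2)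

/-- the completed function for the scale `κ` -/
noncomputable def LL (κ : ℝ) (b : ℕ → ℂ) (s : ℂ) : ℂ :=
  mellin (fun x : ℝ => TH b (x / κ)) (s + 1 / 2)

/-- the L-function of `ψ` -/
noncomputable def LH (χ : GaussianInt →* ℂ) : ℂ → ℂ := FF (bH χ)

/-- analytic hypothesis: size of the coefficients and functional equation of the theta series -/
structure Th (κ : ℝ) (b : ℕ → ℂ) (w : ℂ) : Prop where
  k1 : 1 ≤ κ
  b0 : b 0 = 0
  bd : ∀ n : ℕ, ‖b n‖ ≤ n.divisors.card
  w1 : ‖w‖ = 1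
  fe : ∀ x : ℝ, 0 < x →
    TH b (1 / (κ * x)) = w * (x : ℂ) ^ 2 * (starRingEnd ℂ) (TH b (x / κ))

/-- arithmetic hypothesis: the coefficients have an Euler product with bounded power sums `c` -/
structure Lg (b c : ℕ → ℂ) : Prop where
  b0 : b 0 = 0
  b1 : b 1 = 1
  bd : ∀ n : ℕ, ‖b n‖ ≤ n.divisors.card
  cd : ∀ n : ℕ, ‖c n‖ ≤ 2
  lg : ∀ n : ℕ, n ≠ 0 → b n * (Real.log n : ℂ) =
    ∑ d ∈ n.divisors, (ArithmeticFunction.vonMangoldt d : ℂ) * c d * b (n / d)

/-- product of the two Frobenius roots at `p` -/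
noncomputable def ee (h : GaussianInt → ℂ) (p : ℕ) : ℂ :=
  if p = 2 then 0 else if p % 4 = 3 then -h (p : GaussianInt) else h (p : GaussianInt)

/-- power sums `u ^ k + v ^ k` where `u + v = s`, `u v = e` -/
noncomputable def ts (s e : ℂ) : ℕ → ℂ
  | 0 => 2
  | 1 => s
  | (k + 2) => s * ts s e (k + 1) - e * ts s e k

/-- the power sums at prime powers -/
noncomputable def ccf (h : GaussianInt → ℂ) (n : ℕ) : ℂ :=
  if IsPrimePow n then
    ts (bb h n.minFac) (ee h n.minFac) (n.factorization n.minFac)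
  else 0

/-- coset representatives modulo `q` -/
noncomputable def Rep (q : GaussianInt) : Finset GaussianInt :=
  ((Finset.range (q.norm.natAbs) ×ˢ Finset.range (q.norm.natAbs)).image
    (fun p : ℕ × ℕ => (Quotient.out (Ideal.Quotient.mk (Ideal.span {q}) ⟨(p.1 : ℤ), (p.2 : ℤ)⟩) :
      GaussianInt)))

/-- the additive character `x ↦ exp(2π i Re(x/q))` of `ℤ[i]/q` -/
noncomputable def eq_ (q x : GaussianInt) : ℂ :=
  Complex.exp (2 * Real.pi * I * ((tc x / tc q).re : ℂ))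

/-- the Gauss sum -/
noncomputable def GS (q : GaussianInt) (χ : GaussianInt →* ℂ) (m : GaussianInt) : ℂ :=
  ∑ c ∈ Rep q, χ c * eq_ q (m * c)

end Pool.Agent.H304R3.HK
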