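import Pool.Agent.H304R3.HK.PairH
import Pool.Agent.H304R2.EC.Growth

set_option autoImplicit false

/-!
TEAM Q3, module L2 (helper89, adapted from `EC/Growth.lean` of helper911): growth of the
L-function, uniform in the conductor.
-/

open Finset Filter Topology MeasureTheory Set Asymptotics

namespace Pool.Agent.H304R3.HK

open Pool.Agent.H304R2.EC (inv_Gamma_le sp3_ne)

namespace L2x

/-- the absolute value of the Dirichlet series on `Re s = 3/2` -/
noncomputable def C0 : ℝ := ∑' n : ℕ, (n.divisors.card : ℝ) / (n : ℝ) ^ ((3 : ℝ) / 2)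

theorem C0_nonneg : 0 ≤ C0 := tsum_nonneg (fun n => by positivity)

theorem summ_card {σ : ℝ} (hσ : 1 < σ) :
    Summable (fun n : ℕ => (n.divisors.card : ℝ) / (n : ℝ) ^ σ) := by
  have h1 : LSeriesSummable 1 (σ : ℂ) := LSeriesSummable_one_iff.mpr (by simpa using hσ)
  have h2 := h1.convolution h1
  have h3 := h2.norm
  refine Summable.of_nonneg_of_le (fun n => by positivity) (fun n => ?_) h3
  rcases Nat.eq_zero_or_pos n with h | h
  · subst h
    simp
  rw [LSeries.term_of_ne_zero h.ne', LSeries.convolution_def, norm_div,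
    Complex.norm_natCast_cpow_of_pos h, Complex.ofReal_re]
  have h4 : ‖∑ p ∈ n.divisorsAntidiagonal, (1 : ℕ → ℂ) p.1 * (1 : ℕ → ℂ) p.2‖ =
      n.divisors.card := by
    simp only [Pi.one_apply, mul_one, Finset.sum_const, nsmul_eq_mul]
    rw [Complex.norm_natCast, ← Nat.map_div_right_divisors, Finset.card_map]
  rw [h4]

theorem FF_le_C0 (b : ℕ → ℂ) (h0 : b 0 = 0) (hb : ∀ n, ‖b n‖ ≤ n.divisors.card) (s : ℂ)
    (hs : 3 / 2 ≤ s.re) : ‖FF b s‖ ≤ C0 := by
  have h1 := FF_series b h0 hb s (by linarith)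
  refine tsum_of_norm_bounded (g := fun n : ℕ => (n.divisors.card : ℝ) / (n : ℝ) ^ ((3 : ℝ) / 2))
    (f := fun n : ℕ => b n * (n : ℂ) ^ (-s))
    (summ_card (by norm_num)).hasSum (fun n => ?_) |> fun h => by rwa [h1.tsum_eq] at h
  rcases Nat.eq_zero_or_pos n with h | h
  · subst h
    rw [h0]; simp
  have hn : (1 : ℝ) ≤ n := by exact_mod_cast h
  rw [norm_mul, Complex.norm_natCast_cpow_of_pos h, Complex.neg_re,
    Real.rpow_neg (by positivity), ← div_eq_mul_inv]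
  exact div_le_div₀ (Nat.cast_nonneg _) (hb n) (by positivity)
    (Real.rpow_le_rpow_of_exponent_le hn (by linarith))

/-- on the line `Re s = -1/2` -/
theorem FF_left_edge (κ : ℝ) (b : ℕ → ℂ) (w : ℂ) (H : Th κ b w) (s : ℂ) (hs : s.re = -1 / 2) :
    ‖FF b s‖ ≤ C0 * κ ^ 2 * (1 + |s.im|) ^ 2 := by
  have hκ1 : (1 : ℝ) ≤ κ := H.k1
  have hκ0 : (0 : ℝ) < κ := by linarith
  have hC := C0_nonneg
  set t : ℝ := s.im with ht
  have hsI : s + 1 / 2 = (t : ℂ) * Complex.I := by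
    apply Complex.ext
    · rw [Complex.add_re, hs]; norm_num
    · rw [Complex.add_im]; norm_num [ht]
  by_cases h0 : t = 0
  · have : FF b s = 0 := by
      rw [FF_eq κ hκ1, hsI, h0]
      simp [Complex.Gamma_zero]
    rw [this, norm_zero]
    positivity
  set Q : ℝ := κ / Real.pi with hQ
  have hQpos : 0 < Q := div_pos hκ0 Real.pi_pos
  have hQq : Q ≤ κ := by
    rw [hQ, div_le_iff₀ Real.pi_pos]
    nlinarith [Real.pi_gt_three]
  set s' : ℂ := (starRingEnd ℂ) (1 - s) with hs'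
  have hs're : s'.re = 3 / 2 := by
    rw [hs', Complex.conj_re, Complex.sub_re, hs]; norm_num
  have hs'im : s'.im = t := by
    rw [hs', Complex.conj_im, Complex.sub_im]
    simp [ht]
  have h1 : ‖LL κ b s‖ = ‖LL κ b s'‖ := by
    have h := LL_fe κ b w H (1 - s)
    rw [sub_sub_cancel] at h
    rw [h, norm_mul, H.w1, one_mul, RCLike.norm_conj]
  have hG0 : Complex.Gamma (s' + 1 / 2) ≠ 0 := by
    apply Complex.Gamma_ne_zero_of_re_pos
    have : (s' + 1 / 2).re = 2 := by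
      rw [Complex.add_re, hs're]; norm_num
    rw [this]; norm_num
  have hQ0 : (Q : ℂ) ≠ 0 := by exact_mod_cast hQpos.ne'
  have h2 : LL κ b s' = Complex.Gamma (s' + 1 / 2) * (Q : ℂ) ^ (s' + 1 / 2) * FF b s' := by
    rw [FF_eq κ hκ1, ← hQ, Complex.cpow_neg]
    have h3 : (Q : ℂ) ^ (s' + 1 / 2) ≠ 0 := by
      rw [Complex.cpow_ne_zero_iff]; left; exact hQ0
    generalize (Q : ℂ) ^ (s' + 1 / 2) = X at h3 ⊢
    generalize Complex.Gamma (s' + 1 / 2) = G at hG0 ⊢
    field_simp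
  have h4 : ‖FF b s'‖ ≤ C0 := FF_le_C0 b H.b0 H.bd s' (by rw [hs're])
  have h5 : ‖(Q : ℂ) ^ (-(s + 1 / 2))‖ = 1 := by
    rw [Complex.norm_cpow_eq_rpow_re_of_pos hQpos, hsI]
    simp
  have h6 : ‖(Q : ℂ) ^ (s' + 1 / 2)‖ = Q ^ 2 := by
    rw [Complex.norm_cpow_eq_rpow_re_of_pos hQpos]
    have : (s' + 1 / 2).re = 2 := by
      rw [Complex.add_re, hs're]; norm_num
    rw [this, Real.rpow_ofNat]
  have h7 : ‖(Complex.Gamma (s + 1 / 2))⁻¹‖ * ‖Complex.Gamma (s' + 1 / 2)‖ ≤ (1 + |t|) ^ 2 := by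
    have hsI2 : s' + 1 / 2 = (t : ℂ) * Complex.I + 1 + 1 := by
      apply Complex.ext
      · simp [hs're]; norm_num
      · simp [hs'im]
    have hIm : ((t : ℂ) * Complex.I) ≠ 0 := by
      refine mul_ne_zero ?_ Complex.I_ne_zero
      exact_mod_cast h0
    rw [hsI, hsI2, Complex.Gamma_add_one _ (by
      intro h
      have := congrArg Complex.re h
      simp at this), Complex.Gamma_add_one _ hIm]
    have hGt : ‖Complex.Gamma ((t : ℂ) * Complex.I)‖ ≠ 0 := by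
      rw [norm_ne_zero_iff]
      apply Complex.Gamma_ne_zero
      intro m h
      apply h0
      have := congrArg Complex.im h
      simpa using this
    have e5 : ‖(t : ℂ) * Complex.I + 1‖ ≤ 1 + |t| := by
      refine (norm_add_le _ _).trans ?_
      rw [norm_one, norm_mul, Complex.norm_I, mul_one, Complex.norm_real, Real.norm_eq_abs]
      linarith
    have e6 : ‖(t : ℂ) * Complex.I‖ = |t| := by
      rw [norm_mul, Complex.norm_I, mul_one, Complex.norm_real, Real.norm_eq_abs]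
    rw [norm_mul, norm_mul, e6, norm_inv]
    have e7 : ‖Complex.Gamma ((t : ℂ) * Complex.I)‖⁻¹ * (‖(t : ℂ) * Complex.I + 1‖ *
        (|t| * ‖Complex.Gamma ((t : ℂ) * Complex.I)‖)) = ‖(t : ℂ) * Complex.I + 1‖ * |t| := by
      field_simp
    rw [e7, sq]
    exact mul_le_mul e5 (by linarith [abs_nonneg t]) (abs_nonneg _) (by positivity)
  rw [FF_eq κ hκ1, ← hQ, norm_mul, norm_mul, h1, h2, norm_mul, norm_mul, h5, h6]
  calc ‖(Complex.Gamma (s + 1 / 2))⁻¹‖ * 1 * (‖Complex.Gamma (s' + 1 / 2)‖ * Q ^ 2 *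
        ‖FF b s'‖)
      = (‖(Complex.Gamma (s + 1 / 2))⁻¹‖ * ‖Complex.Gamma (s' + 1 / 2)‖) * Q ^ 2 *
        ‖FF b s'‖ := by ring
    _ ≤ (1 + |t|) ^ 2 * κ ^ 2 * C0 := by gcongr
    _ = _ := by ring

/-- the auxiliary function -/
noncomputable def HH (κ : ℝ) (b : ℕ → ℂ) (s : ℂ) : ℂ :=
  FF b s * (κ : ℂ) ^ (s - 3 / 2) * ((s + 3) ^ 2)⁻¹

theorem HH_bound (κ : ℝ) (b : ℕ → ℂ) (w : ℂ) (H : Th κ b w) (s : ℂ) (h1 : -1 / 2 ≤ s.re)
    (h2 : s.re ≤ 3 / 2) : ‖HH κ b s‖ ≤ 2 * C0 := by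
  have hq1 : (1 : ℝ) ≤ κ := H.k1
  have hq0 : (0 : ℝ) < κ := by linarith
  have hqC : (κ : ℂ) ≠ 0 := by exact_mod_cast hq0.ne'
  have hC := C0_nonneg
  have hqn : ∀ z : ℂ, ‖(κ : ℂ) ^ (z - 3 / 2)‖ = κ ^ (z.re - 3 / 2) := by
    intro z
    rw [Complex.norm_cpow_eq_rpow_re_of_pos hq0]
    congr 1
    rw [Complex.sub_re]; norm_num
  have hs3 : ∀ z : ℂ, ‖((z + 3) ^ 2)⁻¹‖ = (‖z + 3‖ ^ 2)⁻¹ := by
    intro z; rw [norm_inv, norm_pow]
  refine PhragmenLindelof.vertical_strip (f := HH κ b) (a := -1 / 2) (b := 3 / 2) ?_ ?_ ?_ ?_ h1 h2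
  · -- differentiability
    have hd : DifferentiableOn ℂ (HH κ b) {z : ℂ | -3 < z.re} := by
      intro z hz
      have hz3 : (z + 3) ^ 2 ≠ 0 := by
        apply pow_ne_zero
        intro h
        have := congrArg Complex.re h
        simp at this
        have hz' : -3 < z.re := hz
        linarith
      apply DifferentiableAt.differentiableWithinAt
      unfold HH
      refine (((FF_entire κ b w H) z).mul ?_).mul ?_
      · exact DifferentiableAt.const_cpow (by fun_prop) (Or.inl hqC)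
      · exact DifferentiableAt.inv (by fun_prop) hz3
    apply DifferentiableOn.diffContOnCl
    apply hd.mono
    refine (Complex.continuous_re.closure_preimage_subset _).trans ?_
    intro z hz
    have hz' : z.re ∈ closure (Ioo (-1 / 2 : ℝ) (3 / 2)) := hz
    rw [closure_Ioo (by norm_num)] at hz'
    have := hz'.1
    change -3 < z.re
    linarith
  · -- growth
    obtain ⟨M, hM0, hM⟩ := inv_Gamma_le
    obtain ⟨C, hC'⟩ := LL_bdd κ b w H (-1 / 2) (3 / 2)
    set Q : ℝ := κ / Real.pi with hQ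
    have hQpos : 0 < Q := div_pos hq0 Real.pi_pos
    refine ⟨1, ?_, Real.pi, ?_⟩
    · rw [show ((3 : ℝ) / 2 - -1 / 2) = 2 by norm_num]
      linarith [Real.pi_gt_three]
    refine IsBigO.of_bound (M * (1 + Q ^ (-2 : ℝ)) * C) ?_
    rw [eventually_inf_principal]
    have hev : ∀ᶠ z : ℂ in comap (abs ∘ Complex.im) atTop, 1 ≤ |z.im| := by
      have := (eventually_ge_atTop (1 : ℝ)).comap (abs ∘ Complex.im)
      exact this
    filter_upwards [hev] with z hz1 hz2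
    have hz2' : z.re ∈ Ioo (-1 / 2 : ℝ) (3 / 2) := hz2
    have hre : (z + 1 / 2).re = z.re + 1 / 2 := by rw [Complex.add_re]; norm_num
    have him : (z + 1 / 2).im = z.im := by simp
    have e1 := hM (z + 1 / 2) (by rw [hre]; linarith [hz2'.1]) (by rw [hre]; linarith [hz2'.2])
      (by rw [him]; exact hz1)
    rw [him] at e1
    have e2 := hC' z hz2'.1.le hz2'.2.le
    have e3 : ‖(Q : ℂ) ^ (-(z + 1 / 2))‖ ≤ 1 + Q ^ (-2 : ℝ) := by
      rw [Complex.norm_cpow_eq_rpow_re_of_pos hQpos, Complex.neg_re, hre]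
      rcases le_total 1 Q with h | h
      · have := Real.rpow_le_one_of_one_le_of_nonpos h
          (show -(z.re + 1 / 2) ≤ 0 by linarith [hz2'.1])
        have h5 : 0 ≤ Q ^ (-2 : ℝ) := by positivity
        linarith
      · have := Real.rpow_le_rpow_of_exponent_ge hQpos h
          (show (-2 : ℝ) ≤ -(z.re + 1 / 2) by linarith [hz2'.2])
        linarith
    have e4 : κ ^ (z.re - 3 / 2) ≤ 1 :=
      Real.rpow_le_one_of_one_le_of_nonpos hq1 (by linarith [hz2'.2])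
    have e5 : (‖z + 3‖ ^ 2)⁻¹ ≤ 1 := by
      apply inv_le_one_of_one_le₀
      have : (z + 3).re = z.re + 3 := by rw [Complex.add_re]; norm_num
      have h5 := Complex.abs_re_le_norm (z + 3)
      rw [this, abs_of_pos (by linarith [hz2'.1])] at h5
      nlinarith [hz2'.1]
    have hC0' : 0 ≤ C := (norm_nonneg _).trans e2
    unfold HH
    rw [norm_mul, norm_mul, hqn, hs3, FF_eq κ hq1, ← hQ, norm_mul, norm_mul, Real.norm_eq_abs,
      abs_of_pos (Real.exp_pos _)]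
    have e6 : Real.exp (Real.pi * |z.im|) ≤ Real.exp (Real.pi * Real.exp (1 * |z.im|)) := by
      apply Real.exp_le_exp.mpr
      apply mul_le_mul_of_nonneg_left _ Real.pi_pos.le
      rw [one_mul]
      linarith [Real.add_one_le_exp |z.im|]
    have hE := (Real.exp_pos (Real.pi * |z.im|)).le
    calc ‖(Complex.Gamma (z + 1 / 2))⁻¹‖ * ‖(Q : ℂ) ^ (-(z + 1 / 2))‖ * ‖LL κ b z‖ *
          κ ^ (z.re - 3 / 2) * (‖z + 3‖ ^ 2)⁻¹
        ≤ (M * Real.exp (Real.pi * |z.im|)) * (1 + Q ^ (-2 : ℝ)) * C * 1 * 1 := by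
          gcongr
      _ = M * (1 + Q ^ (-2 : ℝ)) * C * Real.exp (Real.pi * |z.im|) := by ring
      _ ≤ M * (1 + Q ^ (-2 : ℝ)) * C * Real.exp (Real.pi * Real.exp (1 * |z.im|)) := by
          apply mul_le_mul_of_nonneg_left e6
          positivity
  · intro z hz
    have e1 := FF_left_edge κ b w H z hz
    unfold HH
    rw [norm_mul, norm_mul, hqn, hs3, hz]
    have e2 : κ ^ ((-1 : ℝ) / 2 - 3 / 2) = (κ ^ 2)⁻¹ := by
      rw [show ((-1 : ℝ) / 2 - 3 / 2) = -((2 : ℕ) : ℝ) by norm_num, Real.rpow_neg hq0.le,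
        Real.rpow_natCast]
    rw [e2]
    have e3 : (1 + |z.im|) ^ 2 ≤ 2 * ‖z + 3‖ ^ 2 := by
      rw [Complex.sq_norm, Complex.normSq_apply]
      have : (z + 3).re = 5 / 2 := by rw [Complex.add_re, hz]; norm_num
      have h' : (z + 3).im = z.im := by simp
      rw [this, h']
      have := sq_nonneg (1 - |z.im|)
      have h4 : |z.im| ^ 2 = z.im * z.im := by rw [sq_abs, sq]
      nlinarith
    have e4 : 0 < ‖z + 3‖ ^ 2 := by
      have : z + 3 ≠ 0 := sp3_ne (by rw [hz])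
      positivity
    calc ‖FF b z‖ * (κ ^ 2)⁻¹ * (‖z + 3‖ ^ 2)⁻¹
        ≤ (C0 * κ ^ 2 * (1 + |z.im|) ^ 2) * (κ ^ 2)⁻¹ * (‖z + 3‖ ^ 2)⁻¹ := by gcongr
      _ = C0 * ((1 + |z.im|) ^ 2 * (‖z + 3‖ ^ 2)⁻¹) := by field_simp
      _ ≤ C0 * 2 := by
          apply mul_le_mul_of_nonneg_left _ hC
          rw [← div_eq_mul_inv, div_le_iff₀ e4]
          exact e3
      _ = 2 * C0 := by ring
  · intro z hz
    have e1 := FF_le_C0 b H.b0 H.bd z (by rw [hz])
    unfold HH
    rw [norm_mul, norm_mul, hqn, hs3, hz, sub_self, Real.rpow_zero, mul_one]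
    have e4 : 1 ≤ ‖z + 3‖ ^ 2 := by
      have : (z + 3).re = 9 / 2 := by rw [Complex.add_re, hz]; norm_num
      have h5 := Complex.abs_re_le_norm (z + 3)
      rw [this, abs_of_pos (by norm_num)] at h5
      nlinarith
    calc ‖FF b z‖ * (‖z + 3‖ ^ 2)⁻¹ ≤ C0 * 1 := by
          apply mul_le_mul e1 (inv_le_one_of_one_le₀ e4) (by positivity) hC
      _ ≤ 2 * C0 := by linarith

end L2x

open L2x

theorem FF_growth : ∃ A : ℝ, 1 ≤ A ∧ ∀ (κ : ℝ) (b : ℕ → ℂ) (w : ℂ), Th κ b w →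
    ∀ s : ℂ, (1 / 16 : ℝ) ≤ s.re → s.re ≤ 4 → 1 ≤ s.im → ‖FF b s‖ ≤ A * (κ * s.im) ^ A := by
  have hC := C0_nonneg
  refine ⟨2 + 100 * C0, by linarith, ?_⟩
  intro κ b w H s h1 h2 h3
  have hq1 : (1 : ℝ) ≤ κ := H.k1
  have hq0 : (0 : ℝ) < κ := by linarith
  have hqt : 1 ≤ κ * s.im := by nlinarith
  have hpow : (κ * s.im) ^ 2 ≤ (κ * s.im) ^ (2 + 100 * C0) := by
    rw [← Real.rpow_ofNat]
    exact Real.rpow_le_rpow_of_exponent_le hqt (by linarith)
  have key : ‖FF b s‖ ≤ 100 * C0 * (κ * s.im) ^ 2 := by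
    rcases le_total s.re (3 / 2) with h | h
    · have e1 := HH_bound κ b w H s (by linarith) h
      unfold HH at e1
      rw [norm_mul, norm_mul, norm_inv, norm_pow,
        Complex.norm_cpow_eq_rpow_re_of_pos hq0] at e1
      have hre : (s - 3 / 2).re = s.re - 3 / 2 := by rw [Complex.sub_re]; norm_num
      rw [hre] at e1
      have e2 : 0 < ‖s + 3‖ ^ 2 := by
        have : s + 3 ≠ 0 := sp3_ne (by linarith)
        positivity
      have e3 : ‖s + 3‖ ^ 2 ≤ 50 * s.im ^ 2 := by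
        rw [Complex.sq_norm, Complex.normSq_apply]
        have : (s + 3).re = s.re + 3 := by rw [Complex.add_re]; norm_num
        have h' : (s + 3).im = s.im := by simp
        rw [this, h']
        nlinarith
      have e4 : (κ ^ 2)⁻¹ ≤ κ ^ (s.re - 3 / 2) := by
        rw [← Real.rpow_natCast, ← Real.rpow_neg hq0.le]
        apply Real.rpow_le_rpow_of_exponent_le hq1
        push_cast
        linarith
      have e5 : ‖FF b s‖ * (κ ^ 2)⁻¹ * (‖s + 3‖ ^ 2)⁻¹ ≤ 2 * C0 := by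
        refine le_trans ?_ e1
        gcongr
      have e6 : ‖FF b s‖ ≤ 2 * C0 * (‖s + 3‖ ^ 2) * κ ^ 2 := by
        have hq2 : (0 : ℝ) < κ ^ 2 := by positivity
        have : ‖FF b s‖ = (‖FF b s‖ * (κ ^ 2)⁻¹ * (‖s + 3‖ ^ 2)⁻¹) *
            (‖s + 3‖ ^ 2) * κ ^ 2 := by
          have e2' := e2.ne'
          generalize ‖s + 3‖ ^ 2 = N at e2' ⊢
          field_simp
        rw [this]
        gcongr
      calc ‖FF b s‖ ≤ 2 * C0 * (‖s + 3‖ ^ 2) * κ ^ 2 := e6
        _ ≤ 2 * C0 * (50 * s.im ^ 2) * κ ^ 2 := by gcongr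
        _ = 100 * C0 * (κ * s.im) ^ 2 := by ring
    · have e1 := FF_le_C0 b H.b0 H.bd s h
      have e2 : 1 ≤ (κ * s.im) ^ 2 := by nlinarith
      nlinarith
  calc ‖FF b s‖ ≤ 100 * C0 * (κ * s.im) ^ 2 := key
    _ ≤ (2 + 100 * C0) * (κ * s.im) ^ (2 + 100 * C0) := by
      apply mul_le_mul (by linarith) hpow (by positivity) (by positivity)

end Pool.Agent.H304R3.HK
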