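import Pool.Agent.H304R3.HK.Defs
import Pool.Agent.H304R2.EC.Mult

set_option autoImplicit false

/-!
TEAM Q3, task M4 (helper57): the von Mangoldt function of `ℤ[i]`.
-/

open Finset

namespace Pool.Agent.H304R3.HK

open Pool.Agent.H304R2.EC (PS Sh PS_split)
open Pool.Agent.H304R2.EC.A1

namespace M4

/-- the imaginary unit -/
def ii : GaussianInt := ⟨0, 1⟩

/-- `1 + i` -/
def oi : GaussianInt := ⟨1, 1⟩

theorem ii_sq : ii * ii = -1 := by
  ext <;> simp [ii]

theorem ii4 : ii ^ 4 = 1 := by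
  have : ii ^ 4 = (ii * ii) * (ii * ii) := by ring
  rw [this, ii_sq]; ring

theorem norm_ii : ii.norm = 1 := by
  rw [norm_def']; simp [ii]

theorem norm_oi : oi.norm = 2 := by
  rw [norm_def']; simp [oi]

theorem norm_iipow (j : ℕ) : (ii ^ j).norm = 1 := by
  induction j with
  | zero => simp
  | succ j ih => rw [pow_succ, Zsqrtd.norm_mul, ih, norm_ii]; rfl

theorem norm_pow' (z : GaussianInt) (j : ℕ) : (z ^ j).norm = z.norm ^ j := by
  induction j with
  | zero => simp
  | succ j ih => rw [pow_succ, Zsqrtd.norm_mul, ih, pow_succ]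

theorem norm_nn (z : GaussianInt) : 0 ≤ z.norm := by rw [norm_def']; positivity

theorem norm_zero_iff {z : GaussianInt} (h : z.norm = 0) : z = 0 := by
  rw [norm_def'] at h
  have h1 : z.re ^ 2 = 0 := by nlinarith [sq_nonneg z.re, sq_nonneg z.im]
  have h2 : z.im ^ 2 = 0 := by nlinarith [sq_nonneg z.re, sq_nonneg z.im]
  ext
  · simpa using h1
  · simpa using h2

/-- units are powers of `i` -/
theorem unit_cases {u : GaussianInt} (hu : u.norm = 1) : ∃ j < 4, u = ii ^ j := by
  rw [norm_def'] at hu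
  have hre : u.re ^ 2 ≤ 1 := by nlinarith [sq_nonneg u.im]
  have him : u.im ^ 2 ≤ 1 := by nlinarith [sq_nonneg u.re]
  have h1 : -1 ≤ u.re ∧ u.re ≤ 1 := by
    constructor <;> nlinarith
  have h2 : -1 ≤ u.im ∧ u.im ≤ 1 := by
    constructor <;> nlinarith
  have e2 : ii ^ 2 = -1 := by rw [pow_two, ii_sq]
  have e3 : ii ^ 3 = -ii := by
    have : ii ^ 3 = (ii * ii) * ii := by ring
    rw [this, ii_sq]; ring
  obtain ⟨a, b⟩ := u
  simp only at hu h1 h2
  obtain ⟨h11, h12⟩ := h1
  obtain ⟨h21, h22⟩ := h2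
  interval_cases a <;> interval_cases b <;> simp at hu
  · exact ⟨2, by norm_num, by rw [e2]; ext <;> simp⟩
  · exact ⟨3, by norm_num, by rw [e3]; ext <;> simp [ii]⟩
  · exact ⟨1, by norm_num, by rw [pow_one]; rfl⟩
  · exact ⟨0, by norm_num, by rw [pow_zero]; ext <;> simp⟩

theorem iipow_inj {j j' : ℕ} (hj : j < 4) (hj' : j' < 4) (h : ii ^ j = ii ^ j') : j = j' := by
  have e2 : ii ^ 2 = -1 := by rw [pow_two, ii_sq]
  have e3 : ii ^ 3 = -ii := by
    have : ii ^ 3 = (ii * ii) * ii := by ring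
    rw [this, ii_sq]; ring
  interval_cases j <;> interval_cases j' <;> first
    | rfl
    | (exfalso; simp only [pow_zero, pow_one, e2, e3] at h
       rw [Zsqrtd.ext_iff] at h
       simp [ii] at h)

/-- an element of even norm is a multiple of `1 + i` -/
theorem oi_dvd {w : GaussianInt} (hw : w.norm % 2 = 0) : ∃ w', w = oi * w' := by
  rw [norm_def'] at hw
  have hp : (w.re + w.im) % 2 = 0 := by
    rcases Int.emod_two_eq_zero_or_one w.re with h | h <;>
    rcases Int.emod_two_eq_zero_or_one w.im with h' | h' <;>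
    simp [pow_two, Int.add_emod, Int.mul_emod, h, h'] at hw ⊢
  refine ⟨⟨(w.re + w.im) / 2, (w.im - w.re) / 2⟩, ?_⟩
  ext
  · simp only [oi, Zsqrtd.re_mul]; omega
  · simp only [oi, Zsqrtd.im_mul]; omega

theorem oi_pow_dvd (k m : ℕ) : ∀ w : GaussianInt, w.norm = ((2 ^ k * m : ℕ) : ℤ) →
    ∃ w' : GaussianInt, w = oi ^ k * w' ∧ w'.norm = m := by
  induction k with
  | zero => intro w hw; exact ⟨w, by simp, by simpa using hw⟩
  | succ k ih =>
    intro w hw
    obtain ⟨v, rfl⟩ := oi_dvd (w := w) (by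
      rw [hw]
      have : ((2 ^ (k + 1) * m : ℕ) : ℤ) = 2 * (2 ^ k * m) := by push_cast; ring
      rw [this]; omega)
    rw [Zsqrtd.norm_mul, norm_oi] at hw
    obtain ⟨w', h1, h2⟩ := ih v (by
      push_cast at hw ⊢
      rw [pow_succ] at hw
      linarith)
    exact ⟨w', by rw [h1, pow_succ]; ring, h2⟩

theorem oi_ne : oi ≠ 0 := by
  intro h
  have := norm_oi
  rw [h] at this
  simp at this

theorem mem_CS {n : ℕ} {a b : ℤ} : (a, b) ∈ CS n ↔ a ^ 2 + b ^ 2 = n := by
  unfold CS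
  simp only [Finset.mem_filter, Finset.mem_product, Finset.mem_Icc]
  constructor
  · rintro ⟨_, h⟩
    exact h
  · rintro h3
    refine ⟨⟨⟨?_, ?_⟩, ⟨?_, ?_⟩⟩, h3⟩ <;> nlinarith [sq_nonneg a, sq_nonneg b,
      Int.le_self_sq a, Int.le_self_sq b, Int.le_self_sq (-a), Int.le_self_sq (-b)]

/-- elements of norm `n` -/
noncomputable def T (n : ℕ) : Finset GaussianInt :=
  (CS n).map ⟨fun p => (⟨p.1, p.2⟩ : GaussianInt), by
    rintro ⟨a, b⟩ ⟨c, d⟩ h
    simpa [Zsqrtd.ext_iff] using h⟩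

theorem mem_T {n : ℕ} {z : GaussianInt} : z ∈ T n ↔ z.norm = n := by
  unfold T
  simp only [Finset.mem_map]
  constructor
  · rintro ⟨⟨a, b⟩, h, rfl⟩
    rw [mem_CS] at h
    rw [norm_def']
    exact h
  · rintro h3
    rw [norm_def'] at h3
    exact ⟨(z.re, z.im), mem_CS.2 h3, by ext <;> rfl⟩

theorem bb_eq (f : GaussianInt → ℂ) (n : ℕ) : bb f n = (1 / 4 : ℂ) * ∑ z ∈ T n, f z := by
  unfold bb T
  rw [Finset.sum_map]
  rfl

/-- reduction to primary elements -/
theorem bb_red (f : GaussianInt → ℂ) (hf : ∀ a, f (ii * a) = f a) (k m : ℕ) (hm : m % 2 = 1) :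
    bb f (2 ^ k * m) = ∑ z ∈ S m, f (oi ^ k * z) := by
  have hf' : ∀ (j : ℕ) (a : GaussianInt), f (ii ^ j * a) = f a := by
    intro j
    induction j with
    | zero => intro a; simp
    | succ j ih => intro a; rw [pow_succ, mul_assoc, ih, hf]
  rw [bb_eq]
  have key : ∑ z ∈ T (2 ^ k * m), f z =
      ∑ p ∈ Finset.range 4 ×ˢ S m, f (ii ^ p.1 * (oi ^ k * p.2)) := by
    symm
    refine Finset.sum_bij (fun (p : ℕ × GaussianInt) _ => ii ^ p.1 * (oi ^ k * p.2)) ?_ ?_ ?_ ?_
    · rintro ⟨j, z⟩ h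
      rw [Finset.mem_product, mem_S] at h
      rw [mem_T, Zsqrtd.norm_mul, norm_iipow, Zsqrtd.norm_mul, norm_pow', norm_oi, h.2.2]
      push_cast; ring
    · rintro ⟨j, z⟩ h ⟨j', z'⟩ h' heq
      rw [Finset.mem_product, mem_S, Finset.mem_range] at h h'
      simp only at h h' heq
      have e1 : ii ^ j * z = ii ^ j' * z' := by
        have : oi ^ k * (ii ^ j * z) = oi ^ k * (ii ^ j' * z') := by
          linear_combination heq
        exact mul_left_cancel₀ (pow_ne_zero _ oi_ne) this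
      have hunit : ∀ j < 4, ii ^ (4 - j) * ii ^ j = 1 := by
        intro j hj
        rw [← pow_add, Nat.sub_add_cancel hj.le, ii4]
      have e2 : z = z' := by
        apply eq_of_dvd h.2.1 h'.2.1 (by rw [h.2.2, h'.2.2])
        refine ⟨ii ^ (4 - j') * ii ^ j, ?_⟩
        calc z' = (ii ^ (4 - j') * ii ^ j') * z' := by rw [hunit j' h'.1, one_mul]
          _ = ii ^ (4 - j') * (ii ^ j' * z') := by ring
          _ = ii ^ (4 - j') * (ii ^ j * z) := by rw [e1]
          _ = z * (ii ^ (4 - j') * ii ^ j) := by ring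
      subst e2
      have e3 : ii ^ j = ii ^ j' := mul_right_cancel₀ (prim_ne_zero h.2.1) e1
      rw [iipow_inj h.1 h'.1 e3]
    · intro w hw
      rw [mem_T] at hw
      obtain ⟨w', h1, h2⟩ := oi_pow_dvd k m w hw
      obtain ⟨u, v, huv, hu⟩ := exists_prim w' (by rw [h2]; omega)
      have hnn : u.norm = 1 ∧ v.norm = 1 := by
        have h3 : u.norm * v.norm = 1 := by
          rw [← Zsqrtd.norm_mul, huv]; simp
        have hu0 := norm_nn u
        rcases Int.eq_one_or_neg_one_of_mul_eq_one h3 with h | h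
        · refine ⟨h, ?_⟩
          rw [h, one_mul] at h3
          exact h3
        · omega
      obtain ⟨j, hj, hvj⟩ := unit_cases hnn.2
      refine ⟨(j, u * w'), ?_, ?_⟩
      · rw [Finset.mem_product, mem_S, Finset.mem_range]
        refine ⟨hj, hu, ?_⟩
        rw [Zsqrtd.norm_mul, hnn.1, h2, one_mul]
      · show ii ^ j * (oi ^ k * (u * w')) = w
        rw [← hvj, h1]
        linear_combination (oi ^ k * w') * huv
    · rintro ⟨j, z⟩ _
      rfl
  rw [key, Finset.sum_product]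
  have : ∀ j ∈ Finset.range 4, ∑ z ∈ S m, f (ii ^ j * (oi ^ k * z)) =
      ∑ z ∈ S m, f (oi ^ k * z) := by
    intro j _
    exact Finset.sum_congr rfl fun z _ => hf' j _
  rw [Finset.sum_congr rfl this, Finset.sum_const, Finset.card_range]
  simp

/-! ### prime elements -/

theorem prime_of_norm {p : ℕ} (hp : p.Prime) {w : GaussianInt} (hw : w.norm = p) : Prime w := by
  rw [← irreducible_iff_prime]
  constructor
  · intro hun
    rw [← Zsqrtd.norm_eq_one_iff, hw] at hun
    simp at hun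
    exact hp.one_lt.ne' hun
  · intro a b hab
    have : a.norm.natAbs * b.norm.natAbs = p := by
      rw [← Int.natAbs_mul, ← Zsqrtd.norm_mul, ← hab, hw]
      simp
    rw [← Zsqrtd.norm_eq_one_iff, ← Zsqrtd.norm_eq_one_iff]
    have hdvd : a.norm.natAbs ∣ p := ⟨_, this.symm⟩
    rcases (Nat.dvd_prime hp).1 hdvd with h | h
    · left; exact h
    · right
      rw [h] at this
      exact Nat.eq_of_mul_eq_mul_left hp.pos (by rw [this, mul_one])

theorem norm_assoc {a b : GaussianInt} (h : Associated a b) : a.norm = b.norm := by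
  obtain ⟨u, hu⟩ := h
  rw [← hu, Zsqrtd.norm_mul]
  have h1 : (u : GaussianInt).norm * ((u⁻¹ : GaussianIntˣ) : GaussianInt).norm = 1 := by
    rw [← Zsqrtd.norm_mul, Units.mul_inv]; simp
  have hu0 := norm_nn (u : GaussianInt)
  rcases Int.eq_one_or_neg_one_of_mul_eq_one h1 with h | h
  · rw [h, mul_one]
  · omega

/-- the norm of a prime element is a prime or the square of a prime -/
theorem norm_prime {x : GaussianInt} (hx : Prime x) :
    ∃ p : ℕ, p.Prime ∧ (x.norm = p ∨ x.norm = (p : ℤ) ^ 2) := by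
  have hn0 : x.norm ≠ 0 := fun h => hx.ne_zero (norm_zero_iff h)
  set N := x.norm.natAbs with hN
  have hNx : (N : ℤ) = x.norm := by
    rw [hN]; exact Int.natAbs_of_nonneg (norm_nn x)
  have hN1 : N ≠ 1 := by
    intro h
    exact hx.not_isUnit (Zsqrtd.norm_eq_one_iff.1 h)
  -- `x` divides a rational prime
  have hd : ∀ (l : List ℕ), x ∣ ((l.prod : ℕ) : GaussianInt) → ∃ p ∈ l, x ∣ (p : GaussianInt) := by
    intro l
    induction l with
    | nil => intro h; simp at h; exact absurd (isUnit_of_dvd_one h) hx.not_isUnit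
    | cons a l ih =>
      intro h
      rw [List.prod_cons] at h
      push_cast at h
      rcases hx.dvd_or_dvd h with h | h
      · exact ⟨a, by simp, h⟩
      · obtain ⟨p, hp, hp'⟩ := ih (by push_cast; exact h)
        exact ⟨p, by simp [hp], hp'⟩
  have hN0 : N ≠ 0 := by
    intro h; apply hn0; rw [← hNx, h]; rfl
  obtain ⟨p, hp, hxp⟩ := hd N.primeFactorsList (by
    rw [Nat.prod_primeFactorsList hN0]
    have : ((N : ℕ) : GaussianInt) = ((x.norm : ℤ) : GaussianInt) := by
      rw [← hNx]; push_cast; rfl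
    rw [this, Zsqrtd.norm_eq_mul_conj]
    exact dvd_mul_right _ _)
  have hpp := Nat.prime_of_mem_primeFactorsList hp
  refine ⟨p, hpp, ?_⟩
  obtain ⟨c, hc⟩ := hxp
  have h1 : (p : ℤ) ^ 2 = x.norm * c.norm := by
    rw [← Zsqrtd.norm_mul, ← hc, norm_nat]
  have h2 : N ∣ p ^ 2 := by
    have : (N : ℤ) ∣ ((p ^ 2 : ℕ) : ℤ) := by
      rw [hNx]; push_cast; exact ⟨_, h1⟩
    exact_mod_cast this
  obtain ⟨e, he, hNe⟩ := (Nat.dvd_prime_pow hpp).1 h2
  interval_cases e
  · exact absurd (by simpa using hNe) hN1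
  · left; rw [← hNx, hNe]; simp
  · right; rw [← hNx, hNe]; push_cast; rfl

theorem assoc_of_pow {x y z : GaussianInt} (hx : Prime x) (hy : Prime y) {k l : ℕ} (hk : 0 < k)
    (h1 : Associated (x ^ k) z) (h2 : Associated (y ^ l) z) : Associated x y := by
  have h3 : x ∣ y ^ l := by
    have := (h1.trans h2.symm).dvd
    exact (dvd_pow_self x hk.ne').trans this
  exact hx.irreducible.associated_of_dvd hy.irreducible (hx.dvd_of_dvd_pow h3)

theorem LamK_eq {x z : GaussianInt} (hx : Prime x) {k : ℕ} (hk : 0 < k)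
    (h : Associated (x ^ k) z) : LamK z = Real.log ((x.norm : ℤ) : ℝ) := by
  have H : ∃ y : GaussianInt, Prime y ∧ ∃ k : ℕ, 0 < k ∧ Associated (y ^ k) z := ⟨x, hx, k, hk, h⟩
  unfold LamK
  rw [dif_pos H]
  obtain ⟨h1, l, hl, h2⟩ := H.choose_spec
  rw [norm_assoc (assoc_of_pow h1 hx hl h2 h)]

theorem LamK_zero {z : GaussianInt}
    (h : ∀ x : GaussianInt, Prime x → ∀ k : ℕ, 0 < k → ¬ Associated (x ^ k) z) : LamK z = 0 := by
  unfold LamK
  rw [dif_neg]
  rintro ⟨x, hx, k, hk, hh⟩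
  exact h x hx k hk hh

theorem ii_assoc (a : GaussianInt) : Associated a (ii * a) :=
  ⟨⟨ii, -ii, by rw [mul_neg, ii_sq, neg_neg], by rw [neg_mul, ii_sq, neg_neg]⟩, by
    show a * ii = ii * a
    ring⟩

theorem LamK_ii (a : GaussianInt) : LamK (ii * a) = LamK a := by
  by_cases H : ∃ y : GaussianInt, Prime y ∧ ∃ k : ℕ, 0 < k ∧ Associated (y ^ k) a
  · obtain ⟨y, hy, k, hk, h⟩ := H
    rw [LamK_eq hy hk h, LamK_eq hy hk (h.trans (ii_assoc a))]
  · rw [LamK_zero, LamK_zero]
    · intro x hx k hk h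
      exact H ⟨x, hx, k, hk, h⟩
    · intro x hx k hk h
      exact H ⟨x, hx, k, hk, h.trans (ii_assoc a).symm⟩

/-- if `LamK z ≠ 0` then the norm of `z` is a prime power -/
theorem LamK_npp {n : ℕ} (hn : ¬ IsPrimePow n) {z : GaussianInt} (hz : z.norm = n) :
    LamK z = 0 := by
  apply LamK_zero
  intro x hx k hk h
  have h1 := norm_assoc h
  rw [norm_pow', hz] at h1
  obtain ⟨p, hp, hp' | hp'⟩ := norm_prime hx
  · rw [hp'] at h1
    have : n = p ^ k := by exact_mod_cast h1.symm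
    exact hn (this ▸ (hp.isPrimePow.pow hk.ne'))
  · rw [hp', ← pow_mul] at h1
    have : n = p ^ (2 * k) := by exact_mod_cast h1.symm
    exact hn (this ▸ (hp.isPrimePow.pow (by omega)))

/-! ### power sums -/

theorem ts_uv (u v : ℂ) : ∀ k : ℕ, ts (u + v) (u * v) k = u ^ k + v ^ k ∧
    ts (u + v) (u * v) (k + 1) = u ^ (k + 1) + v ^ (k + 1) := by
  intro k
  induction k with
  | zero => constructor <;> simp [ts]; norm_num
  | succ k ih =>
    refine ⟨ih.2, ?_⟩
    show (u + v) * ts (u + v) (u * v) (k + 1) - (u * v) * ts (u + v) (u * v) k = _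
    rw [ih.1, ih.2]
    ring

theorem ts_s0 (s : ℂ) (k : ℕ) : ts s 0 (k + 1) = s ^ (k + 1) := by
  have := (ts_uv s 0 k).2
  simpa using this

theorem ts_0e (e : ℂ) (k : ℕ) : ts 0 e (k + 2) = -e * ts 0 e k := by
  show 0 * ts 0 e (k + 1) - e * ts 0 e k = _
  ring

variable {h : GaussianInt →* ℂ}

theorem hneg (hi : h ⟨0, 1⟩ = 1) : h (-1) = 1 := by
  have : (-1 : GaussianInt) = ⟨0, 1⟩ * ⟨0, 1⟩ := ii_sq.symm
  rw [this, map_mul, hi, mul_one]

theorem hf1 (hi : h ⟨0, 1⟩ = 1) (a : GaussianInt) : h (ii * a) = h a := by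
  rw [map_mul]
  show h ⟨0, 1⟩ * h a = h a
  rw [hi, one_mul]

theorem hf2 (hi : h ⟨0, 1⟩ = 1) (a : GaussianInt) :
    (LamK (ii * a) : ℂ) * h (ii * a) = (LamK a : ℂ) * h a := by
  rw [LamK_ii, hf1 hi]

theorem S_one : S 1 = {1} := by
  ext z
  rw [mem_S, Finset.mem_singleton]
  constructor
  · rintro ⟨h1, h2⟩
    exact eq_one_of_prim h1 (by simpa using h2)
  · rintro rfl
    exact ⟨prim_one, by simp⟩

/-! ### the prime `2` -/

theorem bb_two (hi : h ⟨0, 1⟩ = 1) : bb h 2 = h oi := by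
  have := bb_red (fun a => h a) (hf1 hi) 1 1 (by norm_num)
  rw [S_one] at this
  simpa using this

theorem lam_two (hi : h ⟨0, 1⟩ = 1) (k : ℕ) (hk : 0 < k) :
    bb (fun a => (LamK a : ℂ) * h a) (2 ^ k) = (Real.log 2 : ℂ) * (h oi) ^ k := by
  have := bb_red (fun a => (LamK a : ℂ) * h a) (hf2 hi) k 1 (by norm_num)
  rw [S_one, Finset.sum_singleton, mul_one, mul_one] at this
  rw [this]
  have hp : Prime oi := prime_of_norm Nat.prime_two norm_oi
  rw [LamK_eq hp hk (Associated.refl _), norm_oi, map_pow]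
  norm_num

/-! ### inert primes -/

theorem S_inert (p : ℕ) (hp : p.Prime) (h3 : p % 4 = 3) :
    S p = ∅ ∧ ∀ k, S (p ^ (k + 2)) = (S (p ^ k)).image (fun y => -(p : GaussianInt) * y) := by
  have : Fact p.Prime := ⟨hp⟩
  constructor
  · rw [Finset.eq_empty_iff_forall_notMem]
    intro z hz
    rw [mem_S] at hz
    obtain ⟨⟨h1, h2⟩, hn⟩ := hz
    rw [norm_def'] at hn
    obtain ⟨a, ha⟩ : ∃ a, z.re = 2 * a + 1 := ⟨z.re / 2, by omega⟩
    obtain ⟨b, hb⟩ : ∃ b, z.im = 2 * b := ⟨z.im / 2, by omega⟩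
    rw [ha, hb] at hn
    have : (p : ℤ) = 4 * (a ^ 2 + a + b ^ 2) + 1 := by rw [← hn]; ring
    omega
  · intro k
    have hpr : Prime (p : GaussianInt) := GaussianInt.prime_of_nat_prime_of_mod_four_eq_three p h3
    have hx : prim (-(p : GaussianInt)) := by
      unfold prim
      simp
      omega
    have hxn : (-(p : GaussianInt)).norm = ((p ^ 2 : ℕ) : ℤ) := by
      rw [norm_def']
      simp
    ext z
    rw [mem_image_mul hx hxn (pow_ne_zero _ hp.ne_zero), ← pow_add, add_comm 2 k]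
    constructor
    · intro hz
      refine ⟨hz, ?_⟩
      rw [mem_S] at hz
      rw [neg_dvd]
      have h1 : (p : GaussianInt) ∣ z * star z := by
        rw [← Zsqrtd.norm_eq_mul_conj, hz.2]
        push_cast
        exact dvd_pow_self _ (by omega)
      rcases hpr.dvd_or_dvd h1 with h2 | h2
      · exact h2
      · have := star_dvd_star h2
        rwa [star_star, star_nat] at this
    · exact fun h => h.1

theorem S_inert_even (p : ℕ) (hp : p.Prime) (h3 : p % 4 = 3) (j : ℕ) :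
    S (p ^ (2 * j)) = {(-(p : GaussianInt)) ^ j} := by
  induction j with
  | zero => simpa using S_one
  | succ j ih =>
    rw [show 2 * (j + 1) = 2 * j + 2 by ring, (S_inert p hp h3).2, ih, Finset.image_singleton,
      pow_succ']

theorem S_inert_odd (p : ℕ) (hp : p.Prime) (h3 : p % 4 = 3) (j : ℕ) :
    S (p ^ (2 * j + 1)) = ∅ := by
  induction j with
  | zero => simpa using (S_inert p hp h3).1
  | succ j ih =>
    rw [show 2 * (j + 1) + 1 = 2 * j + 1 + 2 by ring, (S_inert p hp h3).2, ih, Finset.image_empty]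

theorem bb_odd (f : GaussianInt → ℂ) (hf : ∀ a, f (ii * a) = f a) (m : ℕ) (hm : m % 2 = 1) :
    bb f m = ∑ z ∈ S m, f z := by
  have := bb_red f hf 0 m hm
  simpa using this

theorem bb_inert (hi : h ⟨0, 1⟩ = 1) (p : ℕ) (hp : p.Prime) (h3 : p % 4 = 3) : bb h p = 0 := by
  rw [bb_odd _ (hf1 hi) _ (by omega), (S_inert p hp h3).1, Finset.sum_empty]

theorem lam_inert (hi : h ⟨0, 1⟩ = 1) (p : ℕ) (hp : p.Prime) (h3 : p % 4 = 3) (k : ℕ)
    (hk : 0 < k) : bb (fun a => (LamK a : ℂ) * h a) (p ^ k) =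
      (Real.log p : ℂ) * ts 0 (-h (p : GaussianInt)) k := by
  have : Fact p.Prime := ⟨hp⟩
  have hodd : p ^ k % 2 = 1 := by
    rw [Nat.pow_mod, show p % 2 = 1 by omega]; simp
  rw [bb_odd _ (hf2 hi) _ hodd]
  have hts : ∀ j : ℕ, ts 0 (-h (p : GaussianInt)) (2 * j) = 2 * h (p : GaussianInt) ^ j ∧
      ts 0 (-h (p : GaussianInt)) (2 * j + 1) = 0 := by
    intro j
    induction j with
    | zero => simp [ts]
    | succ j ih =>
      constructor
      · rw [show 2 * (j + 1) = 2 * j + 2 by ring, ts_0e, ih.1]; ring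
      · rw [show 2 * (j + 1) + 1 = 2 * j + 1 + 2 by ring, ts_0e, ih.2]; ring
  have hpr : Prime (-(p : GaussianInt)) :=
    (GaussianInt.prime_of_nat_prime_of_mod_four_eq_three p h3).neg
  have hhp : h (-(p : GaussianInt)) = h (p : GaussianInt) := by
    have e : (-(p : GaussianInt)) = (-1) * (p : GaussianInt) := by ring
    rw [e, map_mul, hneg hi, one_mul]
  rcases Nat.even_or_odd' k with ⟨j, rfl | rfl⟩
  · rw [S_inert_even p hp h3, Finset.sum_singleton, (hts j).1,
      LamK_eq hpr (k := j) (by omega) (Associated.refl _), map_pow, hhp]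
    have : ((-(p : GaussianInt)).norm : ℤ) = (p : ℤ) ^ 2 := by
      rw [norm_def']; simp
    rw [this]
    push_cast
    rw [Real.log_pow]
    push_cast
    ring
  · rw [S_inert_odd p hp h3, Finset.sum_empty, (hts j).2, mul_zero]

/-! ### split primes -/

theorem split_data (p : ℕ) (hp : p.Prime) (h1 : p % 4 = 1) : ∃ x : GaussianInt,
    prim x ∧ x.norm = p ∧ x * star x = p ∧ ¬ x ∣ star x ∧ S p = {x, star x} ∧ x ≠ star x := by
  obtain ⟨a, b, hb0, hb, hab, hn, hPS⟩ := PS_split p hp h1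
  have hxp : prim (⟨a, b⟩ : GaussianInt) := ⟨hb, hab⟩
  have hxn : (⟨a, b⟩ : GaussianInt).norm = p := by rw [norm_def']; exact hn
  have hne : (⟨a, b⟩ : GaussianInt) ≠ star ⟨a, b⟩ := by
    intro heq
    have := congrArg Zsqrtd.im heq
    simp at this
    omega
  refine ⟨⟨a, b⟩, hxp, hxn, ?_, ?_, ?_, hne⟩
  · rw [← Zsqrtd.norm_eq_mul_conj, hxn]; push_cast; rfl
  · intro hd
    exact hne (eq_of_dvd hxp (prim_star hxp) (by rw [gnorm_star]) hd)
  · ext z
    rw [mem_S, Finset.mem_insert, Finset.mem_singleton]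
    constructor
    · rintro ⟨hz, hzn⟩
      have : (z.re, z.im) ∈ PS p := mem_PS.2 ⟨hz.1, hz.2, by rw [← hzn, norm_def']⟩
      rw [hPS, Finset.mem_insert, Finset.mem_singleton, Prod.mk.injEq, Prod.mk.injEq] at this
      rcases this with ⟨e1, e2⟩ | ⟨e1, e2⟩
      · left; ext <;> simp [e1, e2]
      · right; ext <;> simp [e1, e2]
    · rintro (rfl | rfl)
      · exact ⟨hxp, hxn⟩
      · exact ⟨prim_star hxp, by rw [gnorm_star, hxn]⟩

theorem prim_pow {x : GaussianInt} (hx : prim x) (k : ℕ) : prim (x ^ k) := by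
  induction k with
  | zero => simpa using prim_one
  | succ k ih => rw [pow_succ]; exact prim_mul ih hx

theorem lam_split (hi : h ⟨0, 1⟩ = 1) (p : ℕ) (hp : p.Prime) (h1 : p % 4 = 1) (k : ℕ)
    (hk : 0 < k) : bb (fun a => (LamK a : ℂ) * h a) (p ^ k) =
      (Real.log p : ℂ) * ts (bb h p) (h (p : GaussianInt)) k := by
  have hodd : p ^ k % 2 = 1 := by
    rw [Nat.pow_mod, show p % 2 = 1 by omega]; simp
  obtain ⟨x, hxp, hxn, hxx, hxd, hS, hne⟩ := split_data p hp h1
  have hyp := prim_star hxp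
  have hyn : (star x).norm = p := by rw [gnorm_star, hxn]
  have hpx := prime_of_norm hp hxn
  have hpy := prime_of_norm hp hyn
  have hbb : bb h p = h x + h (star x) := by
    rw [bb_odd _ (hf1 hi) _ (by omega), hS, Finset.sum_pair hne]
  have hhp : h (p : GaussianInt) = h x * h (star x) := by rw [← hxx, map_mul]
  have hts : ts (bb h p) (h (p : GaussianInt)) k = h x ^ k + h (star x) ^ k := by
    rw [hbb, hhp]
    exact (ts_uv _ _ k).1
  have hmem : ∀ y : GaussianInt, prim y → y.norm = p → y ^ k ∈ S (p ^ k) := by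
    intro y hy hyn
    rw [mem_S]
    refine ⟨prim_pow hy k, ?_⟩
    rw [norm_pow', hyn]; push_cast; rfl
  have hnek : x ^ k ≠ (star x) ^ k := by
    intro he
    apply hxd
    apply hpx.dvd_of_dvd_pow (n := k)
    rw [← he]
    exact dvd_pow_self _ hk.ne'
  rw [bb_odd _ (hf2 hi) _ hodd, hts]
  have hsub : ({x ^ k, (star x) ^ k} : Finset GaussianInt) ⊆ S (p ^ k) := by
    intro z hz
    rw [Finset.mem_insert, Finset.mem_singleton] at hz
    rcases hz with rfl | rfl
    · exact hmem x hxp hxn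
    · exact hmem _ hyp hyn
  rw [← Finset.sum_subset hsub, Finset.sum_pair hnek, LamK_eq hpx hk (Associated.refl _),
    LamK_eq hpy hk (Associated.refl _), hxn, hyn, map_pow, map_pow]
  · push_cast; ring
  · intro z hz hz'
    rw [mem_S] at hz
    rw [LamK_zero]
    · simp
    intro y hy l hl hyl
    apply hz'
    -- `y` is associated to `x` or to `star x`
    have hyd : y ∣ x ^ k * (star x) ^ k := by
      rw [← mul_pow, hxx]
      have e : ((p : GaussianInt)) ^ k = z * star z := by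
        rw [← Zsqrtd.norm_eq_mul_conj, hz.2]; push_cast; rfl
      rw [e]
      exact ((dvd_pow_self y hl.ne').trans hyl.dvd).trans (dvd_mul_right _ _)
    have main : ∀ w : GaussianInt, prim w → w.norm = p → Prime w → y ∣ w ^ k → z = w ^ k := by
      intro w hw hwn hwp hd
      have hyw : Associated y w :=
        hy.irreducible.associated_of_dvd hwp.irreducible (hy.dvd_of_dvd_pow hd)
      have hwl : Associated (w ^ l) z := (hyw.symm.pow_pow).trans hyl
      have hn := norm_assoc hwl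
      rw [norm_pow', hwn, hz.2] at hn
      have hlk : l = k := by
        have : p ^ l = p ^ k := by exact_mod_cast hn
        exact Nat.pow_right_injective hp.two_le this
      subst hlk
      exact (eq_of_dvd (prim_pow hw _) hz.1 (norm_assoc hwl) hwl.dvd).symm
    rw [Finset.mem_insert, Finset.mem_singleton]
    rcases hy.dvd_or_dvd hyd with h2 | h2
    · left; exact main x hxp hxn hpx h2
    · right; exact main _ hyp hyn hpy h2

/-! ### assembly -/

theorem ccf_pow (h : GaussianInt → ℂ) (p : ℕ) (hp : p.Prime) (k : ℕ) (hk : 0 < k) :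
    ccf h (p ^ k) = ts (bb h p) (ee h p) k := by
  unfold ccf
  rw [if_pos (hp.isPrimePow.pow hk.ne'), hp.pow_minFac hk.ne', hp.factorization_pow]
  simp

theorem vM_pow (p : ℕ) (hp : p.Prime) (k : ℕ) (hk : 0 < k) :
    ArithmeticFunction.vonMangoldt (p ^ k) = Real.log p := by
  rw [ArithmeticFunction.vonMangoldt_apply_pow hk.ne', ArithmeticFunction.vonMangoldt_apply_prime hp]

theorem lam_pp (hi : h ⟨0, 1⟩ = 1) (p : ℕ) (hp : p.Prime) (k : ℕ) (hk : 0 < k) :
    bb (fun a => (LamK a : ℂ) * h a) (p ^ k) =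
      (ArithmeticFunction.vonMangoldt (p ^ k) : ℂ) * ccf h (p ^ k) := by
  rw [ccf_pow h p hp k hk, vM_pow p hp k hk]
  by_cases h2 : p = 2
  · subst h2
    rw [lam_two hi k hk, bb_two hi]
    have : ee h 2 = 0 := by simp [ee]
    rw [this]
    obtain ⟨j, rfl⟩ : ∃ j, k = j + 1 := ⟨k - 1, by omega⟩
    rw [ts_s0]
    norm_num
  · have hodd := hp.eq_two_or_odd
    rcases (by omega : p % 4 = 1 ∨ p % 4 = 3) with h1 | h3
    · rw [lam_split hi p hp h1 k hk]
      have : ee h p = h (p : GaussianInt) := by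
        unfold ee; rw [if_neg h2, if_neg (by omega)]
      rw [this]
    · rw [lam_inert hi p hp h3 k hk, bb_inert hi p hp h3]
      have : ee h p = -h (p : GaussianInt) := by
        unfold ee; rw [if_neg h2, if_pos h3]
      rw [this]

theorem bb_zero_of (f : GaussianInt → ℂ) (n : ℕ) (hf : ∀ z : GaussianInt, z.norm = n → f z = 0) :
    bb f n = 0 := by
  rw [bb_eq, Finset.sum_eq_zero, mul_zero]
  intro z hz
  exact hf z (mem_T.1 hz)

theorem LamK_0 : LamK 0 = 0 := by
  apply LamK_zero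
  intro x hx k hk h
  exact pow_ne_zero k hx.ne_zero ((associated_zero_iff_eq_zero _).1 h)

/-- the trivial character extended by zero -/
noncomputable def h1 : GaussianInt →* ℂ where
  toFun a := if a = 0 then 0 else 1
  map_one' := by simp
  map_mul' := by
    intro a b
    by_cases ha : a = 0
    · simp [ha]
    by_cases hb : b = 0
    · simp [hb]
    simp [ha, hb]

theorem h1_of {a : GaussianInt} (ha : a ≠ 0) : h1 a = 1 := by
  show (if a = 0 then (0 : ℂ) else 1) = 1
  rw [if_neg ha]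

theorem h1i : h1 ⟨0, 1⟩ = 1 := h1_of (by intro h; rw [Zsqrtd.ext_iff] at h; simp at h)

theorem ccf_h1 (p : ℕ) (hp : p.Prime) (k : ℕ) (hk : 0 < k) :
    ccf h1 (p ^ k) = 1 + ((ZMod.χ₄ ((p ^ k : ℕ) : ZMod 4) : ℤ) : ℂ) := by
  rw [ccf_pow h1 p hp k hk]
  have hp0 : (p : GaussianInt) ≠ 0 := by
    intro h
    have := norm_nat p
    rw [h] at this
    simp at this
    have h0 : p ^ 2 = 0 := by exact_mod_cast this.symm
    exact hp.ne_zero (pow_eq_zero_iff (by norm_num) |>.1 h0)
  by_cases h2 : p = 2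
  · subst h2
    have : ee h1 2 = 0 := by simp [ee]
    rw [this, bb_two h1i, h1_of oi_ne]
    obtain ⟨j, rfl⟩ : ∃ j, k = j + 1 := ⟨k - 1, by omega⟩
    rw [ts_s0]
    have : ZMod.χ₄ ((2 ^ (j + 1) : ℕ) : ZMod 4) = 0 := by
      rw [Nat.cast_pow, map_pow]
      have : ZMod.χ₄ ((2 : ℕ) : ZMod 4) = 0 := by decide
      rw [this, zero_pow (by omega)]
    rw [this]
    simp
  · have hodd := hp.eq_two_or_odd
    rcases (by omega : p % 4 = 1 ∨ p % 4 = 3) with h1' | h3
    · have : ee h1 p = h1 (p : GaussianInt) := by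
        unfold ee; rw [if_neg h2, if_neg (by omega)]
      rw [this]
      obtain ⟨x, hxp, hxn, hxx, hxd, hS, hne⟩ := split_data p hp h1'
      have hbb : bb h1 p = h1 x + h1 (star x) := by
        rw [bb_odd _ (hf1 h1i) _ (by omega), hS, Finset.sum_pair hne]
      have hhp : h1 (p : GaussianInt) = h1 x * h1 (star x) := by rw [← hxx, map_mul]
      rw [hbb, hhp, (ts_uv _ _ k).1, h1_of (prim_ne_zero hxp), h1_of (prim_ne_zero (prim_star hxp))]
      have : ZMod.χ₄ ((p ^ k : ℕ) : ZMod 4) = 1 := by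
        rw [Nat.cast_pow, map_pow, ZMod.χ₄_nat_one_mod_four h1', one_pow]
      rw [this]
      simp
    · have : ee h1 p = -h1 (p : GaussianInt) := by
        unfold ee; rw [if_neg h2, if_pos h3]
      rw [this, bb_inert h1i p hp h3, h1_of hp0]
      have e1 : ZMod.χ₄ ((p ^ k : ℕ) : ZMod 4) = (-1) ^ k := by
        rw [Nat.cast_pow, map_pow, ZMod.χ₄_nat_three_mod_four h3]
      rw [e1]
      have := (ts_uv 1 (-1) k).1
      rw [show (1 : ℂ) + -1 = 0 by ring, show (1 : ℂ) * -1 = -1 by ring] at this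
      rw [this]
      push_cast
      ring

end M4

open M4

theorem lam_eq (h : GaussianInt →* ℂ) (hh : UH h) (n : ℕ) :
    bb (fun a => (LamK a : ℂ) * h a) n = (ArithmeticFunction.vonMangoldt n : ℂ) * ccf h n := by
  by_cases hn : IsPrimePow n
  · obtain ⟨p, k, hp, hk, rfl⟩ := (isPrimePow_nat_iff n).1 hn
    exact lam_pp hh.hi p hp k hk
  · rw [bb_zero_of]
    · unfold ccf
      rw [if_neg hn, mul_zero]
    · intro z hz
      rw [LamK_npp hn hz]
      simp

theorem lam_one (n : ℕ) : bb (fun a => (LamK a : ℂ)) n =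
    ((ArithmeticFunction.vonMangoldt n * (1 + ((ZMod.χ₄ (n : ZMod 4) : ℤ) : ℝ)) : ℝ) : ℂ) := by
  have e : (fun a : GaussianInt => (LamK a : ℂ)) = fun a => (LamK a : ℂ) * h1 a := by
    funext a
    by_cases ha : a = 0
    · rw [ha, LamK_0]; simp
    · rw [h1_of ha, mul_one]
  rw [e]
  by_cases hn : IsPrimePow n
  · obtain ⟨p, k, hp, hk, rfl⟩ := (isPrimePow_nat_iff n).1 hn
    rw [lam_pp h1i p hp k hk, ccf_h1 p hp k hk]
    push_cast
    rfl
  · rw [bb_zero_of]
    · rw [ArithmeticFunction.vonMangoldt_apply, if_neg hn]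
      simp
    · intro z hz
      rw [LamK_npp hn hz]
      simp

end Pool.Agent.H304R3.HK
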