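import Pool.Agent.H304R3.HK.Defs
import Pool.Agent.H304R2.EC.Left

set_option autoImplicit false

/-!
TEAM Q3 (helper304, helper385), task L3 (helper551): logarithmic derivative of the functional
equation.
-/

open Complex Filter Topology

namespace Pool.Agent.H304R3.HK

open H370.DL (refl hasDerivAt_refl analyticAt_refl im_osc eventually_im_ne ne_neg_nat_of_im
  logDeriv_refl digamma_ext order_refl)

open Pool.Agent.H304R2.EC (LX logDeriv_LX LX_analytic LX_ne_zero)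

theorem L3_cpow_conj (κ : ℝ) (hκ : 0 < κ) (z : ℂ) :
    (starRingEnd ℂ) ((κ : ℂ) ^ z) = (κ : ℂ) ^ (starRingEnd ℂ) z := by
  rw [Complex.cpow_conj]
  · rw [Complex.conj_ofReal]
  · rw [Complex.arg_ofReal_of_nonneg hκ.le]
    exact Real.pi_pos.ne

theorem L3_func (κ : ℝ) (b : ℕ → ℂ) (w : ℂ) (hκ1 : 1 ≤ κ)
    (hfe : ∀ s : ℂ, LL κ b (1 - s) = w * (starRingEnd ℂ) (LL κ b ((starRingEnd ℂ) s)))
    (hFF : ∀ s : ℂ, FF b s = (Complex.Gamma (s + 1 / 2))⁻¹ *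
      ((κ / Real.pi : ℝ) : ℂ) ^ (-(s + 1 / 2)) * LL κ b s) (z : ℂ) (hz : z.im ≠ 0) :
    FF b z = LX w (κ / Real.pi) z * refl (FF b) z := by
  have hκ : 0 < κ / Real.pi := div_pos (by linarith) Real.pi_pos
  set κ' : ℝ := κ / Real.pi with hκd
  have hκc : (κ' : ℂ) ≠ 0 := ofReal_ne_zero.mpr hκ.ne'
  have h1 : LL κ b z = w * (starRingEnd ℂ) (LL κ b (1 - (starRingEnd ℂ) z)) := by
    have := hfe (1 - z)
    rw [sub_sub_cancel, map_sub, map_one] at this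
    exact this
  have h3 := hFF z
  have h4 := hFF (1 - (starRingEnd ℂ) z)
  have hg1 : Gamma (3 / 2 - z) ≠ 0 := Gamma_ne_zero (ne_neg_nat_of_im (by simpa using hz))
  have h2 : refl (FF b) z = (Gamma (3 / 2 - z))⁻¹ * (κ' : ℂ) ^ (-(3 / 2 - z)) *
      (starRingEnd ℂ) (LL κ b (1 - (starRingEnd ℂ) z)) := by
    change (starRingEnd ℂ) (FF b (1 - (starRingEnd ℂ) z)) = _
    rw [h4, map_mul, map_mul, map_inv₀, ← Complex.Gamma_conj, L3_cpow_conj κ' hκ]
    have e1 : (starRingEnd ℂ) (1 - (starRingEnd ℂ) z + 1 / 2) = 3 / 2 - z := by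
      simp only [map_add, map_sub, map_one, Complex.conj_conj, map_div₀, map_ofNat]
      ring
    have e2 : (starRingEnd ℂ) (-(1 - (starRingEnd ℂ) z + 1 / 2)) = -(3 / 2 - z) := by
      rw [map_neg, e1]
    rw [e1, e2]
  have hp : (κ' : ℂ) ^ (-(3 / 2 - z)) ≠ 0 := by
    rw [Ne, cpow_eq_zero_iff]
    exact fun h => hκc h.1
  have h5 : (starRingEnd ℂ) (LL κ b (1 - (starRingEnd ℂ) z)) =
      Gamma (3 / 2 - z) * ((κ' : ℂ) ^ (-(3 / 2 - z)))⁻¹ * refl (FF b) z := by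
    rw [h2]
    generalize Gamma (3 / 2 - z) = G1 at *
    generalize (κ' : ℂ) ^ (-(3 / 2 - z)) = P at *
    field_simp
  have h6 : (κ' : ℂ) ^ (1 - 2 * z) =
      (κ' : ℂ) ^ (-(z + 1 / 2)) * ((κ' : ℂ) ^ (-(3 / 2 - z)))⁻¹ := by
    rw [← cpow_neg, ← cpow_add _ _ hκc]
    congr 1
    ring
  rw [h3, h1, h5, LX, h6]
  ring

/-- L3 with the facts of L1 as hypotheses -/
theorem FF_left_of
    (hLLfe : ∀ (κ : ℝ) (b : ℕ → ℂ) (w : ℂ) (_ : Th κ b w) (s : ℂ),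
      LL κ b (1 - s) = w * (starRingEnd ℂ) (LL κ b ((starRingEnd ℂ) s)))
    (hFFeq : ∀ (κ : ℝ) (_ : 1 ≤ κ) (b : ℕ → ℂ) (s : ℂ),
      FF b s = (Complex.Gamma (s + 1 / 2))⁻¹ *
        ((κ / Real.pi : ℝ) : ℂ) ^ (-(s + 1 / 2)) * LL κ b s)
    (hent : ∀ (κ : ℝ) (b : ℕ → ℂ) (w : ℂ) (_ : Th κ b w), Differentiable ℂ (FF b)) :
    ∃ A : ℝ, 1 ≤ A ∧ ∀ (κ : ℝ) (b : ℕ → ℂ) (w : ℂ), Th κ b w →
    ∀ s : ℂ, -1 / 2 ≤ s.re → s.re ≤ 1 / 2 → 1 ≤ s.im → FF b s ≠ 0 →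
    ‖deriv (FF b) s / FF b s + ((2 * Real.log (κ * s.im) : ℝ) : ℂ) +
      (starRingEnd ℂ) (deriv (FF b) (1 - (starRingEnd ℂ) s) /
        FF b (1 - (starRingEnd ℂ) s))‖ ≤ A := by
  obtain ⟨C, hC0, hC⟩ := digamma_ext
  refine ⟨|2 * Real.log (1 / Real.pi)| + C + C + 1, by
    have := abs_nonneg (2 * Real.log (1 / Real.pi))
    linarith, ?_⟩
  intro κ b w H s h1 h2 h3 h4
  have hs : s.im ≠ 0 := by linarith
  have hk1 := H.k1
  have hk0 : (0 : ℝ) < κ := by linarith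
  have hpi := Real.pi_pos
  have hκ : 0 < κ / Real.pi := by positivity
  have hfe := L3_func κ b w hk1 (hLLfe κ b w H) (hFFeq κ hk1 b)
  have hw := H.w1
  have hw0 : w ≠ 0 := by
    intro h
    rw [h, norm_zero] at hw
    exact zero_ne_one hw
  set κ' : ℝ := κ / Real.pi with hκd
  have hd : Differentiable ℂ (FF b) := hent κ b w H
  have ha : AnalyticAt ℂ (FF b) (1 - (starRingEnd ℂ) s) :=
    (hd.differentiableOn).analyticAt Filter.univ_mem
  have e1 : FF b =ᶠ[𝓝 s] fun z => LX w κ' z * refl (FF b) z := by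
    filter_upwards [eventually_im_ne hs] with z hz
    exact hfe z hz
  have hr : refl (FF b) s ≠ 0 := by
    intro h
    apply h4
    rw [hfe s hs, h, mul_zero]
  have e2 : logDeriv (FF b) s = logDeriv (LX w κ') s + logDeriv (refl (FF b)) s := by
    rw [(logDeriv_congr_nhds e1).eq_of_nhds]
    exact logDeriv_mul s (LX_ne_zero w hw0 κ' hκ hs) hr (LX_analytic w κ' hκ hs).differentiableAt
      (analyticAt_refl ha).differentiableAt
  rw [logDeriv_refl ha.differentiableAt, logDeriv_LX w hw0 κ' hκ hs] at e2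
  change ‖logDeriv (FF b) s + ((2 * Real.log (κ * s.im) : ℝ) : ℂ) +
    (starRingEnd ℂ) (logDeriv (FF b) (1 - (starRingEnd ℂ) s))‖ ≤ _
  rw [e2]
  have b1 := hC (3 / 2 - s) (by simp; linarith) (by simp; linarith)
    (by simp [abs_of_nonneg (by linarith : 0 ≤ s.im)]; linarith)
  have b2 := hC (s + 1 / 2) (by simp; linarith) (by simp; linarith)
    (by simp [abs_of_nonneg (by linarith : 0 ≤ s.im)]; linarith)
  have i1 : |(3 / 2 - s).im| = s.im := by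
    simp [abs_of_nonneg (by linarith : 0 ≤ s.im)]
  have i2 : |(s + 1 / 2).im| = s.im := by
    simp [abs_of_nonneg (by linarith : 0 ≤ s.im)]
  rw [i1] at b1
  rw [i2] at b2
  have hlogκ : Real.log κ' = Real.log (1 / Real.pi) + Real.log κ := by
    rw [← Real.log_mul (by positivity) hk0.ne', hκd]
    congr 1
    ring
  have hlogq : Real.log (κ * s.im) = Real.log κ + Real.log s.im :=
    Real.log_mul hk0.ne' hs
  have e3 : -(2 * Real.log κ' : ℂ) - logDeriv Gamma (3 / 2 - s) - logDeriv Gamma (s + 1 / 2) +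
      -(starRingEnd ℂ) (logDeriv (FF b) (1 - (starRingEnd ℂ) s)) +
        ((2 * Real.log (κ * s.im) : ℝ) : ℂ) +
      (starRingEnd ℂ) (logDeriv (FF b) (1 - (starRingEnd ℂ) s)) =
      -((2 * Real.log (1 / Real.pi) : ℝ) : ℂ) -
        (logDeriv Gamma (3 / 2 - s) - Real.log s.im) -
      (logDeriv Gamma (s + 1 / 2) - Real.log s.im) := by
    rw [hlogq, hlogκ]
    push_cast
    ring
  rw [e3]
  refine (norm_sub_le _ _).trans ?_
  have n1 := norm_sub_le (-((2 * Real.log (1 / Real.pi) : ℝ) : ℂ))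
    (logDeriv Gamma (3 / 2 - s) - Real.log s.im)
  rw [norm_neg, Complex.norm_real, Real.norm_eq_abs] at n1
  linarith

end Pool.Agent.H304R3.HK
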