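import Pool.Agent.H304R3.HK.Defs

set_option autoImplicit false

/-!
TEAM Q3, task M2 (helper662, after EC/Coef.lean): complex Newton identity and the logarithmic
derivative of an Euler product of degree two.
-/

open Finset

namespace Pool.Agent.H304R3.HK

theorem ts_eq (u v : ℂ) (k : ℕ) : ts (u + v) (u * v) k = u ^ k + v ^ k := by
  have h : ∀ k, ts (u + v) (u * v) k = u ^ k + v ^ k ∧
      ts (u + v) (u * v) (k + 1) = u ^ (k + 1) + v ^ (k + 1) := by
    intro k
    induction k with
    | zero =>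
      refine ⟨?_, ?_⟩
      · simp [ts]
        norm_num
      · simp [ts]
    | succ k ih =>
      refine ⟨ih.2, ?_⟩
      rw [ts, ih.1, ih.2]
      ring
  exact (h k).1

theorem ts_bound (u v : ℂ) (hu : ‖u‖ ≤ 1) (hv : ‖v‖ ≤ 1) (k : ℕ) :
    ‖ts (u + v) (u * v) k‖ ≤ 2 := by
  rw [ts_eq]
  refine (norm_add_le _ _).trans ?_
  rw [norm_pow, norm_pow]
  have := pow_le_one₀ (norm_nonneg u) hu (n := k)
  have := pow_le_one₀ (norm_nonneg v) hv (n := k)
  linarith

theorem f_bound (u v : ℂ) (hu : ‖u‖ ≤ 1) (hv : ‖v‖ ≤ 1) (F : ℕ → ℂ) (hF0 : F 0 = 1)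
    (hF1 : F 1 = u + v) (hF : ∀ k, F (k + 2) = (u + v) * F (k + 1) - u * v * F k) (k : ℕ) :
    ‖F k‖ ≤ k + 1 := by
  have hG : ∀ k, F k = ∑ j ∈ range (k + 1), u ^ j * v ^ (k - j) ∧
      F (k + 1) = v * F k + u ^ (k + 1) := by
    intro k
    induction k with
    | zero =>
      refine ⟨by simp [hF0], ?_⟩
      rw [hF1, hF0]
      ring
    | succ k ih =>
      obtain ⟨ih1, ih2⟩ := ih
      refine ⟨?_, ?_⟩
      · rw [ih2, ih1, Finset.sum_range_succ _ (k + 1), Finset.mul_sum]
        congr 1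
        · apply Finset.sum_congr rfl
          intro j hj
          rw [Finset.mem_range] at hj
          have : k + 1 - j = (k - j) + 1 := by omega
          rw [this, pow_succ]
          ring
        · simp
      · rw [hF, ih2]
        ring
  rw [(hG k).1]
  refine (norm_sum_le _ _).trans ?_
  have : ∀ j ∈ range (k + 1), ‖u ^ j * v ^ (k - j)‖ ≤ 1 := by
    intro j _
    rw [norm_mul, norm_pow, norm_pow]
    exact mul_le_one₀ (pow_le_one₀ (norm_nonneg _) hu) (by positivity)
      (pow_le_one₀ (norm_nonneg _) hv)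
  refine (Finset.sum_le_sum this).trans ?_
  rw [Finset.sum_const, Finset.card_range, nsmul_eq_mul]
  push_cast
  linarith

/-- Newton's identity -/
theorem m2_newton (s e : ℂ) (F S : ℕ → ℂ) (hF0 : F 0 = 1) (hF1 : F 1 = s)
    (hF : ∀ k, F (k + 2) = s * F (k + 1) - e * F k)
    (hS0 : S 0 = 2) (hS1 : S 1 = s) (hS : ∀ k, S (k + 2) = s * S (k + 1) - e * S k) (k : ℕ) :
    (k : ℂ) * F k = ∑ j ∈ range k, S (j + 1) * F (k - (j + 1)) := by
  have hSF : ∀ k, S (k + 2) = s * F (k + 1) - 2 * e * F k ∧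
      S (k + 3) = s * F (k + 2) - 2 * e * F (k + 1) := by
    intro k
    induction k with
    | zero =>
      refine ⟨?_, ?_⟩
      · rw [hS, hS0, hS1, hF0, hF1]; ring
      · rw [hS, hS, hS0, hS1, hF, hF0, hF1]; ring
    | succ k ih =>
      refine ⟨ih.2, ?_⟩
      rw [hS, ih.2, ih.1, hF (k + 1), hF k]
      ring
  have hN : ∀ k : ℕ, ((k : ℂ) * F k = ∑ j ∈ range k, S (j + 1) * F (k - (j + 1))) ∧
      (((k + 1 : ℕ) : ℂ) * F (k + 1) =
        ∑ j ∈ range (k + 1), S (j + 1) * F (k + 1 - (j + 1))) := by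
    intro k
    induction k with
    | zero => simp [hF0, hF1, hS1]
    | succ k ih =>
      obtain ⟨ih0, ih1⟩ := ih
      refine ⟨ih1, ?_⟩
      have e1 : ∑ j ∈ range (k + 1 + 1), S (j + 1) * F (k + 1 + 1 - (j + 1)) =
          ∑ j ∈ range k, S (j + 1) * F (k + 2 - (j + 1)) + S (k + 1) * s + S (k + 2) := by
        rw [Finset.sum_range_succ, Finset.sum_range_succ]
        have h1 : k + 1 + 1 - (k + 1) = 1 := by omega
        have h2 : k + 1 + 1 - (k + 1 + 1) = 0 := by omega
        rw [h1, h2, hF0, hF1, mul_one]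
      have e2 : ∑ j ∈ range k, S (j + 1) * F (k + 2 - (j + 1)) =
          s * ∑ j ∈ range k, S (j + 1) * F (k + 1 - (j + 1)) -
          e * ∑ j ∈ range k, S (j + 1) * F (k - (j + 1)) := by
        rw [Finset.mul_sum, Finset.mul_sum, ← Finset.sum_sub_distrib]
        apply Finset.sum_congr rfl
        intro j hj
        rw [Finset.mem_range] at hj
        have h1 : k + 2 - (j + 1) = (k - (j + 1)) + 2 := by omega
        have h2 : k + 1 - (j + 1) = (k - (j + 1)) + 1 := by omega
        rw [h1, h2, hF]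
        ring
      have e3 : ∑ j ∈ range (k + 1), S (j + 1) * F (k + 1 - (j + 1)) =
          ∑ j ∈ range k, S (j + 1) * F (k + 1 - (j + 1)) + S (k + 1) := by
        rw [Finset.sum_range_succ]
        have h1 : k + 1 - (k + 1) = 0 := by omega
        rw [h1, hF0, mul_one]
      rw [e3] at ih1
      rw [e1, e2, ← ih0, (hSF k).1]
      have h4 : ∑ j ∈ range k, S (j + 1) * F (k + 1 - (j + 1)) =
          ((k + 1 : ℕ) : ℂ) * F (k + 1) - S (k + 1) := by
        rw [ih1]
        ring
      rw [h4, hF]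
      push_cast
      ring
  exact (hN k).1

open ArithmeticFunction in
theorem gen_log (f : ℕ → ℂ) (e : ℕ → ℂ) (c : ℕ → ℂ)
    (h1 : f 1 = 1) (hmul : ∀ m n, Nat.Coprime m n → f (m * n) = f m * f n)
    (hrec : ∀ p, p.Prime → ∀ k, f (p ^ (k + 2)) = f p * f (p ^ (k + 1)) - e p * f (p ^ k))
    (hc : ∀ p, p.Prime → ∀ k, c (p ^ (k + 1)) = ts (f p) (e p) (k + 1)) (n : ℕ) (hn : n ≠ 0) :
    f n * (Real.log n : ℂ) =
      ∑ d ∈ n.divisors, (ArithmeticFunction.vonMangoldt d : ℂ) * c d * f (n / d) := by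
  induction n using Nat.recOnPrimeCoprime with
  | zero => exact absurd rfl hn
  | prime_pow p k hp =>
    rw [Nat.sum_divisors_prime_pow hp, Nat.cast_pow, Real.log_pow, Finset.sum_range_succ',
      Nat.pow_zero, vonMangoldt_apply_one, Complex.ofReal_zero, zero_mul, zero_mul, add_zero]
    have e1 : ∀ j ∈ range k, ((vonMangoldt (p ^ (j + 1)) : ℝ) : ℂ) * c (p ^ (j + 1)) *
        f (p ^ k / p ^ (j + 1)) =
          ((Real.log p : ℝ) : ℂ) * (c (p ^ (j + 1)) * f (p ^ (k - (j + 1)))) := by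
      intro j hj
      rw [Finset.mem_range] at hj
      rw [vonMangoldt_apply_pow (Nat.succ_ne_zero _), vonMangoldt_apply_prime hp,
        Nat.pow_div (by omega) hp.pos]
      ring
    rw [Finset.sum_congr rfl e1, ← Finset.mul_sum]
    have hN := m2_newton (f p) (e p) (fun k => f (p ^ k)) (ts (f p) (e p)) (by simpa using h1)
      (by simp) (hrec p hp) rfl rfl (fun k => rfl) k
    have e2 : ∑ j ∈ range k, c (p ^ (j + 1)) * f (p ^ (k - (j + 1))) = k * f (p ^ k) := by
      rw [hN]
      apply Finset.sum_congr rfl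
      intro j _
      rw [hc p hp]
    rw [e2]
    push_cast
    ring
  | coprime a b ha' hb' hab ha hb =>
    have ha0 : a ≠ 0 := by omega
    have hb0 : b ≠ 0 := by omega
    have ha1 := ha ha0
    have hb1 := hb hb0
    have hfil : ∀ m : ℕ, ∑ d ∈ m.divisors, ((vonMangoldt d : ℝ) : ℂ) * c d * f (m / d) =
        ∑ d ∈ m.divisors with IsPrimePow d, ((vonMangoldt d : ℝ) : ℂ) * c d * f (m / d) := by
      intro m
      rw [Finset.sum_filter]
      apply Finset.sum_congr rfl
      intro d _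
      split_ifs with hd
      · rfl
      · rw [vonMangoldt_eq_zero_iff.2 hd, Complex.ofReal_zero]
        ring
    rw [hfil] at ha1 hb1
    rw [hfil, Nat.mul_divisors_filter_prime_pow hab, Finset.filter_union,
      Finset.sum_union (Nat.disjoint_divisors_filter_isPrimePow hab)]
    have e1 : ∑ d ∈ a.divisors with IsPrimePow d, ((vonMangoldt d : ℝ) : ℂ) * c d *
        f (a * b / d) =
        f b * ∑ d ∈ a.divisors with IsPrimePow d, ((vonMangoldt d : ℝ) : ℂ) * c d *
          f (a / d) := by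
      rw [Finset.mul_sum]
      apply Finset.sum_congr rfl
      intro d hd
      have hda : d ∣ a := Nat.dvd_of_mem_divisors (Finset.mem_filter.1 hd).1
      rw [← Nat.div_mul_right_comm hda, hmul _ _ (Nat.Coprime.coprime_div_left hab hda)]
      ring
    have e2 : ∑ d ∈ b.divisors with IsPrimePow d, ((vonMangoldt d : ℝ) : ℂ) * c d *
        f (a * b / d) =
        f a * ∑ d ∈ b.divisors with IsPrimePow d, ((vonMangoldt d : ℝ) : ℂ) * c d *
          f (b / d) := by
      rw [Finset.mul_sum]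
      apply Finset.sum_congr rfl
      intro d hd
      have hdb : d ∣ b := Nat.dvd_of_mem_divisors (Finset.mem_filter.1 hd).1
      rw [Nat.mul_div_assoc _ hdb, hmul _ _ (Nat.Coprime.coprime_div_right hab hdb)]
      ring
    rw [e1, e2, ← ha1, ← hb1, hmul _ _ hab, Nat.cast_mul,
      Real.log_mul (by exact_mod_cast ha0) (by exact_mod_cast hb0)]
    push_cast
    ring

end Pool.Agent.H304R3.HK
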