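import Pool.Agent.H304R3.HK.Defs
import Pool.Agent.H304R2.EC.Mult
import Pool.Agent.H304R3.HK.BbSh
import Pool.Agent.H304R3.HK.GenLog

set_option autoImplicit false

/-!
TEAM Q3, task M3 (helper497): the arithmetic hypothesis `Lg` for `bb h`.
-/

open Finset

namespace Pool.Agent.H304R3.HK

open Pool.Agent.H304R3.HK
open Pool.Agent.H304R2.EC (PS Sh Sh_one Sh_mul Sh_inert Sh_split PS_split)

namespace M3

/-- statements of M1 and M2 -/
structure In (h : GaussianInt →* ℂ) : Prop where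
  z0 : bb h 0 = 0
  two : ∀ k m : ℕ, m % 2 = 1 → bb h (2 ^ k * m) = (h ⟨1, 1⟩) ^ k * Sh h m

theorem h_neg {h : GaussianInt →* ℂ} (hh : UH h) (x : GaussianInt) : h (-x) = h x := by
  have e : (-x : GaussianInt) = (⟨0, 1⟩ : GaussianInt) * ⟨0, 1⟩ * x := by
    ext <;> simp
  rw [e, map_mul, map_mul, hh.hi, one_mul, one_mul]

variable {h : GaussianInt →* ℂ}

theorem b_odd (I : In h) (m : ℕ) (hm : m % 2 = 1) : bb h m = Sh h m := by
  have := I.two 0 m hm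
  rwa [pow_zero, pow_zero, one_mul, one_mul] at this

theorem b_two (I : In h) (k : ℕ) : bb h (2 ^ k) = (h ⟨1, 1⟩) ^ k := by
  have := I.two k 1 (by norm_num)
  rwa [mul_one, Sh_one, mul_one] at this

theorem b_one (I : In h) : bb h 1 = 1 := by
  have := b_two I 0
  rwa [pow_zero, pow_zero] at this

theorem b_mul (I : In h) (m n : ℕ) (hmn : Nat.Coprime m n) :
    bb h (m * n) = bb h m * bb h n := by
  rcases Nat.eq_zero_or_pos m with rfl | hm
  · rw [zero_mul, I.z0, zero_mul]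
  rcases Nat.eq_zero_or_pos n with rfl | hn
  · rw [mul_zero, I.z0, mul_zero]
  obtain ⟨i, m1, hm1, rfl⟩ := Nat.exists_eq_two_pow_mul_odd hm.ne'
  obtain ⟨j, n1, hn1, rfl⟩ := Nat.exists_eq_two_pow_mul_odd hn.ne'
  have hc : Nat.Coprime m1 n1 := by
    exact (hmn.coprime_mul_left).coprime_mul_left_right
  have hm2 : m1 % 2 = 1 := Nat.odd_iff.1 hm1
  have hn2 : n1 % 2 = 1 := Nat.odd_iff.1 hn1
  have e : 2 ^ i * m1 * (2 ^ j * n1) = 2 ^ (i + j) * (m1 * n1) := by ring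
  rw [e, I.two _ _ (Nat.odd_iff.1 (hm1.mul hn1)), I.two _ _ hm2, I.two _ _ hn2, Sh_mul h m1 n1 hc]
  ring

theorem odd_pow {p : ℕ} (hp : p % 2 = 1) (k : ℕ) : p ^ k % 2 = 1 :=
  Nat.odd_iff.1 ((Nat.odd_iff.2 hp).pow)

theorem b_pow (I : In h) (p : ℕ) (hp : p % 2 = 1) (k : ℕ) : bb h (p ^ k) = Sh h (p ^ k) :=
  b_odd I _ (odd_pow hp k)

theorem p_cases {p : ℕ} (hp : p.Prime) : p = 2 ∨ (p % 2 = 1 ∧ p % 4 = 3) ∨
    (p % 2 = 1 ∧ p % 4 = 1) := by
  rcases hp.eq_two_or_odd with h | h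
  · exact Or.inl h
  · omega

theorem b_rec (hh : UH h) (I : In h) (p : ℕ) (hp : p.Prime) (k : ℕ) :
    bb h (p ^ (k + 2)) = bb h p * bb h (p ^ (k + 1)) - ee h p * bb h (p ^ k) := by
  rcases p_cases hp with rfl | ⟨ho, h3⟩ | ⟨ho, h1⟩
  · have e1 : bb h 2 = h ⟨1, 1⟩ := by
      have := b_two I 1
      rwa [pow_one, pow_one] at this
    rw [b_two I, b_two I, b_two I, e1]
    unfold ee
    rw [if_pos rfl]
    ring
  · have hp2 : p ≠ 2 := by rintro rfl; norm_num at ho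
    rw [b_pow I p ho, b_pow I p ho, b_pow I p ho, b_odd I p ho]
    obtain ⟨e1, e2⟩ := Sh_inert h p hp h3 k
    rw [e1, e2, h_neg hh]
    unfold ee
    rw [if_neg hp2, if_pos h3]
    ring
  · have hp2 : p ≠ 2 := by rintro rfl; norm_num at ho
    rw [b_pow I p ho, b_pow I p ho, b_pow I p ho, b_odd I p ho, Sh_split h p hp h1 k]
    unfold ee
    rw [if_neg hp2, if_neg (by omega)]

theorem roots (hh : UH h) (I : In h) (p : ℕ) (hp : p.Prime) :
    ∃ u v : ℂ, ‖u‖ ≤ 1 ∧ ‖v‖ ≤ 1 ∧ u + v = bb h p ∧ u * v = ee h p := by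
  rcases p_cases hp with rfl | ⟨ho, h3⟩ | ⟨ho, h1⟩
  · have e1 : bb h 2 = h ⟨1, 1⟩ := by
      have := b_two I 1
      rwa [pow_one, pow_one] at this
    refine ⟨h ⟨1, 1⟩, 0, hh.hb _, by simp, ?_, ?_⟩
    · rw [e1, add_zero]
    · unfold ee
      rw [if_pos rfl, mul_zero]
  · have hp2 : p ≠ 2 := by rintro rfl; norm_num at ho
    obtain ⟨w, hw⟩ := IsAlgClosed.exists_pow_nat_eq (h (p : GaussianInt)) (n := 2) (by norm_num)
    have hwn : ‖w‖ ≤ 1 := by
      have h1 : ‖w‖ ^ 2 ≤ 1 := by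
        rw [← norm_pow, hw]
        exact hh.hb _
      exact (pow_le_one_iff_of_nonneg (norm_nonneg _) (by norm_num)).1 h1
    refine ⟨w, -w, hwn, by rwa [norm_neg], ?_, ?_⟩
    · rw [b_odd I p ho, (Sh_inert h p hp h3 0).1]
      ring
    · unfold ee
      rw [if_neg hp2, if_pos h3, ← hw]
      ring
  · have hp2 : p ≠ 2 := by rintro rfl; norm_num at ho
    obtain ⟨a, b, hb0, hb, hab, hn, hPS⟩ := PS_split p hp h1
    refine ⟨h ⟨a, b⟩, h ⟨a, -b⟩, hh.hb _, hh.hb _, ?_, ?_⟩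
    · rw [b_odd I p ho]
      unfold Sh
      rw [hPS, Finset.sum_pair]
      intro heq
      rw [Prod.mk.injEq] at heq
      omega
    · unfold ee
      rw [if_neg hp2, if_neg (by omega), ← map_mul]
      congr 1
      ext
      · rw [Zsqrtd.re_mul]
        simp only [Zsqrtd.re_natCast]
        rw [← hn]
        ring
      · rw [Zsqrtd.im_mul]
        simp only [Zsqrtd.im_natCast]
        ring

theorem c_pow (p : ℕ) (hp : p.Prime) (k : ℕ) :
    ccf h (p ^ (k + 1)) = ts (bb h p) (ee h p) (k + 1) := by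
  have h1 : IsPrimePow (p ^ (k + 1)) := hp.isPrimePow.pow (Nat.succ_ne_zero k)
  have h2 : (p ^ (k + 1)).minFac = p := hp.pow_minFac (Nat.succ_ne_zero k)
  unfold ccf
  rw [if_pos h1, h2, hp.factorization_pow, Finsupp.single_eq_same]

end M3

open M3

/-- `lg_bb` with the statements of M1 and M2 as hypotheses -/
theorem lg_bb_of
    (bb_zero : ∀ h : GaussianInt → ℂ, h 0 = 0 → bb h 0 = 0)
    (bb_two_odd : ∀ h : GaussianInt →* ℂ, h ⟨0, 1⟩ = 1 → ∀ k m : ℕ, m % 2 = 1 →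
      bb h (2 ^ k * m) = (h ⟨1, 1⟩) ^ k * Sh h m)
    (ts_bound : ∀ u v : ℂ, ‖u‖ ≤ 1 → ‖v‖ ≤ 1 → ∀ k : ℕ, ‖ts (u + v) (u * v) k‖ ≤ 2)
    (f_bound : ∀ u v : ℂ, ‖u‖ ≤ 1 → ‖v‖ ≤ 1 → ∀ F : ℕ → ℂ, F 0 = 1 → F 1 = u + v →
      (∀ k, F (k + 2) = (u + v) * F (k + 1) - u * v * F k) → ∀ k : ℕ, ‖F k‖ ≤ k + 1)
    (gen_log : ∀ (f : ℕ → ℂ) (e : ℕ → ℂ) (c : ℕ → ℂ), f 1 = 1 →
      (∀ m n, Nat.Coprime m n → f (m * n) = f m * f n) →
      (∀ p, p.Prime → ∀ k, f (p ^ (k + 2)) = f p * f (p ^ (k + 1)) - e p * f (p ^ k)) →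
      (∀ p, p.Prime → ∀ k, c (p ^ (k + 1)) = ts (f p) (e p) (k + 1)) → ∀ n : ℕ, n ≠ 0 →
      f n * (Real.log n : ℂ) =
        ∑ d ∈ n.divisors, (ArithmeticFunction.vonMangoldt d : ℂ) * c d * f (n / d))
    (h : GaussianInt →* ℂ) (hh : UH h) : Lg (bb h) (ccf h) := by
  have I : In h := ⟨bb_zero h hh.h0, fun k m hm => bb_two_odd h hh.hi k m hm⟩
  have hpow : ∀ p : ℕ, p.Prime → ∀ k : ℕ, ‖bb h (p ^ k)‖ ≤ k + 1 := by
    intro p hp k
    obtain ⟨u, v, hu, hv, hs, he⟩ := roots hh I p hp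
    refine f_bound u v hu hv (fun k => bb h (p ^ k)) ?_ ?_ ?_ k
    · rw [pow_zero]; exact b_one I
    · rw [pow_one, hs]
    · intro k
      rw [hs, he]
      exact b_rec hh I p hp k
  refine ⟨I.z0, b_one I, ?_, ?_, ?_⟩
  · intro n
    induction n using Nat.recOnPosPrimePosCoprime with
    | prime_pow p k hp hk =>
      rw [Nat.divisors_prime_pow hp, Finset.card_map, Finset.card_range]
      push_cast
      exact hpow p hp k
    | zero => rw [I.z0]; simp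
    | one => rw [b_one I]; simp
    | coprime a b ha hb hab iha ihb =>
      rw [b_mul I a b hab, norm_mul, Nat.Coprime.card_divisors_mul hab]
      push_cast
      exact mul_le_mul iha ihb (norm_nonneg _) (Nat.cast_nonneg _)
  · intro n
    unfold ccf
    split_ifs with hn
    · have hn1 : n ≠ 1 := hn.ne_one
      obtain ⟨u, v, hu, hv, hs, he⟩ := roots hh I n.minFac (Nat.minFac_prime hn1)
      rw [← hs, ← he]
      exact ts_bound u v hu hv _
    · rw [norm_zero]; norm_num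
  · intro n hn
    exact gen_log (bb h) (ee h) (ccf h) (b_one I) (b_mul I) (b_rec hh I) (fun p hp k => c_pow p hp k)
      n hn

theorem lg_bb (h : GaussianInt →* ℂ) (hh : UH h) : Lg (bb h) (ccf h) :=
  lg_bb_of (fun h h0 => bb_zero h h0) (fun h hi k m hm => bb_two_odd h hi k m hm)
    (fun u v hu hv k => ts_bound u v hu hv k)
    (fun u v hu hv F hF0 hF1 hF k => f_bound u v hu hv F hF0 hF1 hF k)
    (fun f e c h1 hmul hrec hc n hn => gen_log f e c h1 hmul hrec hc n hn) h hh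

end Pool.Agent.H304R3.HK
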