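import Pool.Agent.H304R3.HK.Defs

set_option autoImplicit false

/-! TEAM Q3, task L4 (helper169; adapted from EC/LogDer of helper332): `F = exp G` on `Re s > 1`,
logarithmic derivative. -/

open Complex Filter Topology LSeries

namespace Pool.Agent.H304R3.HK

namespace LogDerH

/-- the coefficients of `- F'/F` -/
noncomputable def bco (c : ℕ → ℂ) (n : ℕ) : ℂ :=
  (ArithmeticFunction.vonMangoldt n : ℂ) * c n

/-- the coefficients of `log F` -/
noncomputable def lco (c : ℕ → ℂ) (n : ℕ) : ℂ := bco c n / (Real.log n : ℂ)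

theorem term_b (b : ℕ → ℂ) (b0 : b 0 = 0) (s : ℂ) (n : ℕ) :
    LSeries.term b s n = b n * (n : ℂ) ^ (-s) := by
  rcases eq_or_ne n 0 with rfl | hn
  · rw [LSeries.term_zero, b0, zero_mul]
  · rw [LSeries.term_of_ne_zero hn, div_eq_mul_inv, ← Complex.cpow_neg]

section
variable (b c : ℕ → ℂ) (H : Lg b c) (F : ℂ → ℂ)
    (hF : ∀ s : ℂ, 1 < s.re → HasSum (fun n : ℕ => b n * (n : ℂ) ^ (-s)) (F s))
include H hF

theorem gco_hasSum (s : ℂ) (hs : 1 < s.re) : HasSum (LSeries.term b s) (F s) := by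
  have h2 : LSeries.term b s = fun n : ℕ => b n * (n : ℂ) ^ (-s) :=
    funext fun n => term_b b H.b0 s n
  rw [h2]
  exact hF s hs

theorem gco_eq (s : ℂ) (hs : 1 < s.re) : LSeries b s = F s :=
  (gco_hasSum b c H F hF s hs).tsum_eq

theorem gco_summable (s : ℂ) (hs : 1 < s.re) : LSeriesSummable b s :=
  (gco_hasSum b c H F hF s hs).summable

theorem absc_gco : abscissaOfAbsConv b ≤ 1 := by
  have h := LSeries.abscissaOfAbsConv_le_of_forall_lt_LSeriesSummable (f := b) (x := 1)
    (fun y hy => gco_summable b c H F hF y (by simpa using hy))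
  simpa using h
end

section
variable (b c : ℕ → ℂ) (H : Lg b c)
include H

theorem bco_norm_le (n : ℕ) : ‖bco c n‖ ≤ 2 * ArithmeticFunction.vonMangoldt n := by
  rw [bco, norm_mul, Complex.norm_real, Real.norm_eq_abs,
    abs_of_nonneg ArithmeticFunction.vonMangoldt_nonneg, mul_comm]
  exact mul_le_mul_of_nonneg_right (H.cd n) ArithmeticFunction.vonMangoldt_nonneg

theorem lco_norm_le (n : ℕ) :
    ‖lco c n‖ ≤ (2 / Real.log 2) * ArithmeticFunction.vonMangoldt n := by
  have hlog2 : 0 < Real.log 2 := Real.log_pos (by norm_num)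
  have h3 : (0 : ℝ) ≤ ArithmeticFunction.vonMangoldt n := ArithmeticFunction.vonMangoldt_nonneg
  rw [lco, norm_div, Complex.norm_real, Real.norm_eq_abs]
  rcases Nat.lt_or_ge n 2 with hn | hn
  · have : (Real.log n) = 0 := by
      interval_cases n <;> simp
    rw [this, abs_zero, div_zero]
    positivity
  · have hl : Real.log 2 ≤ Real.log n := Real.log_le_log (by norm_num) (by exact_mod_cast hn)
    rw [abs_of_pos (lt_of_lt_of_le hlog2 hl)]
    calc ‖bco c n‖ / Real.log n ≤ (2 * ArithmeticFunction.vonMangoldt n) / Real.log n :=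
          div_le_div_of_nonneg_right (bco_norm_le b c H n) (by linarith)
      _ ≤ (2 * ArithmeticFunction.vonMangoldt n) / Real.log 2 :=
          div_le_div_of_nonneg_left (by positivity) hlog2 hl
      _ = _ := by ring
end

theorem summable_of_le (f : ℕ → ℂ) (C : ℝ)
    (hf : ∀ n, ‖f n‖ ≤ C * ArithmeticFunction.vonMangoldt n) (s : ℂ) (hs : 1 < s.re) :
    LSeriesSummable f s := by
  have h := (ArithmeticFunction.LSeriesSummable_vonMangoldt hs)
  refine Summable.of_norm_bounded (g := fun n => C * ‖LSeries.term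
    (fun n => ((ArithmeticFunction.vonMangoldt n : ℝ) : ℂ)) s n‖) ((h.norm).mul_left C) ?_
  intro n
  rcases eq_or_ne n 0 with rfl | hn
  · simp
  · rw [LSeries.term_of_ne_zero hn, LSeries.term_of_ne_zero hn, norm_div, norm_div,
      Complex.norm_real, Real.norm_eq_abs, abs_of_nonneg ArithmeticFunction.vonMangoldt_nonneg,
      ← mul_div_assoc]
    exact div_le_div_of_nonneg_right (hf n) (norm_nonneg _)

theorem logMul_lco (c : ℕ → ℂ) (n : ℕ) : logMul (lco c) n = bco c n := by
  unfold logMul lco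
  rw [← Complex.natCast_log]
  rcases Nat.lt_or_ge n 2 with hn | hn
  · have h1 : (Real.log n) = 0 := by
      interval_cases n <;> simp
    have h2 : (ArithmeticFunction.vonMangoldt n) = 0 := by
      interval_cases n <;> simp
    rw [h1, bco, h2]
    simp
  · have hl : (Real.log n) ≠ 0 := by
      have : 0 < Real.log n := Real.log_pos (by exact_mod_cast hn)
      exact this.ne'
    have hl' : (Real.log n : ℂ) ≠ 0 := by exact_mod_cast hl
    field_simp

section
variable (b c : ℕ → ℂ) (H : Lg b c)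
include H

theorem bco_summable (s : ℂ) (hs : 1 < s.re) : LSeriesSummable (bco c) s :=
  summable_of_le _ _ (bco_norm_le b c H) s hs

theorem lco_summable (s : ℂ) (hs : 1 < s.re) : LSeriesSummable (lco c) s :=
  summable_of_le _ _ (lco_norm_le b c H) s hs

theorem absc_lco : abscissaOfAbsConv (lco c) ≤ 1 := by
  have h := LSeries.abscissaOfAbsConv_le_of_forall_lt_LSeriesSummable (f := lco c) (x := 1)
    (fun y hy => lco_summable b c H y (by simpa using hy))
  simpa using h

theorem logMul_gco (n : ℕ) (hn : n ≠ 0) :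
    logMul b n = LSeries.convolution (bco c) b n := by
  rw [LSeries.convolution_def]
  beta_reduce
  rw [Nat.sum_divisorsAntidiagonal (f := fun x y => bco c x * b y)]
  unfold logMul
  rw [← Complex.natCast_log, mul_comm, H.lg n hn]
  rfl

theorem hasDeriv_lco (s : ℂ) (hs : 1 < s.re) :
    HasDerivAt (LSeries (lco c)) (-LSeries (bco c) s) s := by
  have habs : abscissaOfAbsConv (lco c) < s.re :=
    lt_of_le_of_lt (absc_lco b c H) (by exact_mod_cast hs)
  have h := LSeries_hasDerivAt habs
  have h1 : LSeries (logMul (lco c)) s = LSeries (bco c) s :=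
    LSeries_congr (fun {n} _ => logMul_lco c n) s
  rwa [h1] at h
end

section
variable (b c : ℕ → ℂ) (H : Lg b c) (F : ℂ → ℂ)
    (hF : ∀ s : ℂ, 1 < s.re → HasSum (fun n : ℕ => b n * (n : ℂ) ^ (-s)) (F s))
include H hF

theorem hasDeriv (s : ℂ) (hs : 1 < s.re) :
    HasDerivAt F (-(LSeries (bco c) s * F s)) s := by
  have habs : abscissaOfAbsConv b < s.re :=
    lt_of_le_of_lt (absc_gco b c H F hF) (by exact_mod_cast hs)
  have h := LSeries_hasDerivAt habs
  have h1 : LSeries (logMul b) s = LSeries (bco c) s * F s := by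
    rw [← gco_eq b c H F hF s hs,
      ← LSeries_convolution' (bco_summable b c H s hs) (gco_summable b c H F hF s hs)]
    exact LSeries_congr (fun {n} hn => logMul_gco b c H n hn) s
  rw [h1] at h
  refine h.congr_of_eventuallyEq ?_
  have hU : IsOpen {z : ℂ | 1 < z.re} := isOpen_lt continuous_const continuous_re
  filter_upwards [hU.mem_nhds hs] with z hz
  exact (gco_eq b c H F hF z hz).symm

theorem F_exp (s : ℂ) (hs : 1 < s.re) :
    F s = Complex.exp (LSeries (lco c) s) := by
  set U : Set ℂ := {z : ℂ | 1 < z.re} with hUdef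
  have hU : IsOpen U := isOpen_lt continuous_const continuous_re
  have hUc : IsPreconnected U := (convex_halfSpace_re_gt 1).isPreconnected
  set G : ℂ → ℂ := fun z => F z * Complex.exp (-LSeries (lco c) z) with hG
  have hGd : ∀ z ∈ U, HasDerivAt G 0 z := by
    intro z hz
    have h1 := hasDeriv b c H F hF z hz
    have h2 := ((hasDeriv_lco b c H z hz).neg).cexp
    have h3 := h1.mul h2
    refine h3.congr_deriv ?_
    simp only [Pi.neg_apply]
    ring
  have hconst : ∀ z ∈ U, G z = G s := fun z hz =>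
    hU.is_const_of_deriv_eq_zero hUc
      (fun w hw => (hGd w hw).differentiableAt.differentiableWithinAt)
      (fun w hw => (hGd w hw).deriv) hz hs
  have hlim1 : Tendsto (fun x : ℝ => F x) atTop (𝓝 1) := by
    have h := LSeries.tendsto_atTop (f := b)
      (lt_of_le_of_lt (absc_gco b c H F hF) (by exact EReal.coe_lt_top 1))
    rw [H.b1] at h
    refine h.congr' ?_
    filter_upwards [eventually_gt_atTop (1 : ℝ)] with x hx
    exact gco_eq b c H F hF x (by simpa using hx)
  have hlim2 : Tendsto (fun x : ℝ => LSeries (lco c) x) atTop (𝓝 0) := by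
    have h := LSeries.tendsto_atTop (f := lco c)
      (lt_of_le_of_lt (absc_lco b c H) (by exact EReal.coe_lt_top 1))
    have h0 : lco c 1 = 0 := by simp [lco]
    rwa [h0] at h
  have hlim : Tendsto (fun x : ℝ => G x) atTop (𝓝 (1 * Complex.exp (-0))) :=
    hlim1.mul (hlim2.neg.cexp)
  have hlim' : Tendsto (fun x : ℝ => G x) atTop (𝓝 (G s)) := by
    refine tendsto_const_nhds.congr' ?_
    filter_upwards [eventually_gt_atTop (1 : ℝ)] with x hx
    exact (hconst x (by simpa [hUdef] using hx)).symm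
  have hGs : G s = 1 := by
    have := tendsto_nhds_unique hlim' hlim
    simpa using this
  have : F s * Complex.exp (-LSeries (lco c) s) = 1 := hGs
  rw [Complex.exp_neg] at this
  have hne := Complex.exp_ne_zero (LSeries (lco c) s)
  field_simp at this
  exact this
end

end LogDerH

open LogDerH

theorem F_ne_zero (b c : ℕ → ℂ) (H : Lg b c) (F : ℂ → ℂ)
    (hF : ∀ s : ℂ, 1 < s.re → HasSum (fun n : ℕ => b n * (n : ℂ) ^ (-s)) (F s))
    (s : ℂ) (hs : 1 < s.re) : F s ≠ 0 := by
  rw [F_exp b c H F hF s hs]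
  exact Complex.exp_ne_zero _

theorem F_ld (b c : ℕ → ℂ) (H : Lg b c) (F : ℂ → ℂ)
    (hF : ∀ s : ℂ, 1 < s.re → HasSum (fun n : ℕ => b n * (n : ℂ) ^ (-s)) (F s))
    (s : ℂ) (hs : 1 < s.re) :
    deriv F s / F s = - ∑' n : ℕ, ((ArithmeticFunction.vonMangoldt n : ℂ) * c n) * (n : ℂ) ^ (-s) := by
  rw [(hasDeriv b c H F hF s hs).deriv]
  have hne := F_ne_zero b c H F hF s hs
  rw [neg_div, mul_div_cancel_right₀ _ hne]
  congr 1
  unfold LSeries
  refine tsum_congr fun n => ?_
  rw [term_b (bco c) (by simp [bco]) s n, bco]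

theorem F_lower : ∃ c₀ : ℝ, 0 < c₀ ∧ ∀ (b c : ℕ → ℂ) (F : ℂ → ℂ), Lg b c →
    (∀ s : ℂ, 1 < s.re → HasSum (fun n : ℕ => b n * (n : ℂ) ^ (-s)) (F s)) →
    ∀ t : ℝ, c₀ ≤ ‖F (⟨2, t⟩ : ℂ)‖ := by
  set S : ℝ := ∑' n : ℕ, (2 / Real.log 2) * ‖LSeries.term
    (fun n => ((ArithmeticFunction.vonMangoldt n : ℝ) : ℂ)) (2 : ℂ) n‖ with hS
  refine ⟨Real.exp (-S), Real.exp_pos _, ?_⟩
  intro b c F H hF t
  have hs : 1 < (⟨2, t⟩ : ℂ).re := by norm_num
  rw [F_exp b c H F hF _ hs, Complex.norm_exp, Real.exp_le_exp]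
  have hsum := lco_summable b c H (⟨2, t⟩ : ℂ) hs
  have hbound : ‖LSeries (lco c) (⟨2, t⟩ : ℂ)‖ ≤ S := by
    have hsm : Summable fun n : ℕ => (2 / Real.log 2) * ‖LSeries.term
      (fun n => ((ArithmeticFunction.vonMangoldt n : ℝ) : ℂ)) (2 : ℂ) n‖ :=
      ((ArithmeticFunction.LSeriesSummable_vonMangoldt
        (s := 2) (by norm_num)).norm).mul_left _
    refine tsum_of_norm_bounded hsm.hasSum ?_
    intro n
    rcases eq_or_ne n 0 with rfl | hn
    · simp
    · have hnpos : (0 : ℝ) < n := by exact_mod_cast Nat.pos_of_ne_zero hn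
      rw [LSeries.term_of_ne_zero hn, LSeries.term_of_ne_zero hn, norm_div, norm_div,
        Complex.norm_real, Real.norm_eq_abs, abs_of_nonneg ArithmeticFunction.vonMangoldt_nonneg,
        Complex.norm_natCast_cpow_of_pos (Nat.pos_of_ne_zero hn),
        Complex.norm_natCast_cpow_of_pos (Nat.pos_of_ne_zero hn), ← mul_div_assoc]
      exact div_le_div_of_nonneg_right (lco_norm_le b c H n) (by positivity)
  have := Complex.abs_re_le_norm (LSeries (lco c) (⟨2, t⟩ : ℂ))
  have h2 := neg_abs_le (LSeries (lco c) (⟨2, t⟩ : ℂ)).re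
  linarith

end Pool.Agent.H304R3.HK
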