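import Pool.Agent.H304R3.HK.Defs
import Pool.Agent.H304R2.EC.NZR

set_option autoImplicit false

/-!
TEAM Q3, task L5 (helper666): no zeros on `Re s = 1`, from the statements of M3, M4, L4.
-/

open Finset Filter Topology Complex
open ArithmeticFunction (vonMangoldt)
open ArithmeticFunction.vonMangoldt

namespace Pool.Agent.H304R3.HK

open Pool.Agent.H304R2.EC (tendsto_logDeriv summable_vM limS1 summable_term LSeries_eq_tsum)

theorem nzr_LamK_nonneg (a : GaussianInt) : 0 ≤ LamK a := by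
  unfold LamK
  split_ifs with h
  · have h0 : 0 ≤ Zsqrtd.norm h.choose := GaussianInt.norm_nonneg _
    rcases h0.eq_or_lt with h1 | h1
    · rw [← h1]; simp
    · apply Real.log_nonneg
      exact_mod_cast h1
  · exact le_rfl

/-- the even part of the von Mangoldt function -/
noncomputable def nzr_e (n : ℕ) : ℝ := if Even n then vonMangoldt n else 0

theorem nzr_e_nonneg (n : ℕ) : 0 ≤ nzr_e n := by
  unfold nzr_e
  split_ifs
  · exact ArithmeticFunction.vonMangoldt_nonneg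
  · exact le_rfl

theorem nzr_e_le (n : ℕ) : nzr_e n ≤ vonMangoldt n := by
  unfold nzr_e
  split_ifs
  · exact le_rfl
  · exact ArithmeticFunction.vonMangoldt_nonneg

theorem nzr_e_summable : Summable (fun n : ℕ => nzr_e n * (n : ℝ)⁻¹) := by
  have hinj : Function.Injective (fun k : ℕ => 2 ^ (k + 1)) := by
    intro a b h
    have := Nat.pow_right_injective (le_refl 2) h
    omega
  rw [← hinj.summable_iff]
  · have h2 : ((fun n : ℕ => nzr_e n * (n : ℝ)⁻¹) ∘ fun k : ℕ => 2 ^ (k + 1)) =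
        fun k : ℕ => (Real.log 2 * (1 / 2)) * (1 / 2 : ℝ) ^ k := by
      funext k
      simp only [Function.comp_apply]
      unfold nzr_e
      rw [if_pos (by rw [pow_succ]; exact (even_two.mul_left _)),
        ArithmeticFunction.vonMangoldt_apply_pow (Nat.succ_ne_zero k),
        ArithmeticFunction.vonMangoldt_apply_prime Nat.prime_two]
      push_cast
      rw [one_div, inv_pow, pow_succ, mul_inv]
      ring
    rw [h2]
    exact (summable_geometric_of_lt_one (by norm_num) (by norm_num)).mul_left _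
  · intro n hn
    unfold nzr_e
    split_ifs with he
    · have hz : vonMangoldt n = 0 := by
        rw [ArithmeticFunction.vonMangoldt_eq_zero_iff]
        intro hpp
        apply hn
        obtain ⟨p, k, hp, hk, hpk⟩ := hpp
        have hp' : p.Prime := hp.nat_prime
        have hdvd : 2 ∣ p ^ k := by rw [hpk]; exact he.two_dvd
        have h2p : 2 ∣ p := Nat.prime_two.dvd_of_dvd_pow hdvd
        have : p = 2 := ((Nat.prime_dvd_prime_iff_eq Nat.prime_two hp').mp h2p).symm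
        refine ⟨k - 1, ?_⟩
        simp only
        rw [← hpk, this]
        congr 1
        omega
      rw [hz, zero_mul]
    · rw [zero_mul]

theorem nzr_coef (n : ℕ) : vonMangoldt n * (1 + ((ZMod.χ₄ (n : ZMod 4) : ℤ) : ℝ)) =
    2 * residueClass (1 : ZMod 4) n + nzr_e n := by
  unfold residueClass nzr_e
  rcases Nat.even_or_odd n with he | ho
  · have h0 : (ZMod.χ₄ (n : ZMod 4)) = 0 := by
      rw [ZMod.χ₄_nat_eq_if_mod_four, if_pos (Nat.even_iff.mp he)]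
    have h1 : (n : ZMod 4) ≠ 1 := by
      intro h
      have : ((n : ℕ) : ZMod 4) = ((1 : ℕ) : ZMod 4) := by simpa using h
      rw [ZMod.natCast_eq_natCast_iff] at this
      have h3 : n % 4 = 1 % 4 := this
      have := Nat.even_iff.mp he
      omega
    rw [h0, if_pos he]
    simp [Set.indicator_apply, h1]
  · have hne : ¬ Even n := Nat.not_even_iff_odd.mpr ho
    have hodd : n % 2 = 1 := Nat.odd_iff.mp ho
    rw [if_neg hne]
    by_cases h4 : n % 4 = 1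
    · have h1 : (n : ZMod 4) = 1 := by
        have : ((n : ℕ) : ZMod 4) = ((1 : ℕ) : ZMod 4) := by
          rw [ZMod.natCast_eq_natCast_iff]; exact h4
        simpa using this
      have hc : (ZMod.χ₄ (n : ZMod 4)) = 1 := by
        rw [ZMod.χ₄_nat_eq_if_mod_four, if_neg (by omega), if_pos h4]
      rw [hc]
      simp [Set.indicator_apply, h1]
      ring
    · have h1 : (n : ZMod 4) ≠ 1 := by
        intro h
        have : ((n : ℕ) : ZMod 4) = ((1 : ℕ) : ZMod 4) := by simpa using h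
        rw [ZMod.natCast_eq_natCast_iff] at this
        exact h4 this
      have hc : (ZMod.χ₄ (n : ZMod 4)) = -1 := by
        rw [ZMod.χ₄_nat_eq_if_mod_four, if_neg (by omega), if_neg h4]
      rw [hc]
      simp [Set.indicator_apply, h1]

theorem nzr_chi_bound (n : ℕ) : |(1 + ((ZMod.χ₄ (n : ZMod 4) : ℤ) : ℝ))| ≤ 2 := by
  have h : (ZMod.χ₄ (n : ZMod 4) : ℤ) = 0 ∨ (ZMod.χ₄ (n : ZMod 4) : ℤ) = 1 ∨
      (ZMod.χ₄ (n : ZMod 4) : ℤ) = -1 := by
    rw [ZMod.χ₄_nat_eq_if_mod_four]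
    split_ifs <;> simp
  rcases h with h | h | h <;> rw [h] <;> norm_num

/-- the residue one of the logarithmic derivative of the zeta function of `ℚ(i)` -/
theorem nzr_limA : Tendsto (fun σ : ℝ => (σ : ℂ) *
    ∑' n : ℕ, ((vonMangoldt n * (1 + ((ZMod.χ₄ (n : ZMod 4) : ℤ) : ℝ)) : ℝ) : ℂ) *
      (n : ℂ) ^ (-(1 + σ : ℂ))) (𝓝[>] 0) (𝓝 1) := by
  set C : ℝ := ∑' n : ℕ, nzr_e n * (n : ℝ)⁻¹ with hC
  have hb : ∀ σ : ℝ, 0 < σ → ‖∑' n : ℕ, (nzr_e n : ℂ) * (n : ℂ) ^ (-(1 + σ : ℂ))‖ ≤ C := by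
    intro σ hσ
    refine tsum_of_norm_bounded nzr_e_summable.hasSum ?_
    intro n
    rcases Nat.eq_zero_or_pos n with rfl | hn
    · simp [nzr_e]
    · rw [norm_mul, Complex.norm_real, Real.norm_of_nonneg (nzr_e_nonneg n),
        Complex.norm_natCast_cpow_of_pos hn]
      apply mul_le_mul_of_nonneg_left _ (nzr_e_nonneg n)
      have h1 : (-(1 + σ : ℂ)).re = -(1 + σ) := by simp
      rw [h1, ← Real.rpow_neg_one]
      apply Real.rpow_le_rpow_of_exponent_le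
      · exact_mod_cast hn
      · linarith
  have h0 : Tendsto (fun σ : ℝ => (σ : ℂ) *
      ∑' n : ℕ, (nzr_e n : ℂ) * (n : ℂ) ^ (-(1 + σ : ℂ))) (𝓝[>] 0) (𝓝 0) := by
    rw [tendsto_zero_iff_norm_tendsto_zero]
    have h2 : Tendsto (fun σ : ℝ => |σ| * C) (𝓝[>] 0) (𝓝 0) := by
      have h3 : Tendsto (fun σ : ℝ => |σ| * C) (𝓝 0) (𝓝 (|(0:ℝ)| * C)) :=
        (continuous_abs.mul continuous_const).tendsto 0
      simp only [abs_zero, zero_mul] at h3
      exact h3.mono_left nhdsWithin_le_nhds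
    refine tendsto_of_tendsto_of_tendsto_of_le_of_le' tendsto_const_nhds h2
      (Eventually.of_forall fun σ => norm_nonneg _) ?_
    filter_upwards [self_mem_nhdsWithin] with σ hσ
    have hσ0 : (0 : ℝ) < σ := hσ
    rw [norm_mul, Complex.norm_real, Real.norm_eq_abs]
    exact mul_le_mul_of_nonneg_left (hb σ hσ0) (abs_nonneg _)
  have hsum := (limS1.const_mul 2).add h0
  have h1 : (2 * (1 / 2) + 0 : ℂ) = 1 := by norm_num
  rw [h1] at hsum
  refine hsum.congr' ?_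
  filter_upwards [self_mem_nhdsWithin] with σ hσ
  have hσ0 : (0 : ℝ) < σ := hσ
  rw [LSeries_eq_tsum _ (by simp)]
  have sum1 : Summable (fun n : ℕ => (residueClass (1 : ZMod 4) n : ℂ) * (n : ℂ) ^ (-(1 + σ : ℂ))) := by
    refine summable_term _ 1 ?_ _ (by simp; linarith)
    intro n
    rw [Complex.norm_real, Real.norm_of_nonneg (residueClass_nonneg _ n), one_mul]
    exact residueClass_le _ n
  have sum2 : Summable (fun n : ℕ => (nzr_e n : ℂ) * (n : ℂ) ^ (-(1 + σ : ℂ))) := by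
    refine summable_term _ 1 ?_ _ (by simp; linarith)
    intro n
    rw [Complex.norm_real, Real.norm_of_nonneg (nzr_e_nonneg n), one_mul]
    exact nzr_e_le n
  have e : ∀ n : ℕ, ((vonMangoldt n * (1 + ((ZMod.χ₄ (n : ZMod 4) : ℤ) : ℝ)) : ℝ) : ℂ) *
      (n : ℂ) ^ (-(1 + σ : ℂ)) = 2 * ((residueClass (1 : ZMod 4) n : ℂ) * (n : ℂ) ^ (-(1 + σ : ℂ))) +
        (nzr_e n : ℂ) * (n : ℂ) ^ (-(1 + σ : ℂ)) := by
    intro n
    rw [nzr_coef]
    push_cast
    ring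
  simp_rw [e]
  rw [Summable.tsum_add (sum1.mul_left 2) sum2, tsum_mul_left]
  ring

theorem nzr_order (F : ℂ → ℂ) (hF : Differentiable ℂ F) (h2 : F 2 ≠ 0) (z : ℂ) :
    ∃ m : ℕ, analyticOrderAt F z = m := by
  have hord_top : analyticOrderAt F z ≠ ⊤ := by
    intro htop
    rw [analyticOrderAt_eq_top] at htop
    have han : AnalyticOnNhd ℂ F Set.univ := fun z _ => hF.analyticAt z
    have h1 := han.eq_of_eventuallyEq (g := fun _ => 0) (fun z _ => analyticAt_const) htop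
    exact h2 (congrFun h1 2)
  obtain ⟨m, hm⟩ := ENat.ne_top_iff_exists.1 hord_top
  exact ⟨m, hm.symm⟩

/-- the elementary inequality -/
theorem nzr_ineq (z : ℂ) (hz : ‖z‖ ≤ 1) : 0 ≤ (3 + 4 * z + z ^ 2).re := by
  have h1 : z.re ^ 2 + z.im ^ 2 ≤ 1 := by
    have := Complex.sq_norm z
    rw [Complex.normSq_apply] at this
    have h3 : ‖z‖ ^ 2 ≤ 1 := pow_le_one₀ (norm_nonneg _) hz
    nlinarith
  have h2 : (3 + 4 * z + z ^ 2).re = 3 + 4 * z.re + (z.re ^ 2 - z.im ^ 2) := by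
    simp [pow_two]
  rw [h2]
  nlinarith [sq_nonneg (z.re + 1)]

/-- `h ^ 2` as a homomorphism -/
noncomputable def nzr_sq (h : GaussianInt →* ℂ) : GaussianInt →* ℂ where
  toFun a := (h a) ^ 2
  map_one' := by simp
  map_mul' a b := by rw [map_mul, mul_pow]

theorem nzr_sq_UH (h : GaussianInt →* ℂ) (hh : UH h) : UH (nzr_sq h) := by
  refine ⟨?_, ?_, ?_⟩
  · show (h 0) ^ 2 = 0
    rw [hh.h0]; ring
  · intro a
    show ‖(h a) ^ 2‖ ≤ 1
    rw [norm_pow]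
    exact pow_le_one₀ (norm_nonneg _) (hh.hb a)
  · show (h ⟨0, 1⟩) ^ 2 = 1
    rw [hh.hi]; ring

theorem nz_line_of
    (lg_bb : ∀ (h : GaussianInt →* ℂ), UH h → Lg (bb h) (ccf h))
    (lam_eq : ∀ (h : GaussianInt →* ℂ), UH h → ∀ n : ℕ,
      bb (fun a => (LamK a : ℂ) * h a) n = (ArithmeticFunction.vonMangoldt n : ℂ) * ccf h n)
    (lam_one : ∀ n : ℕ, bb (fun a => (LamK a : ℂ)) n =
      ((ArithmeticFunction.vonMangoldt n * (1 + ((ZMod.χ₄ (n : ZMod 4) : ℤ) : ℝ)) : ℝ) : ℂ))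
    (F_ne_zero : ∀ (b c : ℕ → ℂ), Lg b c → ∀ (F : ℂ → ℂ),
      (∀ s : ℂ, 1 < s.re → HasSum (fun n : ℕ => b n * (n : ℂ) ^ (-s)) (F s)) →
      ∀ (s : ℂ), 1 < s.re → F s ≠ 0)
    (F_ld : ∀ (b c : ℕ → ℂ), Lg b c → ∀ (F : ℂ → ℂ),
      (∀ s : ℂ, 1 < s.re → HasSum (fun n : ℕ => b n * (n : ℂ) ^ (-s)) (F s)) →
      ∀ (s : ℂ), 1 < s.re →
      deriv F s / F s = - ∑' n : ℕ, ((ArithmeticFunction.vonMangoldt n : ℂ) * c n) * (n : ℂ) ^ (-s))
    (h : GaussianInt →* ℂ) (hh : UH h) (F G : ℂ → ℂ) (hF : Differentiable ℂ F)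
    (hG : Differentiable ℂ G)
    (sF : ∀ s : ℂ, 1 < s.re → HasSum (fun n : ℕ => bb h n * (n : ℂ) ^ (-s)) (F s))
    (sG : ∀ s : ℂ, 1 < s.re →
      HasSum (fun n : ℕ => bb (fun a => (h a) ^ 2) n * (n : ℂ) ^ (-s)) (G s))
    (t : ℝ) (_ht : t ≠ 0) : F (⟨1, t⟩ : ℂ) ≠ 0 := by
  intro h0
  set z0 : ℂ := ⟨1, t⟩ with hz0
  have hz0' : z0 = 1 + t * I := by
    rw [hz0]; apply Complex.ext <;> simp
  set z1 : ℂ := 1 + (2 * t : ℝ) * I with hz1
  have hh2 := nzr_sq_UH h hh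
  have hlg := lg_bb h hh
  have hlg2 := lg_bb (nzr_sq h) hh2
  have sG' : ∀ s : ℂ, 1 < s.re →
      HasSum (fun n : ℕ => bb (nzr_sq h) n * (n : ℂ) ^ (-s)) (G s) := sG
  obtain ⟨m, hm⟩ := nzr_order F hF (F_ne_zero _ _ hlg F sF 2 (by norm_num)) z0
  obtain ⟨m2, hm2⟩ := nzr_order G hG (F_ne_zero _ _ hlg2 G sG' 2 (by norm_num)) z1
  have hm1 : 1 ≤ m := by
    by_contra hc
    have : m = 0 := by omega
    rw [this] at hm
    have h2 := (hF.analyticAt z0).analyticOrderAt_eq_zero.1 (by rw [hm]; rfl)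
    exact h2 h0
  have hL := tendsto_logDeriv F hF z0 m hm
  have hL2 := tendsto_logDeriv G hG z1 m2 hm2
  have h1 := nzr_limA
  have hcomb := ((h1.const_mul 3).sub (hL.const_mul 4)).sub hL2
  have hre : Tendsto (fun σ : ℝ => ((3 * ((σ : ℂ) *
      ∑' n : ℕ, ((vonMangoldt n * (1 + ((ZMod.χ₄ (n : ZMod 4) : ℤ) : ℝ)) : ℝ) : ℂ) *
        (n : ℂ) ^ (-(1 + σ : ℂ))) -
      4 * (((σ : ℂ)) * (deriv F (z0 + σ) / F (z0 + σ)))) -
      (σ : ℂ) * (deriv G (z1 + σ) / G (z1 + σ))).re) (𝓝[>] 0)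
      (𝓝 ((3 * 1 - 4 * (m : ℂ) - (m2 : ℂ) : ℂ).re)) :=
    (Complex.continuous_re.tendsto _).comp hcomb
  have hpos : ∀ᶠ σ : ℝ in 𝓝[>] 0, 0 ≤ ((3 * ((σ : ℂ) *
      ∑' n : ℕ, ((vonMangoldt n * (1 + ((ZMod.χ₄ (n : ZMod 4) : ℤ) : ℝ)) : ℝ) : ℂ) *
        (n : ℂ) ^ (-(1 + σ : ℂ))) -
      4 * (((σ : ℂ)) * (deriv F (z0 + σ) / F (z0 + σ)))) -
      (σ : ℂ) * (deriv G (z1 + σ) / G (z1 + σ))).re := by
    filter_upwards [self_mem_nhdsWithin] with σ hσ
    have hσ0 : (0 : ℝ) < σ := hσ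
    have hs0 : 1 < (z0 + σ).re := by
      rw [hz0']; simp; linarith
    have hs1 : 1 < (z1 + σ).re := by
      rw [hz1]; simp; linarith
    rw [F_ld _ _ hlg F sF (z0 + σ) hs0, F_ld _ _ hlg2 G sG' (z1 + σ) hs1]
    have sum1 : Summable (fun n : ℕ =>
        ((vonMangoldt n * (1 + ((ZMod.χ₄ (n : ZMod 4) : ℤ) : ℝ)) : ℝ) : ℂ) *
        (n : ℂ) ^ (-(1 + σ : ℂ))) := by
      refine summable_term _ 2 ?_ _ (by simp; linarith)
      intro n
      rw [Complex.norm_real, Real.norm_eq_abs, abs_mul,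
        abs_of_nonneg ArithmeticFunction.vonMangoldt_nonneg, mul_comm]
      exact mul_le_mul_of_nonneg_right (nzr_chi_bound n) ArithmeticFunction.vonMangoldt_nonneg
    have sumc : ∀ (c : ℕ → ℂ), (∀ n, ‖c n‖ ≤ 2) → ∀ s : ℂ, 1 < s.re →
        Summable (fun n : ℕ => ((vonMangoldt n : ℂ) * c n) * (n : ℂ) ^ (-s)) := by
      intro c hc s hs
      refine summable_term _ 2 ?_ _ hs
      intro n
      rw [norm_mul, Complex.norm_real, Real.norm_of_nonneg ArithmeticFunction.vonMangoldt_nonneg,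
        mul_comm]
      exact mul_le_mul_of_nonneg_right (hc n) ArithmeticFunction.vonMangoldt_nonneg
    have sum2 := sumc _ hlg.cd (z0 + σ) hs0
    have sum3 := sumc _ hlg2.cd (z1 + σ) hs1
    have htot : (3 * ((σ : ℂ) *
      ∑' n : ℕ, ((vonMangoldt n * (1 + ((ZMod.χ₄ (n : ZMod 4) : ℤ) : ℝ)) : ℝ) : ℂ) *
        (n : ℂ) ^ (-(1 + σ : ℂ))) -
      4 * (((σ : ℂ)) * -∑' n : ℕ, ((vonMangoldt n : ℂ) * ccf h n) * (n : ℂ) ^ (-(z0 + σ)))) -
      (σ : ℂ) * -∑' n : ℕ, ((vonMangoldt n : ℂ) * ccf (nzr_sq h) n) * (n : ℂ) ^ (-(z1 + σ)) =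
      (σ : ℂ) * ∑' n : ℕ, (3 * (((vonMangoldt n * (1 + ((ZMod.χ₄ (n : ZMod 4) : ℤ) : ℝ)) : ℝ) : ℂ) *
        (n : ℂ) ^ (-(1 + σ : ℂ))) +
        4 * (((vonMangoldt n : ℂ) * ccf h n) * (n : ℂ) ^ (-(z0 + σ))) +
        ((vonMangoldt n : ℂ) * ccf (nzr_sq h) n) * (n : ℂ) ^ (-(z1 + σ))) := by
      rw [Summable.tsum_add ((sum1.mul_left 3).add (sum2.mul_left 4)) sum3,
        Summable.tsum_add (sum1.mul_left 3) (sum2.mul_left 4), tsum_mul_left, tsum_mul_left]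
      ring
    rw [htot, Complex.re_ofReal_mul]
    refine mul_nonneg hσ0.le ?_
    rw [Complex.re_tsum (((sum1.mul_left 3).add (sum2.mul_left 4)).add sum3)]
    refine tsum_nonneg fun n => ?_
    rcases Nat.eq_zero_or_pos n with rfl | hn
    · simp
    have hn0 : (n : ℂ) ≠ 0 := by exact_mod_cast hn.ne'
    set y : ℂ := (n : ℂ) ^ (-(t * I)) with hy
    have hy1 : ‖y‖ ≤ 1 := by
      rw [hy, Complex.norm_natCast_cpow_of_pos hn]
      simp
    have e0 : (n : ℂ) ^ (-(1 + σ : ℂ)) = (((n : ℝ) ^ (-(1 + σ)) : ℝ) : ℂ) := by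
      rw [Complex.ofReal_cpow (by positivity)]; push_cast; rfl
    have e2 : (n : ℂ) ^ (-(z0 + σ)) = (((n : ℝ) ^ (-(1 + σ)) : ℝ) : ℂ) * y := by
      rw [← e0, hy, ← Complex.cpow_add _ _ hn0, hz0']; congr 1; ring
    have e3 : (n : ℂ) ^ (-(z1 + σ)) = (((n : ℝ) ^ (-(1 + σ)) : ℝ) : ℂ) * y ^ 2 := by
      rw [← e0, hy, pow_two, ← Complex.cpow_add _ _ hn0, ← Complex.cpow_add _ _ hn0]
      congr 1; rw [hz1]; push_cast; ring
    have e4 : 3 * (((vonMangoldt n * (1 + ((ZMod.χ₄ (n : ZMod 4) : ℤ) : ℝ)) : ℝ) : ℂ) *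
        (n : ℂ) ^ (-(1 + σ : ℂ))) +
        4 * (((vonMangoldt n : ℂ) * ccf h n) * (n : ℂ) ^ (-(z0 + σ))) +
        ((vonMangoldt n : ℂ) * ccf (nzr_sq h) n) * (n : ℂ) ^ (-(z1 + σ)) =
        (((n : ℝ) ^ (-(1 + σ)) : ℝ) : ℂ) * ∑ p ∈ CS n, (((1 / 4) * LamK ⟨p.1, p.2⟩ : ℝ) : ℂ) *
          (3 + 4 * (h ⟨p.1, p.2⟩ * y) + (h ⟨p.1, p.2⟩ * y) ^ 2) := by
      rw [← lam_one n, ← lam_eq h hh n, ← lam_eq (nzr_sq h) hh2 n, e0, e2, e3]
      unfold bb
      have hsq : ∀ a, nzr_sq h a = (h a) ^ 2 := fun a => rfl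
      simp only [hsq]
      have expand : ∀ (A B C D E : ℂ), 3 * (A * D) + 4 * (B * (D * E)) + C * (D * E ^ 2) =
          D * (A * 3 + B * (4 * E) + C * E ^ 2) := by
        intro A B C D E; ring
      rw [expand, Finset.mul_sum, Finset.mul_sum, Finset.mul_sum, Finset.sum_mul, Finset.sum_mul,
        Finset.sum_mul, ← Finset.sum_add_distrib, ← Finset.sum_add_distrib]
      congr 1
      apply Finset.sum_congr rfl
      intro p _
      push_cast
      ring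
    rw [e4, Complex.re_ofReal_mul]
    refine mul_nonneg (by positivity) ?_
    rw [Complex.re_sum]
    apply Finset.sum_nonneg
    intro p _
    rw [Complex.re_ofReal_mul]
    refine mul_nonneg (mul_nonneg (by norm_num) (nzr_LamK_nonneg _)) (nzr_ineq _ ?_)
    rw [norm_mul]
    calc ‖h ⟨p.1, p.2⟩‖ * ‖y‖ ≤ 1 * 1 := mul_le_mul (hh.hb _) hy1 (norm_nonneg _) zero_le_one
      _ = 1 := one_mul 1
  have hfin := ge_of_tendsto hre hpos
  have hval : (3 * 1 - 4 * (m : ℂ) - (m2 : ℂ) : ℂ).re = 3 - 4 * (m : ℝ) - m2 := by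
    simp
  rw [hval] at hfin
  have hm1' : (1 : ℝ) ≤ m := by exact_mod_cast hm1
  have hm2' : (0 : ℝ) ≤ m2 := Nat.cast_nonneg _
  linarith

end Pool.Agent.H304R3.HK
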