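import Pool.Agent.H304R3.HK.Defs
import Pool.Agent.H304R3.HK.LeftH
import Pool.Agent.H304R3.HK.PairH

set_option autoImplicit false

/-!
TEAM Q3 (helper304, helper385), task L6 (helper872): symmetry of the zeros.
-/

open Complex Filter Topology

namespace Pool.Agent.H304R3.HK

open H370.DL (refl analyticAt_refl order_refl im_osc re_osc eventually_im_ne)
open Pool.Agent.H304R2.EC (LX LX_analytic LX_ne_zero)

/-- L6, first part, with the facts of L1 as hypotheses -/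
theorem FF_nzl_of
    (hLLfe : ∀ (κ : ℝ) (b : ℕ → ℂ) (w : ℂ) (_ : Th κ b w) (s : ℂ),
      LL κ b (1 - s) = w * (starRingEnd ℂ) (LL κ b ((starRingEnd ℂ) s)))
    (hFFeq : ∀ (κ : ℝ) (_ : 1 ≤ κ) (b : ℕ → ℂ) (s : ℂ),
      FF b s = (Complex.Gamma (s + 1 / 2))⁻¹ *
        ((κ / Real.pi : ℝ) : ℂ) ^ (-(s + 1 / 2)) * LL κ b s)
    (κ : ℝ) (b : ℕ → ℂ) (w : ℂ) (H : Th κ b w)
    (hnz : ∀ s : ℂ, 1 ≤ s.re → 1 ≤ s.im → FF b s ≠ 0)
    (s : ℂ) (h1 : s.re ≤ 0) (h2 : 1 ≤ s.im) : FF b s ≠ 0 := by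
  have hs : s.im ≠ 0 := by linarith
  have hk1 := H.k1
  have hk0 : (0 : ℝ) < κ := by linarith
  have hκ : 0 < κ / Real.pi := div_pos hk0 Real.pi_pos
  have hw0 : w ≠ 0 := by
    intro h
    have := H.w1
    rw [h, norm_zero] at this
    exact zero_ne_one this
  rw [L3_func κ b w hk1 (hLLfe κ b w H) (hFFeq κ hk1 b) s hs]
  refine mul_ne_zero (LX_ne_zero w hw0 _ hκ hs) ?_
  unfold H370.DL.refl
  rw [map_ne_zero]
  refine hnz _ ?_ ?_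
  · rw [re_osc]
    linarith
  · rw [im_osc]
    exact h2

/-- L6, second part, with the facts of L1 as hypotheses -/
theorem FF_symm_of
    (hLLfe : ∀ (κ : ℝ) (b : ℕ → ℂ) (w : ℂ) (_ : Th κ b w) (s : ℂ),
      LL κ b (1 - s) = w * (starRingEnd ℂ) (LL κ b ((starRingEnd ℂ) s)))
    (hFFeq : ∀ (κ : ℝ) (_ : 1 ≤ κ) (b : ℕ → ℂ) (s : ℂ),
      FF b s = (Complex.Gamma (s + 1 / 2))⁻¹ *
        ((κ / Real.pi : ℝ) : ℂ) ^ (-(s + 1 / 2)) * LL κ b s)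
    (hent : ∀ (κ : ℝ) (b : ℕ → ℂ) (w : ℂ) (_ : Th κ b w), Differentiable ℂ (FF b))
    (κ : ℝ) (b : ℕ → ℂ) (w : ℂ) (H : Th κ b w) (s : ℂ) (h2 : 1 ≤ s.im) :
    analyticOrderAt (FF b) (1 - (starRingEnd ℂ) s) = analyticOrderAt (FF b) s := by
  have hs : s.im ≠ 0 := by linarith
  have hk1 := H.k1
  have hk0 : (0 : ℝ) < κ := by linarith
  have hκ : 0 < κ / Real.pi := div_pos hk0 Real.pi_pos
  have hw0 : w ≠ 0 := by
    intro h
    have := H.w1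
    rw [h, norm_zero] at this
    exact zero_ne_one this
  have ha : AnalyticAt ℂ (FF b) (1 - (starRingEnd ℂ) s) := (hent κ b w H).analyticAt _
  have h1 : FF b =ᶠ[𝓝 s] (LX w (κ / Real.pi)) * refl (FF b) := by
    filter_upwards [eventually_im_ne hs] with z hz
    exact L3_func κ b w hk1 (hLLfe κ b w H) (hFFeq κ hk1 b) z hz
  have hX : AnalyticAt ℂ (LX w (κ / Real.pi)) s := LX_analytic w _ hκ hs
  rw [analyticOrderAt_congr h1, analyticOrderAt_mul hX (analyticAt_refl ha),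
    hX.analyticOrderAt_eq_zero.mpr (LX_ne_zero w hw0 _ hκ hs), zero_add, order_refl ha]

theorem FF_nzl (κ : ℝ) (b : ℕ → ℂ) (w : ℂ) (H : Th κ b w)
    (hnz : ∀ s : ℂ, 1 ≤ s.re → 1 ≤ s.im → FF b s ≠ 0)
    (s : ℂ) (h1 : s.re ≤ 0) (h2 : 1 ≤ s.im) : FF b s ≠ 0 :=
  FF_nzl_of LL_fe FF_eq κ b w H hnz s h1 h2

theorem FF_symm (κ : ℝ) (b : ℕ → ℂ) (w : ℂ) (H : Th κ b w) (s : ℂ) (h2 : 1 ≤ s.im) :
    analyticOrderAt (FF b) (1 - (starRingEnd ℂ) s) = analyticOrderAt (FF b) s :=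
  FF_symm_of LL_fe FF_eq FF_entire κ b w H s h2

end Pool.Agent.H304R3.HK
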