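import Pool.Agent.H304R3.HK.Defs

set_option autoImplicit false

/-!
TEAM Q3, task K2 (helper959): Poisson summation for `x² e^{-π Y |x|²}` on the shifted lattice.
-/

open Filter Topology HurwitzZeta

namespace Pool.Agent.H304R3.HK

namespace K2

/-- summability of powers times a shifted Gaussian -/
theorem summ (a c : ℝ) (hc : 0 < c) (k : ℕ) :
    Summable (fun n : ℤ => |(n : ℝ) + a| ^ k * Real.exp (-Real.pi * ((n : ℝ) + a) ^ 2 * c)) := by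
  have hS : ∀ j : ℕ, Summable (fun n : ℤ => (|(n : ℝ)| ^ j : ℝ) *
      Real.exp (-Real.pi * (c * n ^ 2 - 2 * (|a| * c) * |(n : ℝ)|))) := by
    intro j
    have := summable_pow_mul_jacobiTheta₂_term_bound (|a| * c) hc j
    simpa using this
  have hb : Summable (fun n : ℤ => 2 ^ (k - 1) * ((|(n : ℝ)| ^ k : ℝ) *
      Real.exp (-Real.pi * (c * n ^ 2 - 2 * (|a| * c) * |(n : ℝ)|)) + |a| ^ k *
      ((|(n : ℝ)| ^ 0 : ℝ) * Real.exp (-Real.pi * (c * n ^ 2 - 2 * (|a| * c) * |(n : ℝ)|))))) :=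
    ((hS k).add ((hS 0).mul_left _)).mul_left _
  refine Summable.of_nonneg_of_le (fun n => by positivity) (fun n => ?_) hb
  have h1 : |(n : ℝ) + a| ^ k ≤ 2 ^ (k - 1) * (|(n : ℝ)| ^ k + |a| ^ k) :=
    (pow_le_pow_left₀ (abs_nonneg _) (abs_add_le _ _) k).trans
      (add_pow_le (abs_nonneg _) (abs_nonneg _) k)
  have h2 : Real.exp (-Real.pi * ((n : ℝ) + a) ^ 2 * c) ≤
      Real.exp (-Real.pi * (c * n ^ 2 - 2 * (|a| * c) * |(n : ℝ)|)) := by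
    apply Real.exp_le_exp.2
    have h3 : -(|a| * |(n : ℝ)|) ≤ a * n := by
      rw [← abs_mul]; exact neg_abs_le _
    have h4 : (n : ℝ) ^ 2 - 2 * |a| * |(n : ℝ)| ≤ ((n : ℝ) + a) ^ 2 := by nlinarith [sq_nonneg a]
    have h5 : 0 < Real.pi * c := mul_pos Real.pi_pos hc
    nlinarith
  calc |(n : ℝ) + a| ^ k * Real.exp (-Real.pi * ((n : ℝ) + a) ^ 2 * c)
      ≤ (2 ^ (k - 1) * (|(n : ℝ)| ^ k + |a| ^ k)) *
        Real.exp (-Real.pi * (c * n ^ 2 - 2 * (|a| * c) * |(n : ℝ)|)) :=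
        mul_le_mul h1 h2 (Real.exp_pos _).le (by positivity)
    _ = _ := by rw [pow_zero]; ring

/-- termwise differentiation in the scale -/
theorem deriv_tsum (g : ℤ → ℂ) (hg : ∀ n, ‖g n‖ ≤ 1) (a t : ℝ) (ht : 0 < t) :
    HasDerivAt (fun x : ℝ => ∑' n : ℤ, g n * ((Real.exp (-Real.pi * ((n : ℝ) + a) ^ 2 * x) : ℝ) : ℂ))
      (∑' n : ℤ, g n * ((-Real.pi * ((n : ℝ) + a) ^ 2 *
        Real.exp (-Real.pi * ((n : ℝ) + a) ^ 2 * t) : ℝ) : ℂ)) t := by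
  have hpi := Real.pi_pos
  have hu : Summable (fun n : ℤ => Real.pi * (|(n : ℝ) + a| ^ 2 *
      Real.exp (-Real.pi * ((n : ℝ) + a) ^ 2 * (t / 2)))) :=
    (summ a (t / 2) (by linarith) 2).mul_left _
  have hmem : t ∈ Set.Ioi (t / 2) := by
    rw [Set.mem_Ioi]; linarith
  refine hasDerivAt_tsum_of_isPreconnected (𝕜 := ℝ) (F := ℂ)
    (g := fun (n : ℤ) (x : ℝ) =>
      g n * ((Real.exp (-Real.pi * ((n : ℝ) + a) ^ 2 * x) : ℝ) : ℂ))
    (g' := fun (n : ℤ) (x : ℝ) => g n * ((-Real.pi * ((n : ℝ) + a) ^ 2 *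
        Real.exp (-Real.pi * ((n : ℝ) + a) ^ 2 * x) : ℝ) : ℂ))
    (t := Set.Ioi (t / 2)) (y₀ := t) hu isOpen_Ioi
    isPreconnected_Ioi ?_ ?_ hmem ?_ hmem
  · intro n y _
    have h1 : HasDerivAt (fun x : ℝ => Real.exp (-Real.pi * ((n : ℝ) + a) ^ 2 * x))
        (-Real.pi * ((n : ℝ) + a) ^ 2 * Real.exp (-Real.pi * ((n : ℝ) + a) ^ 2 * y)) y := by
      have h2 : HasDerivAt (fun x : ℝ => -Real.pi * ((n : ℝ) + a) ^ 2 * x)
          (-Real.pi * ((n : ℝ) + a) ^ 2) y := by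
        have h0 := (hasDerivAt_id y).const_mul (-Real.pi * ((n : ℝ) + a) ^ 2)
        rw [mul_one] at h0
        exact h0
      have h3 := h2.exp
      rw [mul_comm (Real.exp _)] at h3
      exact h3
    exact h1.ofReal_comp.const_mul (g n)
  · intro n y hy
    have hy' : t / 2 < y := hy
    rw [norm_mul, Complex.norm_real, Real.norm_eq_abs, abs_mul, abs_mul, abs_neg,
      abs_of_pos hpi, Real.abs_exp, abs_pow]
    have h1 : Real.exp (-Real.pi * ((n : ℝ) + a) ^ 2 * y) ≤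
        Real.exp (-Real.pi * ((n : ℝ) + a) ^ 2 * (t / 2)) := by
      apply Real.exp_le_exp.2
      have h2 : 0 ≤ Real.pi * ((n : ℝ) + a) ^ 2 := by positivity
      nlinarith
    calc ‖g n‖ * (Real.pi * |(n : ℝ) + a| ^ 2 * Real.exp (-Real.pi * ((n : ℝ) + a) ^ 2 * y))
        ≤ 1 * (Real.pi * |(n : ℝ) + a| ^ 2 * Real.exp (-Real.pi * ((n : ℝ) + a) ^ 2 * (t / 2))) := by
          refine mul_le_mul (hg n) ?_ (by positivity) zero_le_one
          exact mul_le_mul_of_nonneg_left h1 (by positivity)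
      _ = _ := by ring
  · refine Summable.of_norm_bounded (summ a t ht 0) (fun n => ?_)
    rw [norm_mul, Complex.norm_real, Real.norm_eq_abs, Real.abs_exp, pow_zero]
    exact mul_le_mul_of_nonneg_right (hg n) (Real.exp_pos _).le

/-- the sums on the original side -/
noncomputable def E (k : ℕ) (a Y : ℝ) : ℂ :=
  ∑' n : ℤ, ((((n : ℝ) + a) ^ k * Real.exp (-Real.pi * ((n : ℝ) + a) ^ 2 * Y) : ℝ) : ℂ)

/-- the additive character -/
noncomputable def ch (a : ℝ) (m : ℤ) : ℂ := Complex.exp (2 * Real.pi * Complex.I * a * m)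

/-- the sums on the dual side -/
noncomputable def S (k : ℕ) (a t : ℝ) : ℂ :=
  ∑' m : ℤ, ch a m * ((m : ℂ) ^ k * ((Real.exp (-Real.pi * (m : ℝ) ^ 2 * t) : ℝ) : ℂ))

theorem ch_norm (a : ℝ) (m : ℤ) : ‖ch a m‖ = 1 := by
  unfold ch
  have : 2 * (Real.pi : ℂ) * Complex.I * a * m = ((2 * Real.pi * a * m : ℝ) : ℂ) * Complex.I := by
    push_cast; ring
  rw [this, Complex.norm_exp_ofReal_mul_I]

theorem E_summable (k : ℕ) (a Y : ℝ) (hY : 0 < Y) : Summable (fun n : ℤ =>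
    ‖((((n : ℝ) + a) ^ k * Real.exp (-Real.pi * ((n : ℝ) + a) ^ 2 * Y) : ℝ) : ℂ)‖) := by
  refine (summ a Y hY k).congr fun n => ?_
  rw [Complex.norm_real, Real.norm_eq_abs, abs_mul, Real.abs_exp, abs_pow]

theorem S_summable (k : ℕ) (a t : ℝ) (ht : 0 < t) : Summable (fun m : ℤ =>
    ‖ch a m * ((m : ℂ) ^ k * ((Real.exp (-Real.pi * (m : ℝ) ^ 2 * t) : ℝ) : ℂ))‖) := by
  refine (summ 0 t ht k).congr fun n => ?_
  rw [norm_mul, ch_norm, one_mul, norm_mul, norm_pow, Complex.norm_real, Real.norm_eq_abs,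
    Real.abs_exp, add_zero]
  rw [Complex.norm_intCast]

/-- even kernel -/
theorem E0 (a Y : ℝ) (hY : 0 < Y) : E 0 a Y = ((1 / Real.sqrt Y : ℝ) : ℂ) * S 0 a Y⁻¹ := by
  have h1 := (Complex.hasSum_ofReal.2 (hasSum_int_evenKernel a hY)).tsum_eq
  have h2 := (hasSum_int_cosKernel a (inv_pos.2 hY)).tsum_eq
  have h3 := evenKernel_functional_equation (a : UnitAddCircle) Y
  have h4 : E 0 a Y = ((evenKernel (a : UnitAddCircle) Y : ℝ) : ℂ) := by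
    rw [← h1]
    unfold E
    simp
  have h5 : S 0 a Y⁻¹ = ((cosKernel (a : UnitAddCircle) Y⁻¹ : ℝ) : ℂ) := by
    rw [← h2]
    unfold S ch
    simp
  rw [h4, h5, h3, Real.sqrt_eq_rpow, one_div Y]
  push_cast
  ring

/-- odd kernel -/
theorem E1 (a Y : ℝ) (hY : 0 < Y) :
    E 1 a Y = -Complex.I * ((1 / Real.sqrt Y ^ 3 : ℝ) : ℂ) * S 1 a Y⁻¹ := by
  have h1 := (Complex.hasSum_ofReal.2 (hasSum_int_oddKernel a hY)).tsum_eq
  have h2 := (hasSum_int_sinKernel a (inv_pos.2 hY)).tsum_eq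
  have h3 := oddKernel_functional_equation (a : UnitAddCircle) Y
  have h4 : E 1 a Y = ((oddKernel (a : UnitAddCircle) Y : ℝ) : ℂ) := by
    rw [← h1]
    unfold E
    simp
  have h5 : -Complex.I * S 1 a Y⁻¹ = ((sinKernel (a : UnitAddCircle) Y⁻¹ : ℝ) : ℂ) := by
    rw [← h2]
    unfold S ch
    rw [← tsum_mul_left]
    refine tsum_congr fun m => ?_
    ring
  have h6 : Y ^ (3 / 2 : ℝ) = Real.sqrt Y ^ 3 := by
    rw [Real.sqrt_eq_rpow, ← Real.rpow_natCast, ← Real.rpow_mul hY.le]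
    norm_num
  rw [h4, h3, one_div Y]
  push_cast
  rw [← h5, h6]
  push_cast
  ring

/-- second moment -/
theorem E2 (a Y : ℝ) (hY : 0 < Y) :
    E 2 a Y = ((1 / (2 * Real.pi * Real.sqrt Y ^ 3) : ℝ) : ℂ) * S 0 a Y⁻¹ -
      ((1 / Real.sqrt Y ^ 5 : ℝ) : ℂ) * S 2 a Y⁻¹ := by
  have hpi := Real.pi_pos
  set s := Real.sqrt Y with hs
  have hs0 : 0 < s := Real.sqrt_pos.2 hY
  have hsY : s ^ 2 = Y := Real.sq_sqrt hY.le
  -- derivative on the left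
  have d1 := deriv_tsum (fun _ => 1) (fun _ => by simp) a Y hY
  have e1 : (∑' n : ℤ, (1 : ℂ) * ((-Real.pi * ((n : ℝ) + a) ^ 2 *
        Real.exp (-Real.pi * ((n : ℝ) + a) ^ 2 * Y) : ℝ) : ℂ)) = -(Real.pi : ℂ) * E 2 a Y := by
    unfold E
    rw [← tsum_mul_left]
    refine tsum_congr fun n => ?_
    push_cast
    ring
  rw [e1] at d1
  -- derivative on the right
  have d2 := deriv_tsum (ch a) (fun m => (ch_norm a m).le) 0 Y⁻¹ (inv_pos.2 hY)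
  have e2 : (∑' n : ℤ, ch a n * ((-Real.pi * ((n : ℝ) + 0) ^ 2 *
        Real.exp (-Real.pi * ((n : ℝ) + 0) ^ 2 * Y⁻¹) : ℝ) : ℂ)) =
        -(Real.pi : ℂ) * S 2 a Y⁻¹ := by
    unfold S
    rw [← tsum_mul_left]
    refine tsum_congr fun n => ?_
    rw [add_zero]
    push_cast
    ring
  rw [e2] at d2
  have d3 : HasDerivAt (fun x : ℝ => (Real.sqrt x)⁻¹) (-(1 / (2 * s)) / s ^ 2) Y :=
    (Real.hasDerivAt_sqrt hY.ne').inv hs0.ne'
  have d4 : HasDerivAt (fun x : ℝ => x⁻¹) (-(Y ^ 2)⁻¹) Y := hasDerivAt_inv hY.ne'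
  have d5 := HasDerivAt.scomp Y d2 d4
  have d6 := d3.smul d5
  have hEq : (fun x : ℝ => ∑' n : ℤ, (1 : ℂ) *
      ((Real.exp (-Real.pi * ((n : ℝ) + a) ^ 2 * x) : ℝ) : ℂ)) =ᶠ[𝓝 Y]
      (fun x : ℝ => (Real.sqrt x)⁻¹) • ((fun x : ℝ => ∑' n : ℤ, ch a n *
        ((Real.exp (-Real.pi * ((n : ℝ) + 0) ^ 2 * x) : ℝ) : ℂ)) ∘ fun x => x⁻¹) := by
    filter_upwards [lt_mem_nhds hY] with x hx
    have h1 := E0 a x hx
    unfold E S at h1
    simp only [Pi.smul_apply', Function.comp]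
    have h2 : (∑' n : ℤ, (1 : ℂ) * ((Real.exp (-Real.pi * ((n : ℝ) + a) ^ 2 * x) : ℝ) : ℂ)) =
        ∑' n : ℤ, ((((n : ℝ) + a) ^ 0 * Real.exp (-Real.pi * ((n : ℝ) + a) ^ 2 * x) : ℝ) : ℂ) := by
      refine tsum_congr fun n => ?_
      simp
    rw [h2, h1, Complex.real_smul, one_div]
    congr 1
    refine tsum_congr fun n => ?_
    simp
  have d7 := (d6.congr_of_eventuallyEq hEq).unique d1
  have e3 : (∑' n : ℤ, ch a n * ((Real.exp (-Real.pi * ((n : ℝ) + 0) ^ 2 * Y⁻¹) : ℝ) : ℂ)) =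
      S 0 a Y⁻¹ := by
    unfold S
    refine tsum_congr fun n => ?_
    simp
  simp only [Function.comp, Complex.real_smul] at d7
  rw [e3, ← hs] at d7
  have hpc : (Real.pi : ℂ) ≠ 0 := by exact_mod_cast hpi.ne'
  have hsc : (s : ℂ) ≠ 0 := by exact_mod_cast hs0.ne'
  have hYc : (Y : ℂ) = (s : ℂ) ^ 2 := by rw [← hsY]; push_cast; ring
  rw [← mul_right_inj' (neg_ne_zero.2 hpc), ← d7]
  push_cast
  rw [hYc]
  field_simp
  ring

end K2

theorem kern2_fe (a b Y : ℝ) (hY : 0 < Y) : ∃ V : ℂ,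
    HasSum (fun p : ℤ × ℤ => ((((p.1 : ℝ) + a : ℝ) : ℂ) + (((p.2 : ℝ) + b : ℝ) : ℂ) * Complex.I) ^ 2 *
      (Real.exp (-Real.pi * Y * (((p.1 : ℝ) + a) ^ 2 + ((p.2 : ℝ) + b) ^ 2)) : ℂ)) V ∧
    HasSum (fun p : ℤ × ℤ => (-1 / (Y : ℂ) ^ 3) * ((p.1 : ℂ) + (p.2 : ℂ) * Complex.I) ^ 2 *
      Complex.exp (2 * Real.pi * Complex.I * ((p.1 : ℂ) * a + (p.2 : ℂ) * b)) *
      (Real.exp (-Real.pi * ((p.1 : ℝ) ^ 2 + (p.2 : ℝ) ^ 2) / Y) : ℂ)) V := by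
  have hYi : 0 < Y⁻¹ := inv_pos.2 hY
  -- products of one dimensional sums
  have hpr : ∀ (f g : ℤ → ℂ), Summable (fun n => ‖f n‖) → Summable (fun n => ‖g n‖) →
      HasSum (fun p : ℤ × ℤ => f p.1 * g p.2) ((∑' n, f n) * (∑' n, g n)) := by
    intro f g hf hg
    exact hf.of_norm.hasSum.mul hg.of_norm.hasSum (summable_mul_of_summable_norm hf hg)
  set s := Real.sqrt Y with hs
  have hs0 : 0 < s := Real.sqrt_pos.2 hY
  have hsY : s ^ 2 = Y := Real.sq_sqrt hY.le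
  have hpc : (Real.pi : ℂ) ≠ 0 := by exact_mod_cast Real.pi_pos.ne'
  have hsc : (s : ℂ) ≠ 0 := by exact_mod_cast hs0.ne'
  have hYc : (Y : ℂ) = (s : ℂ) ^ 2 := by rw [← hsY]; push_cast; ring
  refine ⟨K2.E 2 a Y * K2.E 0 b Y - K2.E 0 a Y * K2.E 2 b Y +
    2 * Complex.I * (K2.E 1 a Y * K2.E 1 b Y), ?_, ?_⟩
  · have h1 := hpr _ _ (K2.E_summable 2 a Y hY) (K2.E_summable 0 b Y hY)
    have h2 := hpr _ _ (K2.E_summable 0 a Y hY) (K2.E_summable 2 b Y hY)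
    have h3 := hpr _ _ (K2.E_summable 1 a Y hY) (K2.E_summable 1 b Y hY)
    refine ((h1.sub h2).add (h3.mul_left (2 * Complex.I))).congr_fun fun p => ?_
    have he : Real.exp (-Real.pi * Y * (((p.1 : ℝ) + a) ^ 2 + ((p.2 : ℝ) + b) ^ 2)) =
        Real.exp (-Real.pi * ((p.1 : ℝ) + a) ^ 2 * Y) *
        Real.exp (-Real.pi * ((p.2 : ℝ) + b) ^ 2 * Y) := by
      rw [← Real.exp_add]
      congr 1
      ring
    rw [he]
    push_cast
    linear_combination (((p.2 : ℂ) + b) ^ 2 * Complex.exp (-Real.pi * ((p.1 : ℂ) + a) ^ 2 * Y) *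
        Complex.exp (-Real.pi * ((p.2 : ℂ) + b) ^ 2 * Y)) * Complex.I_sq
  · have h1 := hpr _ _ (K2.S_summable 2 a Y⁻¹ hYi) (K2.S_summable 0 b Y⁻¹ hYi)
    have h2 := hpr _ _ (K2.S_summable 0 a Y⁻¹ hYi) (K2.S_summable 2 b Y⁻¹ hYi)
    have h3 := hpr _ _ (K2.S_summable 1 a Y⁻¹ hYi) (K2.S_summable 1 b Y⁻¹ hYi)
    have hV : K2.E 2 a Y * K2.E 0 b Y - K2.E 0 a Y * K2.E 2 b Y +
        2 * Complex.I * (K2.E 1 a Y * K2.E 1 b Y) = (-1 / (Y : ℂ) ^ 3) *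
        (K2.S 2 a Y⁻¹ * K2.S 0 b Y⁻¹ - K2.S 0 a Y⁻¹ * K2.S 2 b Y⁻¹ +
          2 * Complex.I * (K2.S 1 a Y⁻¹ * K2.S 1 b Y⁻¹)) := by
      rw [K2.E0 a Y hY, K2.E0 b Y hY, K2.E1 a Y hY, K2.E1 b Y hY, K2.E2 a Y hY, K2.E2 b Y hY,
        ← hs, hYc]
      generalize K2.S 0 a Y⁻¹ = A0
      generalize K2.S 1 a Y⁻¹ = A1
      generalize K2.S 2 a Y⁻¹ = A2
      generalize K2.S 0 b Y⁻¹ = B0
      generalize K2.S 1 b Y⁻¹ = B1
      generalize K2.S 2 b Y⁻¹ = B2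
      push_cast
      field_simp
      linear_combination (4 * Real.pi * Complex.I * A1 * B1) * Complex.I_sq
    rw [hV]
    refine (((h1.sub h2).add (h3.mul_left (2 * Complex.I))).mul_left
      (-1 / (Y : ℂ) ^ 3)).congr_fun fun p => ?_
    have he : Real.exp (-Real.pi * ((p.1 : ℝ) ^ 2 + (p.2 : ℝ) ^ 2) / Y) =
        Real.exp (-Real.pi * (p.1 : ℝ) ^ 2 * Y⁻¹) * Real.exp (-Real.pi * (p.2 : ℝ) ^ 2 * Y⁻¹) := by
      rw [← Real.exp_add]
      congr 1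
      ring
    have hc : Complex.exp (2 * Real.pi * Complex.I * ((p.1 : ℂ) * a + (p.2 : ℂ) * b)) =
        K2.ch a p.1 * K2.ch b p.2 := by
      unfold K2.ch
      rw [← Complex.exp_add]
      congr 1
      ring
    rw [he, hc]
    push_cast
    linear_combination ((-1 / (Y : ℂ) ^ 3) * (p.2 : ℂ) ^ 2 * K2.ch a p.1 * K2.ch b p.2 *
      Complex.exp (-Real.pi * (p.1 : ℂ) ^ 2 * (Y : ℂ)⁻¹) *
      Complex.exp (-Real.pi * (p.2 : ℂ) ^ 2 * (Y : ℂ)⁻¹)) * Complex.I_sq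

end Pool.Agent.H304R3.HK
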