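import Pool.Agent.H304R3.HK.Defs

set_option autoImplicit false

/-!
TEAM Q3, task G1a: coset representatives modulo `q` and the decomposition of sums into classes.
-/

namespace Pool.Agent.H304R3.HK

open Complex

namespace G1a

theorem tc_add (a b : GaussianInt) : tc (a + b) = tc a + tc b := by
  simp only [tc, Zsqrtd.re_add, Zsqrtd.im_add]
  push_cast
  ring

theorem tc_mul (a b : GaussianInt) : tc (a * b) = tc a * tc b := by
  simp only [tc, Zsqrtd.re_mul, Zsqrtd.im_mul]
  push_cast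
  linear_combination (-(a.im : ℂ) * b.im) * Complex.I_sq

theorem tc_re (a : GaussianInt) : (tc a).re = a.re := by
  simp [tc]

theorem tc_im (a : GaussianInt) : (tc a).im = a.im := by
  simp [tc]

theorem tc_ne {q : GaussianInt} (hq : q ≠ 0) : tc q ≠ 0 := by
  intro h
  apply hq
  have h1 := congrArg Complex.re h
  have h2 := congrArg Complex.im h
  rw [tc_re, Complex.zero_re] at h1
  rw [tc_im, Complex.zero_im] at h2
  ext
  · exact_mod_cast h1
  · exact_mod_cast h2

theorem norm_pos {q : GaussianInt} (hq : q ≠ 0) : 0 < q.norm.natAbs := by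
  rw [Int.natAbs_pos]
  intro h
  exact hq ((Zsqrtd.norm_eq_zero_iff (by norm_num) q).1 h)

theorem dvd_norm (q : GaussianInt) : q ∣ ((q.norm.natAbs : ℤ) : GaussianInt) := by
  have h0 : 0 ≤ q.norm := Zsqrtd.norm_nonneg (by norm_num) q
  rw [Int.natAbs_of_nonneg h0, Zsqrtd.norm_eq_mul_conj]
  exact dvd_mul_right _ _

/-- the chosen representative of a class -/
noncomputable def rp (q : GaussianInt) (x : GaussianInt) : GaussianInt :=
  Quotient.out (Ideal.Quotient.mk (Ideal.span {q}) x)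

theorem mk_rp (q x : GaussianInt) :
    Ideal.Quotient.mk (Ideal.span {q}) (rp q x) = Ideal.Quotient.mk (Ideal.span {q}) x :=
  Quotient.out_eq (Ideal.Quotient.mk (Ideal.span {q}) x)

theorem mk_eq {q x y : GaussianInt} : Ideal.Quotient.mk (Ideal.span {q}) x =
    Ideal.Quotient.mk (Ideal.span {q}) y ↔ q ∣ x - y := by
  rw [Ideal.Quotient.eq, Ideal.mem_span_singleton]

theorem rp_congr {q x y : GaussianInt} (h : q ∣ x - y) : rp q x = rp q y := by
  unfold rp
  rw [mk_eq.2 h]

theorem exists_box (q : GaussianInt) (hq : q ≠ 0) (a : GaussianInt) :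
    ∃ r s : ℕ, r < q.norm.natAbs ∧ s < q.norm.natAbs ∧ q ∣ a - ⟨(r : ℤ), (s : ℤ)⟩ := by
  have hN := norm_pos hq
  have hN' : (0 : ℤ) < (q.norm.natAbs : ℤ) := by exact_mod_cast hN
  obtain ⟨r, hr⟩ := Int.eq_ofNat_of_zero_le (Int.emod_nonneg a.re hN'.ne')
  obtain ⟨s, hs⟩ := Int.eq_ofNat_of_zero_le (Int.emod_nonneg a.im hN'.ne')
  refine ⟨r, s, ?_, ?_, ?_⟩
  · have := Int.emod_lt_of_pos a.re hN'
    rw [hr] at this
    exact_mod_cast this
  · have := Int.emod_lt_of_pos a.im hN'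
    rw [hs] at this
    exact_mod_cast this
  · have h1 : a - ⟨(r : ℤ), (s : ℤ)⟩ = ((q.norm.natAbs : ℤ) : GaussianInt) *
        ⟨a.re / (q.norm.natAbs : ℤ), a.im / (q.norm.natAbs : ℤ)⟩ := by
      have e1 := Int.mul_ediv_add_emod a.re (q.norm.natAbs : ℤ)
      have e2 := Int.mul_ediv_add_emod a.im (q.norm.natAbs : ℤ)
      rw [hr] at e1
      rw [hs] at e2
      ext
      · simp only [Zsqrtd.re_sub, Zsqrtd.re_mul, Zsqrtd.re_intCast, Zsqrtd.im_intCast]
        linear_combination -e1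
      · simp only [Zsqrtd.im_sub, Zsqrtd.im_mul, Zsqrtd.re_intCast, Zsqrtd.im_intCast]
        linear_combination -e2
    rw [h1]
    exact (dvd_norm q).mul_right _

theorem mem_Rep {q c : GaussianInt} (h : c ∈ Rep q) : c = rp q c := by
  unfold Rep at h
  rw [Finset.mem_image] at h
  obtain ⟨p, -, rfl⟩ := h
  show rp q _ = rp q (rp q _)
  apply rp_congr
  rw [← mk_eq, mk_rp]

theorem rp_mem (q : GaussianInt) (hq : q ≠ 0) (a : GaussianInt) : rp q a ∈ Rep q := by
  obtain ⟨r, s, hr, hs, h⟩ := exists_box q hq a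
  rw [rp_congr h]
  unfold Rep
  rw [Finset.mem_image]
  exact ⟨(r, s), Finset.mem_product.2 ⟨Finset.mem_range.2 hr, Finset.mem_range.2 hs⟩, rfl⟩

end G1a

open G1a

theorem rep_spec (q : GaussianInt) (hq : q ≠ 0) (a : GaussianInt) :
    ∃! c : GaussianInt, c ∈ Rep q ∧ q ∣ a - c := by
  refine ⟨rp q a, ⟨rp_mem q hq a, ?_⟩, ?_⟩
  · rw [← mk_eq, mk_rp]
  · rintro c ⟨hc, hd⟩
    rw [mem_Rep hc]
    exact (rp_congr hd).symm

theorem eq_per (q : GaussianInt) (hq : q ≠ 0) (x y : GaussianInt) (h : q ∣ x - y) :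
    eq_ q x = eq_ q y := by
  obtain ⟨n, hn⟩ := h
  have hx : x = y + q * n := by rw [← hn]; ring
  have h1 : tc x / tc q = tc y / tc q + tc n := by
    rw [hx, tc_add, tc_mul]
    field_simp [tc_ne hq]
  unfold eq_
  rw [h1, Complex.add_re, tc_re]
  have h2 : 2 * (Real.pi : ℂ) * I * (((tc y / tc q).re + (n.re : ℝ) : ℝ) : ℂ) =
      2 * (Real.pi : ℂ) * I * (((tc y / tc q).re : ℝ) : ℂ) + (n.re : ℂ) * (2 * Real.pi * I) := by
    push_cast
    ring
  rw [h2, Complex.exp_add, Complex.exp_int_mul_two_pi_mul_I, mul_one]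

theorem hasSum_rep (q : GaussianInt) (hq : q ≠ 0) (f : GaussianInt → ℂ) (g : GaussianInt → ℂ)
    (h : ∀ c ∈ Rep q, HasSum (fun n : GaussianInt => f (c + q * n)) (g c)) :
    HasSum f (∑ c ∈ Rep q, g c) := by
  classical
  have h1 : ∀ c ∈ Rep q, HasSum (fun x : GaussianInt => if q ∣ x - c then f x else 0) (g c) := by
    intro c hc
    have hinj : Function.Injective (fun n : GaussianInt => c + q * n) := by
      intro x y hxy
      exact mul_left_cancel₀ hq (add_left_cancel hxy)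
    rw [← hinj.hasSum_iff]
    · refine (h c hc).congr_fun ?_
      intro n
      simp only [Function.comp]
      rw [if_pos]
      exact ⟨n, by ring⟩
    · intro x hx
      rw [if_neg]
      rintro ⟨n, hn⟩
      apply hx
      exact ⟨n, by simp only; rw [← hn]; ring⟩
  have h2 := hasSum_sum h1
  refine h2.congr_fun ?_
  intro x
  obtain ⟨c, ⟨hc1, hc2⟩, hc3⟩ := rep_spec q hq x
  rw [Finset.sum_eq_single c]
  · rw [if_pos hc2]
  · intro b hb hbc
    rw [if_neg]
    intro hd
    exact hbc (hc3 b ⟨hb, hd⟩)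
  · intro hc
    exact absurd hc1 hc

end Pool.Agent.H304R3.HK
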