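import Pool.Agent.H304R3.HK.Defs
import Pool.Agent.H304R3.HK.RepH
import Pool.Agent.H304R3.HK.LgB
import Pool.Agent.H304R3.HK.BbSh
import Pool.Agent.H304R3.HK.GenLog
import Pool.Agent.H304R3.HK.Kern2

set_option autoImplicit false

/-!
TEAM Q3, module T2 (helper726): continuation of the L-function of `ψ²`.
-/

open Finset Filter Topology MeasureTheory Set Asymptotics

namespace Pool.Agent.H304R3.HK

namespace T2

/-! ### The character `ψ²` -/

theorem chi_norm_le {q : GaussianInt} {χ : GaussianInt →* ℂ} (H : HC q χ) (a : GaussianInt) :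
    ‖χ a‖ ≤ 1 := by
  by_cases h : IsCoprime a q
  · exact (H.nrm a h).le
  · have : χ a = 0 := by
      by_contra h0
      exact h ((H.supp a).1 h0)
    rw [this, norm_zero]; norm_num

theorem psi_apply (χ : GaussianInt →* ℂ) (a : GaussianInt) :
    psi χ a = if a = 0 then 0 else χ a * (tc a / (‖tc a‖ : ℂ)) := rfl

theorem uh_psi_sq {q : GaussianInt} {χ : GaussianInt →* ℂ} (H : HC q χ) : UH ((psi χ) ^ 2) := by
  refine ⟨?_, ?_, ?_⟩
  · rw [MonoidHom.pow_apply, psi_apply, if_pos rfl]; simp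
  · intro a
    rw [MonoidHom.pow_apply, norm_pow]
    refine pow_le_one₀ (norm_nonneg _) ?_
    rw [psi_apply]
    split_ifs with h
    · simp
    · rw [norm_mul, norm_div, Complex.norm_real, norm_norm,
        div_self (norm_ne_zero_iff.2 (G1a.tc_ne h)), mul_one]
      exact chi_norm_le H a
  · have h0 : (⟨0, 1⟩ : GaussianInt) ≠ 0 := by
      intro h
      have := congrArg Zsqrtd.im h
      simp at this
    have ht : tc ⟨0, 1⟩ = Complex.I := by simp [tc]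
    rw [MonoidHom.pow_apply, psi_apply, if_neg h0, H.unit, ht, Complex.norm_I]
    simp

/-- the coefficients `b₂(n) n` -/
noncomputable def A2 (χ : GaussianInt →* ℂ) (n : ℕ) : ℂ :=
  bb (fun a => (psi χ a) ^ 2) n * n

theorem b2_le {q : GaussianInt} {χ : GaussianInt →* ℂ} (H : HC q χ) (n : ℕ) :
    ‖bb (fun a => (psi χ a) ^ 2) n‖ ≤ n.divisors.card :=
  (lg_bb_of bb_zero bb_two_odd ts_bound f_bound gen_log _ (uh_psi_sq H)).bd n

theorem A2_le {q : GaussianInt} {χ : GaussianInt →* ℂ} (H : HC q χ) (n : ℕ) :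
    ‖A2 χ n‖ ≤ n.divisors.card * n := by
  unfold A2
  rw [norm_mul, Complex.norm_natCast]
  exact mul_le_mul_of_nonneg_right (b2_le H n) (Nat.cast_nonneg n)

/-! ### Generic theta series with coefficients of size `d(n) n` -/

/-- majorant -/
noncomputable def dn (n : ℕ) : ℝ := (n.divisors.card : ℝ) * n

theorem dn_nonneg (n : ℕ) : 0 ≤ dn n := by unfold dn; positivity

theorem dn_crude (n : ℕ) : dn n ≤ (n : ℝ) ^ 2 := by
  unfold dn
  have h1 : (n.divisors.card : ℝ) ≤ n := by exact_mod_cast Nat.card_divisors_le_self n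
  rw [sq]
  exact mul_le_mul_of_nonneg_right h1 (Nat.cast_nonneg n)

/-- the theta series -/
noncomputable def TG (A : ℕ → ℂ) (y : ℝ) : ℂ := ∑' n : ℕ, A n * (Real.exp (-Real.pi * n * y) : ℂ)

theorem summ_crude {y : ℝ} (hy : 0 < y) :
    Summable (fun n : ℕ => dn n * Real.exp (-Real.pi * n * y)) := by
  have hpi := Real.pi_pos
  have hr : ‖Real.exp (-(Real.pi * y))‖ < 1 := by
    rw [Real.norm_eq_abs, abs_of_pos (Real.exp_pos _), Real.exp_lt_one_iff]
    have := mul_pos hpi hy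
    linarith
  have h2 := summable_pow_mul_geometric_of_norm_lt_one 2 hr
  refine Summable.of_nonneg_of_le (fun n => mul_nonneg (dn_nonneg n) (Real.exp_pos _).le)
    (fun n => ?_) h2
  have hexp : Real.exp (-Real.pi * n * y) = Real.exp (-(Real.pi * y)) ^ n := by
    rw [← Real.exp_nat_mul]; ring_nf
  rw [hexp]
  exact mul_le_mul_of_nonneg_right (dn_crude n) (by positivity)

theorem TG_hasSum (A : ℕ → ℂ) (hA : ∀ n, ‖A n‖ ≤ dn n) {y : ℝ} (hy : 0 < y) :
    HasSum (fun n : ℕ => A n * (Real.exp (-Real.pi * n * y) : ℂ)) (TG A y) := by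
  refine Summable.hasSum ?_
  refine Summable.of_norm_bounded (summ_crude hy) (fun n => ?_)
  rw [norm_mul, Complex.norm_real, Real.norm_eq_abs, abs_of_pos (Real.exp_pos _)]
  exact mul_le_mul_of_nonneg_right (hA n) (Real.exp_pos _).le

theorem TG_cont (A : ℕ → ℂ) (hA : ∀ n, ‖A n‖ ≤ dn n) : ContinuousOn (TG A) (Ioi 0) := by
  intro y hy
  have hy0 : (0 : ℝ) < y := hy
  have h1 : ContinuousOn (TG A) (Ioi (y / 2)) := by
    unfold TG
    apply continuousOn_tsum (u := fun n : ℕ => dn n * Real.exp (-Real.pi * n * (y / 2)))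
    · intro n
      fun_prop
    · exact summ_crude (by linarith)
    · intro n x hx
      have hx' : y / 2 < x := hx
      rw [norm_mul, Complex.norm_real, Real.norm_eq_abs, abs_of_pos (Real.exp_pos _)]
      refine mul_le_mul (hA n) ?_ (Real.exp_pos _).le (dn_nonneg n)
      apply Real.exp_le_exp.mpr
      have hn : (0 : ℝ) ≤ n := Nat.cast_nonneg n
      have hpi := Real.pi_pos
      have : Real.pi * n * (y / 2) ≤ Real.pi * n * x :=
        mul_le_mul_of_nonneg_left hx'.le (by positivity)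
      linarith
  exact (h1.continuousAt (Ioi_mem_nhds (by linarith))).continuousWithinAt

theorem TG_top (A : ℕ → ℂ) (hA : ∀ n, ‖A n‖ ≤ dn n) :
    (TG A) =O[atTop] (fun y : ℝ => Real.exp (-(Real.pi / 2) * y)) := by
  refine IsBigO.of_bound (∑' n : ℕ, dn n * Real.exp (-Real.pi * n * (1 / 2))) ?_
  filter_upwards [eventually_ge_atTop 1] with y hy
  rw [Real.norm_eq_abs, abs_of_pos (Real.exp_pos _)]
  have hs := summ_crude (y := 1 / 2) (by norm_num)
  have hs' := hs.mul_right (Real.exp (-(Real.pi / 2) * y))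
  rw [← tsum_mul_right]
  unfold TG
  refine tsum_of_norm_bounded hs'.hasSum (fun n => ?_)
  rw [norm_mul, Complex.norm_real, Real.norm_eq_abs, abs_of_pos (Real.exp_pos _),
    mul_assoc (dn n)]
  rcases Nat.eq_zero_or_pos n with h0 | h0
  · subst h0
    have := hA 0
    simp only [dn, Nat.divisors_zero, Finset.card_empty, CharP.cast_eq_zero, zero_mul] at this
    have h1 : ‖A 0‖ = 0 := le_antisymm this (norm_nonneg _)
    rw [h1]
    simp [dn]
  refine mul_le_mul (hA n) ?_ (Real.exp_pos _).le (dn_nonneg n)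
  rw [← Real.exp_add]
  apply Real.exp_le_exp.mpr
  have hn : (1 : ℝ) ≤ n := by exact_mod_cast h0
  have hpi := Real.pi_pos
  have : 0 ≤ Real.pi * ((n : ℝ) - 1) * y / 2 + Real.pi * n * (y - 1) / 2 := by
    have h1 : 0 ≤ (n : ℝ) - 1 := by linarith
    have h2 : 0 ≤ y - 1 := by linarith
    positivity
  nlinarith [this]

theorem summ_div {σ : ℝ} (hσ : 1 < σ) :
    Summable (fun n : ℕ => dn n / (n : ℝ) ^ (σ + 1)) := by
  have h1 : LSeriesSummable 1 (σ : ℂ) := LSeriesSummable_one_iff.mpr (by simpa using hσ)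
  have h2 := h1.convolution h1
  have h3 := h2.norm
  refine Summable.of_nonneg_of_le (fun n => div_nonneg (dn_nonneg n) (by positivity))
    (fun n => ?_) h3
  rcases Nat.eq_zero_or_pos n with h | h
  · subst h
    simp [dn]
  rw [LSeries.term_of_ne_zero h.ne', LSeries.convolution_def, norm_div,
    Complex.norm_natCast_cpow_of_pos h, Complex.ofReal_re]
  have hn : (0 : ℝ) < n := by exact_mod_cast h
  have h4 : ‖∑ p ∈ n.divisorsAntidiagonal, (1 : ℕ → ℂ) p.1 * (1 : ℕ → ℂ) p.2‖ =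
      n.divisors.card := by
    simp only [Pi.one_apply, mul_one, Finset.sum_const, nsmul_eq_mul]
    rw [Complex.norm_natCast, ← Nat.map_div_right_divisors, Finset.card_map]
  rw [h4]
  have h6 : (n : ℝ) ^ (σ + 1) = (n : ℝ) ^ σ * n := by
    rw [Real.rpow_add hn, Real.rpow_one]
  rw [h6, dn, mul_div_mul_right _ _ hn.ne']

/-! ### Sums over fibres of the norm -/

theorem mem_CS (n : ℕ) (p : ℤ × ℤ) : p ∈ CS n ↔ p.1 ^ 2 + p.2 ^ 2 = n := by
  unfold CS
  rw [Finset.mem_filter, Finset.mem_product, Finset.mem_Icc, Finset.mem_Icc]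
  constructor
  · exact fun h => h.2
  · intro h
    refine ⟨⟨⟨?_, ?_⟩, ?_, ?_⟩, h⟩ <;> nlinarith [sq_nonneg p.1, sq_nonneg p.2]

/-- norm of a pair as a natural number -/
def nN (p : ℤ × ℤ) : ℕ := (p.1 ^ 2 + p.2 ^ 2).toNat

theorem nN_eq (p : ℤ × ℤ) (n : ℕ) : nN p = n ↔ p ∈ CS n := by
  rw [mem_CS, nN]
  have : 0 ≤ p.1 ^ 2 + p.2 ^ 2 := by positivity
  omega

theorem hasSum_fibre (F : ℤ × ℤ → ℂ) (S : ℂ) (h : HasSum F S) :
    HasSum (fun n : ℕ => ∑ p ∈ CS n, F p) S := by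
  have h1 : HasSum (F ∘ (Equiv.sigmaFiberEquiv nN)) S := (Equiv.hasSum_iff _).2 h
  refine h1.sigma (fun n => ?_)
  have h2 := (CS n).hasSum F
  have h3 : ({p : ℤ × ℤ | nN p = n} : Set (ℤ × ℤ)) = (CS n : Set (ℤ × ℤ)) := by
    ext p
    rw [Set.mem_ofPred_eq, nN_eq, Finset.mem_coe]
  have h4 : HasSum (F ∘ ((↑) : ({p : ℤ × ℤ | nN p = n} : Set (ℤ × ℤ)) → ℤ × ℤ))
      (∑ p ∈ CS n, F p) := by
    rw [hasSum_subtype_iff_indicator, h3, ← hasSum_subtype_iff_indicator]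
    exact h2
  exact h4

/-! ### The lattice sum -/

/-- the term of the lattice sum -/
noncomputable def ff (χ : GaussianInt →* ℂ) (y : ℝ) (a : GaussianInt) : ℂ :=
  (χ a) ^ 2 * (tc a) ^ 2 *
    (Real.exp (-Real.pi * ((a.re : ℝ) ^ 2 + (a.im : ℝ) ^ 2) * y) : ℂ)

theorem tc_norm_sq (a : GaussianInt) : ‖tc a‖ ^ 2 = (a.re : ℝ) ^ 2 + (a.im : ℝ) ^ 2 := by
  rw [← Complex.normSq_eq_norm_sq, Complex.normSq_apply, G1a.tc_re, G1a.tc_im]
  ring

theorem fibre_term (χ : GaussianInt →* ℂ) (y : ℝ) (n : ℕ) :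
    ∑ p ∈ CS n, ff χ y ⟨p.1, p.2⟩ =
      4 * (A2 χ n * (Real.exp (-Real.pi * n * y) : ℂ)) := by
  unfold A2 bb
  have h1 : ∀ p ∈ CS n, ff χ y ⟨p.1, p.2⟩ =
      (psi χ ⟨p.1, p.2⟩) ^ 2 * n * (Real.exp (-Real.pi * n * y) : ℂ) := by
    intro p hp
    rw [mem_CS] at hp
    have hp' : ((p.1 : ℤ) : ℝ) ^ 2 + ((p.2 : ℤ) : ℝ) ^ 2 = n := by exact_mod_cast hp
    unfold ff
    simp only [hp']
    congr 1
    rw [psi_apply]
    split_ifs with h
    · have : tc ⟨p.1, p.2⟩ = 0 := by rw [h]; simp [tc]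
      rw [this]; simp
    · have h2 : (‖tc ⟨p.1, p.2⟩‖ : ℂ) ^ 2 = n := by
        have := tc_norm_sq ⟨p.1, p.2⟩
        simp only [hp'] at this
        exact_mod_cast this
      have h3 : (‖tc ⟨p.1, p.2⟩‖ : ℂ) ≠ 0 := by
        exact_mod_cast (norm_ne_zero_iff.2 (G1a.tc_ne h))
      rw [← h2]
      field_simp
  rw [Finset.sum_congr rfl h1, ← Finset.sum_mul, ← Finset.sum_mul]
  ring

/-- Gaussian integers as pairs -/
def eG : ℤ × ℤ ≃ GaussianInt where
  toFun p := ⟨p.1, p.2⟩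
  invFun a := (a.re, a.im)
  left_inv _ := rfl
  right_inv _ := rfl

theorem TG_of_lattice {q : GaussianInt} {χ : GaussianInt →* ℂ} (H : HC q χ) {y : ℝ} (hy : 0 < y)
    (S : ℂ) (h : HasSum (ff χ y) S) : TG (A2 χ) y = S / 4 := by
  have h1 : HasSum (ff χ y ∘ eG) S := (Equiv.hasSum_iff eG).2 h
  have h2 := hasSum_fibre _ _ h1
  have h3 : (fun n : ℕ => ∑ p ∈ CS n, (ff χ y ∘ eG) p) =
      fun n : ℕ => 4 * (A2 χ n * (Real.exp (-Real.pi * n * y) : ℂ)) := by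
    funext n
    exact fibre_term χ y n
  rw [h3] at h2
  have h4 := (TG_hasSum (A2 χ) (A2_le H) hy).mul_left 4
  have h5 := h4.unique h2
  rw [← h5]; ring

/-- the statement of K2 -/
def K2St : Prop := ∀ (a b Y : ℝ), 0 < Y → ∃ V : ℂ,
    HasSum (fun p : ℤ × ℤ => ((((p.1 : ℝ) + a : ℝ) : ℂ) + (((p.2 : ℝ) + b : ℝ) : ℂ) * Complex.I) ^ 2 *
      (Real.exp (-Real.pi * Y * (((p.1 : ℝ) + a) ^ 2 + ((p.2 : ℝ) + b) ^ 2)) : ℂ)) V ∧
    HasSum (fun p : ℤ × ℤ => (-1 / (Y : ℂ) ^ 3) * ((p.1 : ℂ) + (p.2 : ℂ) * Complex.I) ^ 2 *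
      Complex.exp (2 * Real.pi * Complex.I * ((p.1 : ℂ) * a + (p.2 : ℂ) * b)) *
      (Real.exp (-Real.pi * ((p.1 : ℝ) ^ 2 + (p.2 : ℝ) ^ 2) / Y) : ℂ)) V

theorem norm_pair (p : ℤ × ℤ) : ‖((p.1 : ℂ) + (p.2 : ℂ) * Complex.I) ^ 2‖ =
    (p.1 : ℝ) ^ 2 + (p.2 : ℝ) ^ 2 := by
  have := tc_norm_sq ⟨p.1, p.2⟩
  rw [norm_pow]
  exact this

theorem summ_C0 (hK : K2St) : Summable (fun p : ℤ × ℤ => ((p.1 : ℝ) ^ 2 + (p.2 : ℝ) ^ 2) *
    Real.exp (-Real.pi * ((p.1 : ℝ) ^ 2 + (p.2 : ℝ) ^ 2) / 2)) := by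
  obtain ⟨V, _, h2⟩ := hK 0 0 2 (by norm_num)
  have h3 := h2.summable.norm.mul_left 8
  refine h3.congr (fun p => ?_)
  rw [norm_mul, norm_mul, norm_mul, norm_pair, Complex.norm_real, Real.norm_eq_abs,
    abs_of_pos (Real.exp_pos _)]
  have h4 : ‖Complex.exp (2 * Real.pi * Complex.I * ((p.1 : ℂ) * (0 : ℝ) + (p.2 : ℂ) * (0 : ℝ)))‖
      = 1 := by simp
  have h5 : ‖(-1 / (((2 : ℝ) : ℂ)) ^ 3 : ℂ)‖ = 1 / 8 := by
    rw [norm_div, norm_neg, norm_one, norm_pow, Complex.norm_real]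
    norm_num
  rw [h4, h5]
  ring

/-- bound for one class -/
theorem V_bound (hK : K2St) (a b Y : ℝ) (hY : 0 < Y) (hY1 : Y ≤ 1) (V : ℂ)
    (hV : HasSum (fun p : ℤ × ℤ => (-1 / (Y : ℂ) ^ 3) * ((p.1 : ℂ) + (p.2 : ℂ) * Complex.I) ^ 2 *
      Complex.exp (2 * Real.pi * Complex.I * ((p.1 : ℂ) * a + (p.2 : ℂ) * b)) *
      (Real.exp (-Real.pi * ((p.1 : ℝ) ^ 2 + (p.2 : ℝ) ^ 2) / Y) : ℂ)) V) :
    ‖V‖ ≤ (∑' p : ℤ × ℤ, ((p.1 : ℝ) ^ 2 + (p.2 : ℝ) ^ 2) *
      Real.exp (-Real.pi * ((p.1 : ℝ) ^ 2 + (p.2 : ℝ) ^ 2) / 2)) *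
        (1 / Y ^ 3 * Real.exp (-(Real.pi / (2 * Y)))) := by
  have hs := (summ_C0 hK).mul_right (1 / Y ^ 3 * Real.exp (-(Real.pi / (2 * Y))))
  rw [← tsum_mul_right, ← hV.tsum_eq]
  refine tsum_of_norm_bounded hs.hasSum (fun p => ?_)
  rw [norm_mul, norm_mul, norm_mul, norm_pair, Complex.norm_real, Real.norm_eq_abs,
    abs_of_pos (Real.exp_pos _)]
  have h4 : ‖Complex.exp (2 * Real.pi * Complex.I * ((p.1 : ℂ) * a + (p.2 : ℂ) * b))‖ = 1 := by
    have : (2 * Real.pi * Complex.I * ((p.1 : ℂ) * a + (p.2 : ℂ) * b) : ℂ) =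
        ((2 * Real.pi * ((p.1 : ℝ) * a + (p.2 : ℝ) * b) : ℝ) : ℂ) * Complex.I := by
      push_cast; ring
    rw [this, Complex.norm_exp_ofReal_mul_I]
  have h5 : ‖(-1 / ((Y : ℂ)) ^ 3 : ℂ)‖ = 1 / Y ^ 3 := by
    rw [norm_div, norm_neg, norm_one, norm_pow, Complex.norm_real, Real.norm_eq_abs,
      abs_of_pos hY]
  rw [h4, h5, mul_one]
  by_cases h0 : p.1 ^ 2 + p.2 ^ 2 = 0
  · have h0' : (p.1 : ℝ) ^ 2 + (p.2 : ℝ) ^ 2 = 0 := by exact_mod_cast h0
    rw [h0']; simp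
  · have h1 : 1 ≤ p.1 ^ 2 + p.2 ^ 2 := by
      have : 0 ≤ p.1 ^ 2 + p.2 ^ 2 := by positivity
      omega
    have h1' : (1 : ℝ) ≤ (p.1 : ℝ) ^ 2 + (p.2 : ℝ) ^ 2 := by exact_mod_cast h1
    set N : ℝ := (p.1 : ℝ) ^ 2 + (p.2 : ℝ) ^ 2 with hN
    have h6 : Real.exp (-Real.pi * N / Y) ≤
        Real.exp (-Real.pi * N / 2) * Real.exp (-(Real.pi / (2 * Y))) := by
      rw [← Real.exp_add]
      apply Real.exp_le_exp.mpr
      have hpi := Real.pi_pos
      have h7 : -Real.pi * N / Y = -(Real.pi * N / (2 * Y)) - Real.pi * N / (2 * Y) := by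
        field_simp; ring
      have h8 : Real.pi * N / 2 ≤ Real.pi * N / (2 * Y) := by
        apply div_le_div_of_nonneg_left (by positivity) (by positivity) (by linarith)
      have h9 : Real.pi / (2 * Y) ≤ Real.pi * N / (2 * Y) := by
        apply div_le_div_of_nonneg_right _ (by positivity)
        nlinarith
      rw [h7]
      have h10 : -Real.pi * N / 2 = -(Real.pi * N / 2) := by ring
      rw [h10]
      linarith
    calc 1 / Y ^ 3 * N * Real.exp (-Real.pi * N / Y)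
        ≤ 1 / Y ^ 3 * N * (Real.exp (-Real.pi * N / 2) * Real.exp (-(Real.pi / (2 * Y)))) :=
          mul_le_mul_of_nonneg_left h6 (by positivity)
      _ = N * Real.exp (-Real.pi * N / 2) * (1 / Y ^ 3 * Real.exp (-(Real.pi / (2 * Y)))) := by
          ring

/-- the lattice sum by classes and the resulting bound -/
theorem TG_small (hK : K2St) {q : GaussianInt} {χ : GaussianInt →* ℂ} (H : HC q χ) :
    ∃ C : ℝ, ∀ y : ℝ, 0 < y → y * ‖tc q‖ ^ 2 ≤ 1 → ‖TG (A2 χ) y‖ ≤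
      C * (1 / (y * ‖tc q‖ ^ 2) ^ 3 * Real.exp (-(Real.pi / (2 * (y * ‖tc q‖ ^ 2))))) := by
  have hq0 : tc q ≠ 0 := G1a.tc_ne H.q0
  have hqn : 0 < ‖tc q‖ := norm_pos_iff.2 hq0
  set C0 : ℝ := ∑' p : ℤ × ℤ, ((p.1 : ℝ) ^ 2 + (p.2 : ℝ) ^ 2) *
      Real.exp (-Real.pi * ((p.1 : ℝ) ^ 2 + (p.2 : ℝ) ^ 2) / 2) with hC0
  refine ⟨(Rep q).card * (‖tc q‖ ^ 2 * C0) / 4, fun y hy hy1 => ?_⟩
  set Y : ℝ := y * ‖tc q‖ ^ 2 with hY
  have hY0 : 0 < Y := by positivity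
  choose V hV1 hV2 using fun c : GaussianInt => hK (tc c / tc q).re (tc c / tc q).im Y hY0
  have hVb : ∀ c, ‖V c‖ ≤ C0 * (1 / Y ^ 3 * Real.exp (-(Real.pi / (2 * Y)))) := fun c =>
    V_bound hK _ _ Y hY0 hy1 (V c) (hV2 c)
  have hsum : HasSum (ff χ y) (∑ c ∈ Rep q, (χ c) ^ 2 * (tc q) ^ 2 * V c) := by
    refine hasSum_rep q H.q0 (ff χ y) _ (fun c _ => ?_)
    have h1 := (hV1 c).mul_left ((χ c) ^ 2 * (tc q) ^ 2)
    have h2 : HasSum ((fun n : GaussianInt => ff χ y (c + q * n)) ∘ eG)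
        ((χ c) ^ 2 * (tc q) ^ 2 * V c) := by
      refine h1.congr_fun ?_
      intro p
      have e0 : (eG p) = (⟨p.1, p.2⟩ : GaussianInt) := rfl
      have e1 : χ (c + q * eG p) = χ c := H.per _ _ ⟨eG p, by ring⟩
      have e2 : tc (c + q * eG p) = tc q * (((((p.1 : ℝ) + (tc c / tc q).re : ℝ) : ℂ)) +
          (((p.2 : ℝ) + (tc c / tc q).im : ℝ) : ℂ) * Complex.I) := by
        rw [G1a.tc_add, G1a.tc_mul]
        have e3 : tc (eG p) = (p.1 : ℂ) + (p.2 : ℂ) * Complex.I := rfl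
        have e4 : ((((p.1 : ℝ) + (tc c / tc q).re : ℝ) : ℂ)) +
          (((p.2 : ℝ) + (tc c / tc q).im : ℝ) : ℂ) * Complex.I =
            ((p.1 : ℂ) + (p.2 : ℂ) * Complex.I) + tc c / tc q := by
          conv_rhs => rw [← Complex.re_add_im (tc c / tc q)]
          push_cast
          ring
        rw [e3, e4]
        field_simp
        ring
      have e5 : ((c + q * eG p).re : ℝ) ^ 2 + ((c + q * eG p).im : ℝ) ^ 2 = ‖tc q‖ ^ 2 *
          (((p.1 : ℝ) + (tc c / tc q).re) ^ 2 + ((p.2 : ℝ) + (tc c / tc q).im) ^ 2) := by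
        rw [← tc_norm_sq, e2, norm_mul, mul_pow]
        congr 1
        rw [← Complex.normSq_eq_norm_sq, Complex.normSq_apply]
        simp only [Complex.add_re, Complex.add_im, Complex.mul_re, Complex.mul_im,
          Complex.ofReal_re, Complex.ofReal_im, Complex.I_re, Complex.I_im]
        ring
      simp only [Function.comp, ff]
      rw [e1, e2, e5]
      have e6 : -Real.pi * (‖tc q‖ ^ 2 *
          (((p.1 : ℝ) + (tc c / tc q).re) ^ 2 + ((p.2 : ℝ) + (tc c / tc q).im) ^ 2)) * y =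
          -Real.pi * Y * (((p.1 : ℝ) + (tc c / tc q).re) ^ 2 +
            ((p.2 : ℝ) + (tc c / tc q).im) ^ 2) := by
        rw [hY]; ring
      rw [e6]
      ring
    exact (Equiv.hasSum_iff eG).1 h2
  rw [TG_of_lattice H hy _ hsum, norm_div]
  have h4 : ‖(4 : ℂ)‖ = 4 := by simp
  rw [h4, div_mul_eq_mul_div]
  refine div_le_div_of_nonneg_right ?_ (by norm_num)
  refine (norm_sum_le _ _).trans ?_
  have h5 : ∀ c ∈ Rep q, ‖(χ c) ^ 2 * (tc q) ^ 2 * V c‖ ≤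
      ‖tc q‖ ^ 2 * (C0 * (1 / Y ^ 3 * Real.exp (-(Real.pi / (2 * Y))))) := by
    intro c _
    rw [norm_mul, norm_mul, norm_pow, norm_pow]
    have h6 : ‖χ c‖ ^ 2 ≤ 1 := pow_le_one₀ (norm_nonneg _) (chi_norm_le H c)
    calc ‖χ c‖ ^ 2 * ‖tc q‖ ^ 2 * ‖V c‖ ≤ 1 * ‖tc q‖ ^ 2 * ‖V c‖ := by gcongr
      _ ≤ 1 * ‖tc q‖ ^ 2 * (C0 * (1 / Y ^ 3 * Real.exp (-(Real.pi / (2 * Y))))) :=
          mul_le_mul_of_nonneg_left (hVb c) (by positivity)
      _ = _ := by ring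
  refine (Finset.sum_le_card_nsmul _ _ _ h5).trans (le_of_eq ?_)
  rw [nsmul_eq_mul]
  ring

theorem TG_zero (hK : K2St) {q : GaussianInt} {χ : GaussianInt →* ℂ} (H : HC q χ) (N : ℕ) :
    (TG (A2 χ)) =O[𝓝[>] 0] (fun y : ℝ => y ^ (N : ℝ)) := by
  obtain ⟨C, hC⟩ := TG_small hK H
  have hq0 : tc q ≠ 0 := G1a.tc_ne H.q0
  have hqn : 0 < ‖tc q‖ := norm_pos_iff.2 hq0
  have hC' : ∀ y : ℝ, 0 < y → y * ‖tc q‖ ^ 2 ≤ 1 → ‖TG (A2 χ) y‖ ≤
      (|C| * (((N + 3).factorial : ℝ) * (2 / Real.pi) ^ (N + 3) * (‖tc q‖ ^ 2) ^ N)) *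
        ‖y ^ (N : ℝ)‖ := by
    intro y hy hy1
    refine (hC y hy hy1).trans ?_
    rw [Real.rpow_natCast, Real.norm_eq_abs, abs_of_pos (by positivity : (0 : ℝ) < y ^ N)]
    set Y : ℝ := y * ‖tc q‖ ^ 2 with hY
    have hY0 : 0 < Y := by positivity
    have hpi := Real.pi_pos
    have hu : 0 ≤ Real.pi / (2 * Y) := by positivity
    have h1 := Real.pow_div_factorial_le_exp (Real.pi / (2 * Y)) hu (N + 3)
    have hf : (0 : ℝ) < ((N + 3).factorial : ℝ) := by exact_mod_cast Nat.factorial_pos _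
    have h2 : Real.exp (-(Real.pi / (2 * Y))) ≤
        ((N + 3).factorial : ℝ) / (Real.pi / (2 * Y)) ^ (N + 3) := by
      rw [Real.exp_neg, inv_le_comm₀ (Real.exp_pos _) (by positivity)]
      rw [inv_div]
      exact h1
    have h3 : 1 / Y ^ 3 * (((N + 3).factorial : ℝ) / (Real.pi / (2 * Y)) ^ (N + 3)) =
        ((N + 3).factorial : ℝ) * (2 / Real.pi) ^ (N + 3) * (‖tc q‖ ^ 2) ^ N * y ^ N := by
      have h4 : Real.pi / (2 * Y) = (2 / Real.pi)⁻¹ * Y⁻¹ := by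
        rw [inv_div]; field_simp
      have h5 : (‖tc q‖ ^ 2) ^ N * y ^ N = Y ^ N := by rw [← mul_pow, hY, mul_comm y]
      have h6 : (2 / Real.pi : ℝ) ≠ 0 := by positivity
      rw [h4, mul_assoc _ _ (y ^ N), h5, mul_pow (2 / Real.pi)⁻¹ Y⁻¹ (N + 3), inv_pow, inv_pow,
        pow_add Y N 3]
      have hY3 : Y ≠ 0 := hY0.ne'
      clear_value Y
      generalize (2 / Real.pi : ℝ) = t at h6
      field_simp
    have h7 : 0 ≤ 1 / Y ^ 3 * Real.exp (-(Real.pi / (2 * Y))) := by positivity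
    calc C * (1 / Y ^ 3 * Real.exp (-(Real.pi / (2 * Y))))
        ≤ |C| * (1 / Y ^ 3 * Real.exp (-(Real.pi / (2 * Y)))) :=
          mul_le_mul_of_nonneg_right (le_abs_self C) h7
      _ ≤ |C| * (1 / Y ^ 3 * (((N + 3).factorial : ℝ) / (Real.pi / (2 * Y)) ^ (N + 3))) := by
          gcongr
      _ = _ := by rw [h3]; ring
  refine IsBigO.of_bound
    (|C| * (((N + 3).factorial : ℝ) * (2 / Real.pi) ^ (N + 3) * (‖tc q‖ ^ 2) ^ N)) ?_
  have hev : ∀ᶠ y : ℝ in 𝓝[>] 0, y < 1 / ‖tc q‖ ^ 2 :=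
    (eventually_lt_nhds (by positivity)).filter_mono nhdsWithin_le_nhds
  filter_upwards [hev, self_mem_nhdsWithin] with y hy1 hy0
  refine hC' y hy0 ?_
  rw [lt_div_iff₀ (by positivity)] at hy1
  exact hy1.le

theorem mellin_entire (hK : K2St) {q : GaussianInt} {χ : GaussianInt →* ℂ} (H : HC q χ) :
    Differentiable ℂ (mellin (TG (A2 χ))) := by
  intro s
  obtain ⟨N, hN⟩ := exists_nat_gt (-s.re)
  have h0 := TG_zero hK H N
  have h1 : (fun y : ℝ => y ^ (N : ℝ)) = fun y : ℝ => y ^ (-(-(N : ℝ))) := by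
    funext y; rw [neg_neg]
  rw [h1] at h0
  exact mellin_differentiableAt_of_isBigO_rpow_exp (a := Real.pi / 2) (by positivity)
    ((TG_cont (A2 χ) (A2_le H)).locallyIntegrableOn measurableSet_Ioi)
    (TG_top (A2 χ) (A2_le H)) h0 (by linarith)

end T2

open T2 in
/-- T2 with the statement of K2 as a hypothesis -/
theorem psi_sq_of (hK : K2St) (q : GaussianInt) (χ : GaussianInt →* ℂ) (H : HC q χ) :
    ∃ G : ℂ → ℂ, Differentiable ℂ G ∧ ∀ s : ℂ, 1 < s.re →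
      HasSum (fun n : ℕ => bb (fun a => (psi χ a) ^ 2) n * (n : ℂ) ^ (-s)) (G s) := by
  refine ⟨fun s => (Real.pi : ℂ) ^ (s + 1) * (Complex.Gamma (s + 1))⁻¹ *
    mellin (TG (A2 χ)) (s + 1), ?_, ?_⟩
  · have hG : Differentiable ℂ (fun s : ℂ => (Complex.Gamma (s + 1))⁻¹) :=
      Complex.differentiable_one_div_Gamma.comp (by fun_prop)
    have hc : Differentiable ℂ (fun s : ℂ => (Real.pi : ℂ) ^ (s + 1)) := by
      intro s
      exact (DifferentiableAt.const_cpow (by fun_prop)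
        (Or.inl (by exact_mod_cast Real.pi_ne_zero)))
    exact (hc.mul hG).mul ((mellin_entire hK H).comp (by fun_prop))
  · intro s hs
    have hre : (s + 1).re = s.re + 1 := by
      rw [Complex.add_re]; norm_num
    have hpos : 0 < (s + 1).re := by rw [hre]; linarith
    have hA0 : A2 χ 0 = 0 := by unfold A2; simp
    have h1 := hasSum_mellin_pi_mul (a := A2 χ) (q := fun n : ℕ => (n : ℝ)) (F := TG (A2 χ))
      (s := s + 1) (fun n => by
        rcases Nat.eq_zero_or_pos n with h | h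
        · left; rw [h, hA0]
        · right; exact_mod_cast h) hpos (fun t ht => TG_hasSum (A2 χ) (A2_le H) ht) (by
        rw [hre]
        refine Summable.of_nonneg_of_le (fun n => by positivity) (fun n => ?_) (summ_div hs)
        exact div_le_div_of_nonneg_right (A2_le H n) (by positivity))
    have h2 := h1.mul_left ((Real.pi : ℂ) ^ (s + 1) * (Complex.Gamma (s + 1))⁻¹)
    have h4 : (fun n : ℕ => bb (fun a => (psi χ a) ^ 2) n * (n : ℂ) ^ (-s)) =
        fun n : ℕ => (Real.pi : ℂ) ^ (s + 1) * (Complex.Gamma (s + 1))⁻¹ *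
          ((Real.pi : ℂ) ^ (-(s + 1)) * Complex.Gamma (s + 1) * A2 χ n /
            ((n : ℝ) : ℂ) ^ (s + 1)) := by
      funext n
      rcases Nat.eq_zero_or_pos n with h | h
      · subst h
        have h5 := b2_le H 0
        simp only [Nat.divisors_zero, Finset.card_empty, CharP.cast_eq_zero] at h5
        have h6 : bb (fun a => (psi χ a) ^ 2) 0 = 0 := norm_eq_zero.1 (le_antisymm h5 (norm_nonneg _))
        rw [hA0, h6]; simp
      · have hG : Complex.Gamma (s + 1) ≠ 0 := Complex.Gamma_ne_zero_of_re_pos hpos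
        have hP : (Real.pi : ℂ) ^ (s + 1) ≠ 0 := by
          rw [Complex.cpow_ne_zero_iff]; left
          exact_mod_cast Real.pi_ne_zero
        have hn0 : (n : ℂ) ≠ 0 := by exact_mod_cast h.ne'
        have hN : ((n : ℂ) ^ (s + 1)) = (n : ℂ) ^ s * n := by
          rw [Complex.cpow_add _ _ hn0, Complex.cpow_one]
        have hs0 : (n : ℂ) ^ s ≠ 0 := by
          rw [Complex.cpow_ne_zero_iff]; left; exact hn0
        rw [Complex.cpow_neg, Complex.cpow_neg, Complex.ofReal_natCast, hN]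
        unfold A2
        generalize (Real.pi : ℂ) ^ (s + 1) = P at hP ⊢
        generalize Complex.Gamma (s + 1) = G at hG ⊢
        generalize ((n : ℂ) ^ s) = N at hs0 ⊢
        field_simp
    rw [h4]
    exact h2

theorem psi_sq (q : GaussianInt) (χ : GaussianInt →* ℂ) (H : HC q χ) :
    ∃ G : ℂ → ℂ, Differentiable ℂ G ∧ ∀ s : ℂ, 1 < s.re →
      HasSum (fun n : ℕ => bb (fun a => (psi χ a) ^ 2) n * (n : ℂ) ^ (-s)) (G s) :=
  psi_sq_of kern2_fe q χ H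

end Pool.Agent.H304R3.HK
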