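import Pool.Agent.H304R3.HK.Defs
import Pool.Agent.H304R3.HK.RepH

set_option autoImplicit false

namespace Pool.Agent.H304R3.HK

open Finset

namespace G1b

variable {q : GaussianInt}

/-- invariance of sums over the classes under multiplication by a unit -/
theorem sum_inv (hrep : ∀ a : GaussianInt, ∃! c : GaussianInt, c ∈ Rep q ∧ q ∣ a - c)
    (f : GaussianInt → ℂ) (hf : ∀ a b, q ∣ a - b → f a = f b) (u : GaussianInt)
    (hu : IsCoprime u q) : ∑ c ∈ Rep q, f (u * c) = ∑ c ∈ Rep q, f c := by
  choose r hr hr' using hrep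
  have huniq : ∀ a c : GaussianInt, c ∈ Rep q → q ∣ a - c → c = r a := fun a c h1 h2 =>
    hr' a c ⟨h1, h2⟩
  obtain ⟨v, w, hvw⟩ := hu
  refine Finset.sum_bij (fun c _ => r (u * c)) (fun c _ => (hr _).1) ?_ ?_ ?_
  · intro c hc c' hc' h
    have h1 : q ∣ u * c - r (u * c) := (hr _).2
    have h2 : q ∣ u * c' - r (u * c') := (hr _).2
    have h3 : q ∣ u * (c - c') := by
      have e : u * (c - c') = (u * c - r (u * c)) - (u * c' - r (u * c')) := by
        rw [h]; ring
      rw [e]; exact dvd_sub h1 h2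
    have h4 : q ∣ c - c' := by
      have e : c - c' = v * (u * (c - c')) + q * (w * (c - c')) := by
        linear_combination (-(c - c')) * hvw
      rw [e]
      exact dvd_add (h3.mul_left _) (dvd_mul_right _ _)
    rw [huniq c c' hc' h4]
    exact huniq c c hc (by simp)
  · intro c hc
    refine ⟨r (v * c), (hr _).1, ?_⟩
    symm
    apply huniq _ _ hc
    have h1 : q ∣ v * c - r (v * c) := (hr _).2
    have e : u * r (v * c) - c = -(u * (v * c - r (v * c))) - q * (w * c) := by
      linear_combination c * hvw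
    rw [e]
    exact dvd_sub ((dvd_neg).2 (h1.mul_left _)) (dvd_mul_right _ _)
  · intro c _
    exact hf _ _ (hr _).2

/-- the Gauss sum, with the facts on representatives as hypotheses -/
theorem gs_aux (hrep : ∀ a : GaussianInt, ∃! c : GaussianInt, c ∈ Rep q ∧ q ∣ a - c)
    (hper : ∀ x y : GaussianInt, q ∣ x - y → eq_ q x = eq_ q y)
    (χ : GaussianInt →* ℂ) (H : HC q χ) (m : GaussianInt) :
    GS q χ m = GS q χ 1 * (starRingEnd ℂ) (χ m) := by
  have hf : ∀ k a b : GaussianInt, q ∣ a - b → χ a * eq_ q (k * a) = χ b * eq_ q (k * b) := by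
    intro k a b h
    rw [H.per a b h, hper (k * a) (k * b) (by rw [← mul_sub]; exact h.mul_left _)]
  by_cases hm : IsCoprime m q
  · obtain ⟨v, w, hvw⟩ := hm
    have hv : IsCoprime v q := ⟨m, w, by linear_combination hvw⟩
    have h1 := sum_inv hrep (fun c => χ c * eq_ q (m * c)) (hf m) v hv
    have h2 : χ v * χ m = 1 := by
      rw [← map_mul, H.per (v * m) 1 ⟨-w, by linear_combination hvw⟩, map_one]
    have h3 : ‖χ m‖ = 1 := H.nrm m ⟨v, w, hvw⟩
    have h4 : χ v = (starRingEnd ℂ) (χ m) := by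
      have h5 : χ m * (starRingEnd ℂ) (χ m) = 1 := by
        rw [Complex.mul_conj, Complex.normSq_eq_norm_sq, h3]; simp
      calc χ v = χ v * (χ m * (starRingEnd ℂ) (χ m)) := by rw [h5, mul_one]
        _ = (χ v * χ m) * (starRingEnd ℂ) (χ m) := by ring
        _ = _ := by rw [h2, one_mul]
    unfold GS
    rw [← h1, ← h4, sum_mul]
    refine sum_congr rfl fun c _ => ?_
    rw [map_mul, hper (m * (v * c)) (1 * c) ⟨-w * c, by linear_combination c * hvw⟩]
    ring
  · have hm0 : χ m = 0 := by
      by_contra h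
      exact hm ((H.supp m).1 h)
    rw [hm0, map_zero, mul_zero]
    set g := EuclideanDomain.gcd m q with hg
    have hgm : g ∣ m := EuclideanDomain.gcd_dvd_left m q
    have hgq : g ∣ q := EuclideanDomain.gcd_dvd_right m q
    have hgu : ¬ IsUnit g := fun h => hm (EuclideanDomain.gcd_isUnit_iff.1 h)
    obtain ⟨m1, hm1⟩ := hgm
    obtain ⟨d, hd⟩ := hgq
    have hd0 : d ≠ 0 := by
      rintro rfl
      exact H.q0 (by rw [hd, mul_zero])
    have hqd : ¬ q ∣ d := by
      rintro ⟨k, hk⟩
      apply hgu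
      refine IsUnit.of_mul_eq_one k ?_
      apply mul_right_cancel₀ hd0
      rw [one_mul]
      calc g * k * d = (g * d) * k := by ring
        _ = q * k := by rw [← hd]
        _ = d := hk.symm
    obtain ⟨a, ha, ⟨e, he⟩, hχ⟩ := H.prim d ⟨g, by rw [hd]; ring⟩ hqd
    have h1 := sum_inv hrep (fun c => χ c * eq_ q (m * c)) (hf m) a ha
    have h2 : ∑ c ∈ Rep q, χ (a * c) * eq_ q (m * (a * c)) = χ a * GS q χ m := by
      unfold GS
      rw [mul_sum]
      refine sum_congr rfl fun c _ => ?_
      rw [map_mul, hper (m * (a * c)) (m * c) ⟨m1 * e * c, by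
        rw [hd]
        linear_combination (a * c - c) * hm1 + (g * m1 * c) * he⟩]
      ring
    have h3 : χ a * GS q χ m = GS q χ m := by
      rw [← h2]; exact h1
    have h4 : (χ a - 1) * GS q χ m = 0 := by linear_combination h3
    rcases mul_eq_zero.1 h4 with h5 | h5
    · exact absurd (by linear_combination h5) hχ
    · exact h5

end G1b

theorem gs_eq (q : GaussianInt) (χ : GaussianInt →* ℂ) (H : HC q χ) (m : GaussianInt) :
    GS q χ m = GS q χ 1 * (starRingEnd ℂ) (χ m) :=
  G1b.gs_aux (rep_spec q H.q0) (eq_per q H.q0) χ H m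

end Pool.Agent.H304R3.HK
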