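import Pool.Agent.H304R3.HK.Defs
import Pool.Agent.H304R2.EC.Theta

set_option autoImplicit false

/-!
Poisson summation for `x e^{-π Y |x|²}` on `ℤ[i] + z`.
-/

open HurwitzZeta

namespace Pool.Agent.H304R3.HK

theorem k1_pair (a b Y : ℝ) (hY : 0 < Y) :
    HasSum (fun p : ℤ × ℤ => (((p.1 : ℝ) + a) * Real.exp (-Real.pi * ((p.1 : ℝ) + a) ^ 2 * Y)) *
      Real.exp (-Real.pi * ((p.2 : ℝ) + b) ^ 2 * Y))
      (oddKernel (a : UnitAddCircle) Y * evenKernel (b : UnitAddCircle) Y) :=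
  Pool.Agent.H304R2.EC.hasSum_mul_pairR
    (fun m : ℤ => ((m : ℝ) + a) * Real.exp (-Real.pi * ((m : ℝ) + a) ^ 2 * Y))
    (fun m : ℤ => Real.exp (-Real.pi * ((m : ℝ) + b) ^ 2 * Y)) _ _
    (hasSum_int_oddKernel a hY) (hasSum_int_evenKernel b hY)

theorem kern_fe (a b Y : ℝ) (hY : 0 < Y) : ∃ V : ℂ,
    HasSum (fun p : ℤ × ℤ => ((((p.1 : ℝ) + a : ℝ) : ℂ) + (((p.2 : ℝ) + b : ℝ) : ℂ) * Complex.I) *
      (Real.exp (-Real.pi * Y * (((p.1 : ℝ) + a) ^ 2 + ((p.2 : ℝ) + b) ^ 2)) : ℂ)) V ∧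
    HasSum (fun p : ℤ × ℤ => (-Complex.I / (Y : ℂ) ^ 2) * ((p.1 : ℂ) + (p.2 : ℂ) * Complex.I) *
      Complex.exp (2 * Real.pi * Complex.I * ((p.1 : ℂ) * a + (p.2 : ℂ) * b)) *
      (Real.exp (-Real.pi * ((p.1 : ℝ) ^ 2 + (p.2 : ℝ) ^ 2) / Y) : ℂ)) V := by
  refine ⟨((oddKernel (a : UnitAddCircle) Y * evenKernel (b : UnitAddCircle) Y : ℝ) : ℂ) +
    ((oddKernel (b : UnitAddCircle) Y * evenKernel (a : UnitAddCircle) Y : ℝ) : ℂ) * Complex.I,
    ?_, ?_⟩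
  · have h1 := Complex.hasSum_ofReal.mpr (k1_pair a b Y hY)
    have h2 := (Complex.hasSum_ofReal.mpr ((Equiv.prodComm ℤ ℤ).hasSum_iff.mpr
      (k1_pair b a Y hY))).mul_right Complex.I
    refine (h1.add h2).congr_fun ?_
    intro p
    simp only [Function.comp, Equiv.prodComm_apply, Prod.fst_swap, Prod.snd_swap]
    have e1 : Real.exp (-Real.pi * Y * (((p.1 : ℝ) + a) ^ 2 + ((p.2 : ℝ) + b) ^ 2)) =
        Real.exp (-Real.pi * ((p.1 : ℝ) + a) ^ 2 * Y) *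
          Real.exp (-Real.pi * ((p.2 : ℝ) + b) ^ 2 * Y) := by
      rw [← Real.exp_add]
      congr 1
      ring
    rw [e1]
    simp only [Complex.ofReal_mul, Complex.ofReal_add]
    ring
  · have h1 := (Pool.Agent.H304R2.EC.dual_pair a b Y hY).mul_left (1 / (Y : ℂ) ^ 2)
    have h2 := (((Equiv.prodComm ℤ ℤ).hasSum_iff.mpr
      (Pool.Agent.H304R2.EC.dual_pair b a Y hY)).mul_left (1 / (Y : ℂ) ^ 2)).mul_right Complex.I
    have h3 := h1.add h2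
    rw [Pool.Agent.H304R2.EC.kernel_fe _ _ Y hY, Pool.Agent.H304R2.EC.kernel_fe _ _ Y hY]
    have e0 : ((1 / Y ^ 2 * (sinKernel (a : UnitAddCircle) (1 / Y) *
        cosKernel (b : UnitAddCircle) (1 / Y)) : ℝ) : ℂ) +
        ((1 / Y ^ 2 * (sinKernel (b : UnitAddCircle) (1 / Y) *
        cosKernel (a : UnitAddCircle) (1 / Y)) : ℝ) : ℂ) * Complex.I =
        1 / (Y : ℂ) ^ 2 * ((sinKernel (a : UnitAddCircle) (1 / Y) : ℂ) *
          (cosKernel (b : UnitAddCircle) (1 / Y) : ℂ)) +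
        1 / (Y : ℂ) ^ 2 * ((sinKernel (b : UnitAddCircle) (1 / Y) : ℂ) *
          (cosKernel (a : UnitAddCircle) (1 / Y) : ℂ)) * Complex.I := by
      push_cast
      ring
    rw [e0]
    refine h3.congr_fun ?_
    intro p
    simp only [Function.comp, Equiv.prodComm_apply, Prod.fst_swap, Prod.snd_swap]
    have e1 : (Real.exp (-Real.pi * ((p.1 : ℝ) ^ 2 + (p.2 : ℝ) ^ 2) / Y) : ℂ) =
        (Real.exp (-Real.pi * p.1 ^ 2 * (1 / Y)) : ℂ) *
        (Real.exp (-Real.pi * p.2 ^ 2 * (1 / Y)) : ℂ) := by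
      rw [← Complex.ofReal_mul, ← Real.exp_add]
      congr 2
      ring
    have e2 : Complex.exp (2 * Real.pi * Complex.I * ((p.1 : ℂ) * a + (p.2 : ℂ) * b)) =
        Complex.exp (2 * Real.pi * Complex.I * a * p.1) *
          Complex.exp (2 * Real.pi * Complex.I * b * p.2) := by
      rw [← Complex.exp_add]
      congr 1
      ring
    rw [e1, e2]
    have hI : Complex.I ^ 2 = -1 := Complex.I_sq
    ring_nf

end Pool.Agent.H304R3.HK
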