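import Pool.Agent.H304R3.HK.Defs
import Pool.Agent.H304R2.EC.Sum4
import Pool.Agent.H304R3.HK.RepH
import Pool.Agent.H304R3.HK.GaussH
import Pool.Agent.H304R3.HK.KernH

set_option autoImplicit false

/-!
TEAM Q3 (helper304), task T1: functional equation of the theta series of a Hecke character.
-/

open Finset Filter Topology

namespace Pool.Agent.H304R3.HK

namespace T1

open Pool.Agent.H304R2.EC (s4_summable_pair s4_natAbs)

/-- pairs of integers and Gaussian integers -/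
def eqv : ℤ × ℤ ≃ GaussianInt where
  toFun p := ⟨p.1, p.2⟩
  invFun a := (a.re, a.im)
  left_inv _ := rfl
  right_inv _ := rfl

theorem tc_mul (a b : GaussianInt) : tc (a * b) = tc a * tc b := by
  simp only [tc, Zsqrtd.re_mul, Zsqrtd.im_mul]
  push_cast
  linear_combination (-(a.im : ℂ) * b.im) * Complex.I_sq

theorem tc_add (a b : GaussianInt) : tc (a + b) = tc a + tc b := by
  simp only [tc, Zsqrtd.re_add, Zsqrtd.im_add]
  push_cast
  ring

theorem tc_re (a : GaussianInt) : (tc a).re = a.re := by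
  simp [tc]

theorem tc_im (a : GaussianInt) : (tc a).im = a.im := by
  simp [tc]

theorem tc_star (a : GaussianInt) : tc (star a) = (starRingEnd ℂ) (tc a) := by
  apply Complex.ext
  · rw [tc_re, Complex.conj_re, tc_re, Zsqrtd.re_star]
  · rw [tc_im, Complex.conj_im, tc_im, Zsqrtd.im_star]
    push_cast
    ring

theorem tc_norm (a : GaussianInt) : ‖tc a‖ ^ 2 = (a.re : ℝ) ^ 2 + (a.im : ℝ) ^ 2 := by
  rw [Complex.sq_norm, Complex.normSq_apply, tc_re, tc_im]
  ring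

theorem tc_ne (a : GaussianInt) (ha : a ≠ 0) : tc a ≠ 0 := by
  intro h
  apply ha
  have h1 := tc_re a
  have h2 := tc_im a
  rw [h] at h1 h2
  rw [Zsqrtd.ext_iff]
  constructor
  · have : ((a.re : ℤ) : ℝ) = ((0 : ℤ) : ℝ) := by rw [← h1]; simp
    exact_mod_cast this
  · have : ((a.im : ℤ) : ℝ) = ((0 : ℤ) : ℝ) := by rw [← h2]; simp
    exact_mod_cast this

theorem chi_le (q : GaussianInt) (χ : GaussianInt →* ℂ) (H : HC q χ) (a : GaussianInt) :
    ‖χ a‖ ≤ 1 := by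
  by_cases h : IsCoprime a q
  · exact (H.nrm a h).le
  · have h2 : χ a = 0 := by
      by_contra h2
      exact h ((H.supp a).1 h2)
    rw [h2]
    simp

/-- the summand -/
noncomputable def ft (χ : GaussianInt →* ℂ) (y : ℝ) (a : GaussianInt) : ℂ :=
  χ a * tc a * (Real.exp (-Real.pi * ‖tc a‖ ^ 2 * y) : ℂ)

theorem ft_summable (q : GaussianInt) (χ : GaussianInt →* ℂ) (H : HC q χ) (y : ℝ) (hy : 0 < y) :
    Summable (ft χ y ∘ eqv) := by
  have hd : 0 < Real.pi * y := mul_pos Real.pi_pos hy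
  refine Summable.of_norm_bounded ((s4_summable_pair hd 1 0).add (s4_summable_pair hd 0 1)) ?_
  intro p
  have h1 : ‖tc (eqv p)‖ ≤ |(p.1 : ℝ)| + |(p.2 : ℝ)| := by
    refine (norm_add_le _ _).trans ?_
    rw [norm_mul, Complex.norm_I, mul_one]
    have e1 : ‖((eqv p).re : ℂ)‖ = |(p.1 : ℝ)| := by
      rw [Complex.norm_intCast]
      rfl
    have e2 : ‖((eqv p).im : ℂ)‖ = |(p.2 : ℝ)| := by
      rw [Complex.norm_intCast]
      rfl
    rw [e1, e2]
  have e3 : -Real.pi * ‖tc (eqv p)‖ ^ 2 * y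
      = -(Real.pi * y) * ((p.1 : ℝ) ^ 2 + (p.2 : ℝ) ^ 2) := by
    rw [tc_norm]
    have : ((eqv p).re : ℝ) = p.1 := rfl
    have : ((eqv p).im : ℝ) = p.2 := rfl
    simp only [eqv, Equiv.coe_fn_mk]
    ring
  simp only [Function.comp_apply, ft]
  rw [norm_mul, norm_mul, Complex.norm_real, Real.norm_eq_abs, abs_of_pos (Real.exp_pos _), e3]
  have h2 := chi_le q χ H (eqv p)
  have h3 : ‖χ (eqv p)‖ * ‖tc (eqv p)‖ ≤ 1 * (|(p.1 : ℝ)| + |(p.2 : ℝ)|) :=
    mul_le_mul h2 h1 (norm_nonneg _) zero_le_one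
  have h4 := mul_le_mul_of_nonneg_right h3
    (Real.exp_pos (-(Real.pi * y) * ((p.1 : ℝ) ^ 2 + (p.2 : ℝ) ^ 2))).le
  refine h4.trans (le_of_eq ?_)
  ring

theorem mem_CS (n : ℕ) (p : ℤ × ℤ) : p ∈ CS n ↔ p.1 ^ 2 + p.2 ^ 2 = n := by
  unfold CS
  simp only [mem_filter, mem_product, mem_Icc]
  constructor
  · rintro ⟨-, h⟩
    exact h
  · intro h
    refine ⟨?_, h⟩
    have h1 : ∀ x : ℤ, |x| ≤ x ^ 2 := by
      intro x
      rcases eq_or_ne x 0 with h | h
      · subst h; simp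
      · have : 1 ≤ |x| := Int.one_le_abs h
        rw [← sq_abs]
        nlinarith
    have h2 := h1 p.1
    have h3 := h1 p.2
    have h4 := sq_nonneg p.1
    have h5 := sq_nonneg p.2
    refine ⟨⟨?_, ?_⟩, ?_, ?_⟩
    · have := neg_abs_le p.1; linarith
    · have := le_abs_self p.1; linarith
    · have := neg_abs_le p.2; linarith
    · have := le_abs_self p.2; linarith

theorem psi_tc (χ : GaussianInt →* ℂ) (a : GaussianInt) : psi χ a * (‖tc a‖ : ℂ) = χ a * tc a := by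
  by_cases ha : a = 0
  · subst ha
    simp [tc]
  · have h1 : (‖tc a‖ : ℂ) ≠ 0 := by
      rw [Complex.ofReal_ne_zero, norm_ne_zero_iff]
      exact tc_ne a ha
    have h2 : psi χ a = χ a * (tc a / (‖tc a‖ : ℂ)) := by
      show (if a = 0 then (0 : ℂ) else χ a * (tc a / (‖tc a‖ : ℂ))) = _
      rw [if_neg ha]
    rw [h2]
    field_simp

theorem fib (χ : GaussianInt →* ℂ) (y : ℝ) (k : ℕ) :
    ∑' b : ((fun p : ℤ × ℤ => (p.1 ^ 2 + p.2 ^ 2).natAbs) ⁻¹' {k}), (ft χ y ∘ eqv) b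
      = 4 * (bH χ k * (Real.sqrt k : ℂ) * (Real.exp (-Real.pi * k * y) : ℂ)) := by
  rw [tsum_subtype ((fun p : ℤ × ℤ => (p.1 ^ 2 + p.2 ^ 2).natAbs) ⁻¹' {k}) (ft χ y ∘ eqv)]
  rw [tsum_eq_sum (s := CS k)]
  · unfold bH bb
    have e : (4 : ℂ) * ((1 / 4 : ℂ) * (∑ p ∈ CS k, psi χ ⟨p.1, p.2⟩) * (Real.sqrt k : ℂ) *
        (Real.exp (-Real.pi * k * y) : ℂ)) = ∑ p ∈ CS k, psi χ ⟨p.1, p.2⟩ * (Real.sqrt k : ℂ) *
        (Real.exp (-Real.pi * k * y) : ℂ) := by
      rw [← sum_mul, ← sum_mul]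
      ring
    rw [e]
    refine sum_congr rfl fun p hp => ?_
    rw [mem_CS] at hp
    have h1 : (p.1 ^ 2 + p.2 ^ 2).natAbs = k := by
      rw [hp]
      simp
    rw [Set.indicator_of_mem]
    · have h2 : ‖tc ⟨p.1, p.2⟩‖ ^ 2 = (k : ℝ) := by
        rw [tc_norm]
        have : ((p.1 ^ 2 + p.2 ^ 2 : ℤ) : ℝ) = ((k : ℤ) : ℝ) := by rw [hp]
        push_cast at this
        exact this
      have h3 : Real.sqrt k = ‖tc ⟨p.1, p.2⟩‖ := by
        rw [← h2, Real.sqrt_sq (norm_nonneg _)]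
      simp only [Function.comp_apply, ft, eqv, Equiv.coe_fn_mk]
      rw [h3, psi_tc, h2]
    · exact h1
  · intro p hp
    by_cases h : p ∈ (fun p : ℤ × ℤ => (p.1 ^ 2 + p.2 ^ 2).natAbs) ⁻¹' {k}
    · exfalso
      refine hp ?_
      rw [mem_CS]
      have h3 : (p.1 ^ 2 + p.2 ^ 2).natAbs = k := h
      have h4 : (0 : ℤ) ≤ p.1 ^ 2 + p.2 ^ 2 := by positivity
      rw [← h3]
      omega
    · rw [Set.indicator_of_notMem h]

theorem th_hasSum (q : GaussianInt) (χ : GaussianInt →* ℂ) (H : HC q χ) (y : ℝ) (hy : 0 < y) :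
    HasSum (fun k : ℕ => bH χ k * (Real.sqrt k : ℂ) * (Real.exp (-Real.pi * k * y) : ℂ))
      (TH (bH χ) y) ∧ HasSum (ft χ y) (4 * TH (bH χ) y) := by
  have hs := ft_summable q χ H y hy
  have hf := hs.hasSum.tsum_fiberwise (fun p : ℤ × ℤ => (p.1 ^ 2 + p.2 ^ 2).natAbs)
  simp_rw [fib] at hf
  have h1 := hf.mul_left ((1 : ℂ) / 4)
  have e : (fun k : ℕ => (1 : ℂ) / 4 * (4 * (bH χ k * (Real.sqrt k : ℂ) *
      (Real.exp (-Real.pi * k * y) : ℂ)))) = fun k : ℕ => bH χ k * (Real.sqrt k : ℂ) *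
      (Real.exp (-Real.pi * k * y) : ℂ) := by
    funext k
    ring
  rw [e] at h1
  have h2 : HasSum (fun k : ℕ => bH χ k * (Real.sqrt k : ℂ) * (Real.exp (-Real.pi * k * y) : ℂ))
      (TH (bH χ) y) := h1.summable.hasSum
  refine ⟨h2, ?_⟩
  have h3 : (4 : ℂ) * TH (bH χ) y = ∑' p, (ft χ y ∘ eqv) p := by
    rw [h2.unique h1]
    ring
  rw [h3, ← eqv.hasSum_iff]
  exact hs.hasSum

/-- statement of `hasSum_rep` -/
def SRep : Prop := ∀ (q : GaussianInt) (_ : q ≠ 0) (f : GaussianInt → ℂ) (g : GaussianInt → ℂ)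
    (_ : ∀ c ∈ Rep q, HasSum (fun n : GaussianInt => f (c + q * n)) (g c)),
    HasSum f (∑ c ∈ Rep q, g c)

/-- statement of `gs_eq` -/
def SGs : Prop := ∀ (q : GaussianInt) (χ : GaussianInt →* ℂ) (_ : HC q χ) (m : GaussianInt),
    GS q χ m = GS q χ 1 * (starRingEnd ℂ) (χ m)

/-- statement of `kern_fe` -/
def SKer : Prop := ∀ (a b Y : ℝ) (_ : 0 < Y), ∃ V : ℂ,
    HasSum (fun p : ℤ × ℤ => ((((p.1 : ℝ) + a : ℝ) : ℂ) + (((p.2 : ℝ) + b : ℝ) : ℂ) * Complex.I) *
      (Real.exp (-Real.pi * Y * (((p.1 : ℝ) + a) ^ 2 + ((p.2 : ℝ) + b) ^ 2)) : ℂ)) V ∧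
    HasSum (fun p : ℤ × ℤ => (-Complex.I / (Y : ℂ) ^ 2) * ((p.1 : ℂ) + (p.2 : ℂ) * Complex.I) *
      Complex.exp (2 * Real.pi * Complex.I * ((p.1 : ℂ) * a + (p.2 : ℂ) * b)) *
      (Real.exp (-Real.pi * ((p.1 : ℝ) ^ 2 + (p.2 : ℝ) ^ 2) / Y) : ℂ)) V

theorem eq_star (q m c : GaussianInt) : eq_ q (star m * c) =
    Complex.exp (2 * Real.pi * Complex.I * ((m.re : ℂ) * ((tc c / tc q).re : ℝ) +
      (m.im : ℂ) * ((tc c / tc q).im : ℝ))) := by
  unfold eq_
  congr 1
  congr 1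
  have h1 : tc (star m * c) / tc q = (starRingEnd ℂ) (tc m) * (tc c / tc q) := by
    rw [tc_mul, tc_star]
    ring
  rw [h1, Complex.mul_re, Complex.conj_re, Complex.conj_im, tc_re, tc_im]
  push_cast
  ring

theorem dual (hrep : SRep) (hgs : SGs) (hker : SKer) (q : GaussianInt) (χ : GaussianInt →* ℂ)
    (H : HC q χ) (y : ℝ) (hy : 0 < y) :
    TH (bH χ) y = (tc q * (-Complex.I / ((y * ‖tc q‖ ^ 2 : ℝ) : ℂ) ^ 2) * GS q χ 1) *
      (starRingEnd ℂ) (TH (bH χ) (1 / (y * ‖tc q‖ ^ 2))) := by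
  have hq : tc q ≠ 0 := tc_ne q H.q0
  have hqn : 0 < ‖tc q‖ := norm_pos_iff.2 hq
  set Y : ℝ := y * ‖tc q‖ ^ 2 with hYdef
  have hY : 0 < Y := by positivity
  have hk : ∀ c : GaussianInt, ∃ V : ℂ,
    HasSum (fun p : ℤ × ℤ => ((((p.1 : ℝ) + (tc c / tc q).re : ℝ) : ℂ) +
      (((p.2 : ℝ) + (tc c / tc q).im : ℝ) : ℂ) * Complex.I) *
      (Real.exp (-Real.pi * Y * (((p.1 : ℝ) + (tc c / tc q).re) ^ 2 +
        ((p.2 : ℝ) + (tc c / tc q).im) ^ 2)) : ℂ)) V ∧
    HasSum (fun p : ℤ × ℤ => (-Complex.I / (Y : ℂ) ^ 2) * ((p.1 : ℂ) + (p.2 : ℂ) * Complex.I) *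
      Complex.exp (2 * Real.pi * Complex.I * ((p.1 : ℂ) * ((tc c / tc q).re : ℝ) +
        (p.2 : ℂ) * ((tc c / tc q).im : ℝ))) *
      (Real.exp (-Real.pi * ((p.1 : ℝ) ^ 2 + (p.2 : ℝ) ^ 2) / Y) : ℂ)) V :=
    fun c => hker _ _ Y hY
  choose V hV1 hV2 using hk
  -- the left side
  have hA : HasSum (ft χ y) (∑ c ∈ Rep q, χ c * tc q * V c) := by
    refine hrep q H.q0 (ft χ y) (fun c => χ c * tc q * V c) ?_
    intro c _
    have h1 := (hV1 c).mul_left (χ c * tc q)
    rw [← eqv.hasSum_iff]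
    refine h1.congr_fun ?_
    intro p
    simp only [Function.comp_apply, ft]
    have e1 : χ (c + q * eqv p) = χ c := H.per _ _ ⟨eqv p, by ring⟩
    set z := tc c / tc q with hz
    have e2 : tc (c + q * eqv p) = tc q * (tc (eqv p) + z) := by
      rw [tc_add, tc_mul, hz]
      field_simp
      ring
    have e3 : tc (eqv p) + z = (((p.1 : ℝ) + z.re : ℝ) : ℂ) + (((p.2 : ℝ) + z.im : ℝ) : ℂ) *
        Complex.I := by
      apply Complex.ext
      · rw [Complex.add_re, tc_re]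
        simp [eqv]
      · rw [Complex.add_im, tc_im]
        simp [eqv]
    have e4 : ‖tc (eqv p) + z‖ ^ 2 = ((p.1 : ℝ) + z.re) ^ 2 + ((p.2 : ℝ) + z.im) ^ 2 := by
      rw [Complex.sq_norm, Complex.normSq_apply, Complex.add_re, Complex.add_im, tc_re, tc_im]
      simp only [eqv, Equiv.coe_fn_mk]
      ring
    have e5 : -Real.pi * ‖tc (c + q * eqv p)‖ ^ 2 * y =
        -Real.pi * Y * (((p.1 : ℝ) + z.re) ^ 2 + ((p.2 : ℝ) + z.im) ^ 2) := by
      rw [e2, norm_mul, mul_pow, e4, hYdef]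
      ring
    rw [e5, e1, e2, e3]
    ring
  -- the right side
  have hB : HasSum (fun m : GaussianInt => ∑ c ∈ Rep q, (χ c * tc q) *
      ((-Complex.I / (Y : ℂ) ^ 2) * tc m * eq_ q (star m * c) *
        (Real.exp (-Real.pi * ‖tc m‖ ^ 2 * (1 / Y)) : ℂ))) (∑ c ∈ Rep q, χ c * tc q * V c) := by
    apply hasSum_sum
    intro c _
    have h1 := (hV2 c).mul_left (χ c * tc q)
    rw [← eqv.hasSum_iff]
    refine h1.congr_fun ?_
    intro p
    simp only [Function.comp_apply]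
    rw [eq_star]
    have e1 : -Real.pi * ‖tc (eqv p)‖ ^ 2 * (1 / Y) =
        -Real.pi * ((p.1 : ℝ) ^ 2 + (p.2 : ℝ) ^ 2) / Y := by
      rw [tc_norm]
      simp only [eqv, Equiv.coe_fn_mk]
      ring
    rw [e1]
    rfl
  have hC := ((Function.Involutive.toPerm (star : GaussianInt → GaussianInt)
    star_involutive).hasSum_iff).2 hB
  have h1 := (th_hasSum q χ H y hy).2
  have h2 := (Complex.hasSum_conj'.2 (th_hasSum q χ H (1 / Y) (by positivity)).2).mul_left
    (tc q * (-Complex.I / (Y : ℂ) ^ 2) * GS q χ 1)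
  have h3 := h2.unique (hC.congr_fun ?_)
  · have h4 := h1.unique hA
    rw [h4.symm] at h3
    have h5 : (4 : ℂ) * TH (bH χ) y = 4 * ((tc q * (-Complex.I / (Y : ℂ) ^ 2) * GS q χ 1) *
        (starRingEnd ℂ) (TH (bH χ) (1 / Y))) := by
      rw [← h3, map_mul]
      have : (starRingEnd ℂ) (4 : ℂ) = 4 := Complex.conj_ofNat 4
      rw [this]
      ring
    exact mul_left_cancel₀ (by norm_num) h5
  · intro m
    simp only [Function.comp_apply, Function.Involutive.coe_toPerm, ft, star_star]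
    have e1 : ‖tc (star m)‖ = ‖tc m‖ := by
      rw [tc_star, Complex.norm_conj]
    have e2 : ∑ c ∈ Rep q, (χ c * tc q) * ((-Complex.I / (Y : ℂ) ^ 2) * tc (star m) *
        eq_ q (m * c) * (Real.exp (-Real.pi * ‖tc m‖ ^ 2 * (1 / Y)) : ℂ)) =
        (tc q * (-Complex.I / (Y : ℂ) ^ 2) * tc (star m) *
          (Real.exp (-Real.pi * ‖tc m‖ ^ 2 * (1 / Y)) : ℂ)) * GS q χ m := by
      unfold GS
      rw [mul_sum]
      refine sum_congr rfl fun c _ => ?_
      ring
    rw [e1, e2, hgs q χ H m, tc_star, map_mul, map_mul, Complex.conj_ofReal]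
    ring

theorem bH_one (q : GaussianInt) (χ : GaussianInt →* ℂ) (H : HC q χ) : bH χ 1 = 1 := by
  have hi : psi χ ⟨0, 1⟩ = 1 := by
    have h0 : (⟨0, 1⟩ : GaussianInt) ≠ 0 := by
      intro h
      have := congrArg Zsqrtd.im h
      simp at this
    show (if (⟨0, 1⟩ : GaussianInt) = 0 then (0 : ℂ) else
      χ ⟨0, 1⟩ * (tc ⟨0, 1⟩ / (‖tc ⟨0, 1⟩‖ : ℂ))) = 1
    rw [if_neg h0, H.unit]
    have e : tc ⟨0, 1⟩ = Complex.I := by simp [tc]
    rw [e]
    simp
  have h1 : psi χ ⟨1, 0⟩ = 1 := by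
    have : (⟨1, 0⟩ : GaussianInt) = 1 := rfl
    rw [this, map_one]
  have h2 : psi χ ⟨-1, 0⟩ = 1 := by
    have : (⟨-1, 0⟩ : GaussianInt) = ⟨0, 1⟩ * ⟨0, 1⟩ := by decide +kernel
    rw [this, map_mul, hi]
    norm_num
  have h3 : psi χ ⟨0, -1⟩ = 1 := by
    have : (⟨0, -1⟩ : GaussianInt) = ⟨-1, 0⟩ * ⟨0, 1⟩ := by decide +kernel
    rw [this, map_mul, hi, h2]
    norm_num
  have hCS : CS 1 = {(1, 0), (-1, 0), (0, 1), (0, -1)} := by
    decide +kernel
  unfold bH bb
  rw [hCS]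
  rw [sum_insert (by decide), sum_insert (by decide), sum_insert (by decide), sum_singleton]
  rw [h1, h2, h3, hi]
  norm_num

theorem th_ne (q : GaussianInt) (χ : GaussianInt →* ℂ) (H : HC q χ) :
    ∃ y : ℝ, 0 < y ∧ TH (bH χ) y ≠ 0 := by
  by_contra hcon
  push Not at hcon
  set b := bH χ with hb
  -- dominated convergence
  have hlim : Tendsto (fun y : ℝ => ∑' n : ℕ, (Real.exp (Real.pi * y) : ℂ) *
      (b n * (Real.sqrt n : ℂ) * (Real.exp (-Real.pi * n * y) : ℂ))) atTop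
      (𝓝 (∑' n : ℕ, if n = 1 then (1 : ℂ) else 0)) := by
    have hsum := (th_hasSum q χ H 1 one_pos).1.summable.norm.mul_left (Real.exp Real.pi)
    refine tendsto_tsum_of_dominated_convergence hsum ?_ ?_
    · intro n
      rcases Nat.lt_trichotomy n 1 with hn | hn | hn
      · have : n = 0 := by omega
        subst this
        simp
      · subst hn
        simp only [if_true]
        have e : (fun y : ℝ => (Real.exp (Real.pi * y) : ℂ) *
            (b 1 * (Real.sqrt (1 : ℕ) : ℂ) * (Real.exp (-Real.pi * (1 : ℕ) * y) : ℂ)))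
            = fun _ => (1 : ℂ) := by
          funext y
          rw [hb, bH_one q χ H]
          have : (Real.exp (Real.pi * y) : ℂ) * (Real.exp (-Real.pi * (1 : ℕ) * y) : ℂ) = 1 := by
            rw [← Complex.ofReal_mul, ← Real.exp_add]
            have : Real.pi * y + -Real.pi * ((1 : ℕ) : ℝ) * y = 0 := by
              push_cast
              ring
            rw [this]
            simp
          simp only [Nat.cast_one, Real.sqrt_one, Complex.ofReal_one, one_mul]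
          simp only [Nat.cast_one] at this
          exact this
        rw [e]
        exact tendsto_const_nhds
      · rw [if_neg (by omega)]
        have e : (fun y : ℝ => (Real.exp (Real.pi * y) : ℂ) *
            (b n * (Real.sqrt n : ℂ) * (Real.exp (-Real.pi * n * y) : ℂ)))
            = fun y => (b n * (Real.sqrt n : ℂ)) *
              ((Real.exp (-(Real.pi * (n - 1)) * y) : ℝ) : ℂ) := by
          funext y
          have : ((Real.exp (-(Real.pi * (n - 1)) * y) : ℝ) : ℂ) =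
              (Real.exp (Real.pi * y) : ℂ) * (Real.exp (-Real.pi * n * y) : ℂ) := by
            rw [← Complex.ofReal_mul, ← Real.exp_add]
            congr 2
            ring
          rw [this]
          ring
        rw [e]
        have hn1 : (0 : ℝ) < Real.pi * (n - 1) := by
          have : (1 : ℝ) < n := by exact_mod_cast hn
          have := Real.pi_pos
          nlinarith
        have h1 : Tendsto (fun y : ℝ => Real.exp (-(Real.pi * (n - 1)) * y)) atTop (𝓝 0) := by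
          have h2 : Tendsto (fun y : ℝ => (Real.pi * (n - 1)) * y) atTop atTop :=
            tendsto_id.const_mul_atTop hn1
          have h3 := Real.tendsto_exp_neg_atTop_nhds_zero.comp h2
          refine h3.congr fun y => ?_
          simp only [Function.comp_apply]
          congr 1
          ring
        have h4 := (Complex.continuous_ofReal.tendsto 0).comp h1
        have h5 := h4.const_mul (b n * (Real.sqrt n : ℂ))
        simpa using h5
    · filter_upwards [eventually_ge_atTop (1 : ℝ)] with y hy n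
      rcases Nat.eq_zero_or_pos n with hn | hn
      · subst hn
        simp
      · have hn1 : (1 : ℝ) ≤ n := by exact_mod_cast hn
        simp only [norm_mul, Complex.norm_real, Real.norm_eq_abs, Real.abs_exp]
        have h1 : Real.exp (Real.pi * y) * Real.exp (-Real.pi * n * y) ≤
            Real.exp Real.pi * Real.exp (-Real.pi * n * 1) := by
          rw [← Real.exp_add, ← Real.exp_add]
          apply Real.exp_le_exp.2
          have h2 : 0 ≤ Real.pi * ((n - 1) * (y - 1)) :=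
            mul_nonneg Real.pi_pos.le (mul_nonneg (by linarith) (by linarith))
          nlinarith
        calc Real.exp (Real.pi * y) * (‖b n‖ * |Real.sqrt n| * Real.exp (-Real.pi * n * y))
            = (‖b n‖ * |Real.sqrt n|) * (Real.exp (Real.pi * y) * Real.exp (-Real.pi * n * y)) := by
              ring
          _ ≤ (‖b n‖ * |Real.sqrt n|) * (Real.exp Real.pi * Real.exp (-Real.pi * n * 1)) :=
              mul_le_mul_of_nonneg_left h1 (by positivity)
          _ = _ := by ring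
  have hzero : ∀ᶠ y : ℝ in atTop, (∑' n : ℕ, (Real.exp (Real.pi * y) : ℂ) *
      (b n * (Real.sqrt n : ℂ) * (Real.exp (-Real.pi * n * y) : ℂ))) = 0 := by
    filter_upwards [eventually_gt_atTop (0 : ℝ)] with y hy
    rw [tsum_mul_left]
    have : TH b y = 0 := hcon y hy
    unfold TH at this
    rw [this, mul_zero]
  have h1 : Tendsto (fun _ : ℝ => (0 : ℂ)) atTop
      (𝓝 (∑' n : ℕ, if n = 1 then (1 : ℂ) else 0)) := hlim.congr' hzero
  have h2 := tendsto_nhds_unique h1 tendsto_const_nhds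
  rw [tsum_ite_eq] at h2
  exact one_ne_zero h2

theorem main (hrep : SRep) (hgs : SGs) (hker : SKer) (q : GaussianInt) (χ : GaussianInt →* ℂ)
    (H : HC q χ) :
    ∃ w : ℂ, ‖w‖ = 1 ∧ ∀ x : ℝ, 0 < x →
      TH (bH χ) (1 / (‖tc q‖ * x)) =
        w * (x : ℂ) ^ 2 * (starRingEnd ℂ) (TH (bH χ) (x / ‖tc q‖)) := by
  have hq : tc q ≠ 0 := tc_ne q H.q0
  have hqn : 0 < ‖tc q‖ := norm_pos_iff.2 hq
  have hqc : (‖tc q‖ : ℂ) ≠ 0 := by exact_mod_cast hqn.ne'
  set w : ℂ := tc q * (-Complex.I) * GS q χ 1 / (‖tc q‖ : ℂ) ^ 2 with hw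
  have hfe : ∀ x : ℝ, 0 < x → TH (bH χ) (1 / (‖tc q‖ * x)) =
        w * (x : ℂ) ^ 2 * (starRingEnd ℂ) (TH (bH χ) (x / ‖tc q‖)) := by
    intro x hx
    have hxc : (x : ℂ) ≠ 0 := by exact_mod_cast hx.ne'
    have h1 := dual hrep hgs hker q χ H (1 / (‖tc q‖ * x)) (by positivity)
    have e1 : 1 / (‖tc q‖ * x) * ‖tc q‖ ^ 2 = ‖tc q‖ / x := by
      field_simp
    have e2 : 1 / (‖tc q‖ / x) = x / ‖tc q‖ := by
      field_simp
    rw [e1, e2] at h1
    rw [h1, hw]
    push_cast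
    field_simp
  refine ⟨w, ?_, hfe⟩
  obtain ⟨y, hy, hne⟩ := th_ne q χ H
  set x : ℝ := 1 / (‖tc q‖ * y) with hx
  have hx0 : 0 < x := by positivity
  have hxc : (x : ℂ) ≠ 0 := by exact_mod_cast hx0.ne'
  have ey : 1 / (‖tc q‖ * x) = y := by
    rw [hx]
    field_simp
  have h1 := hfe x hx0
  rw [ey] at h1
  have h2 := hfe (1 / x) (by positivity)
  have e3 : 1 / (‖tc q‖ * (1 / x)) = x / ‖tc q‖ := by field_simp
  have e4 : 1 / x / ‖tc q‖ = y := by
    rw [← ey]
    field_simp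
  rw [e3, e4] at h2
  rw [h2, map_mul, map_mul, map_pow, Complex.conj_ofReal, Complex.conj_conj] at h1
  have h3 : TH (bH χ) y = (w * (starRingEnd ℂ) w) * TH (bH χ) y := by
    conv_lhs => rw [h1]
    push_cast
    field_simp
  have h4 : w * (starRingEnd ℂ) w = 1 := by
    have h5 : (w * (starRingEnd ℂ) w - 1) * TH (bH χ) y = 0 := by
      rw [sub_mul, ← h3]
      ring
    rcases mul_eq_zero.1 h5 with h6 | h6
    · linear_combination h6
    · exact absurd h6 hne
  rw [Complex.mul_conj, Complex.normSq_eq_norm_sq] at h4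
  have h5 : ‖w‖ ^ 2 = 1 := by exact_mod_cast h4
  nlinarith [norm_nonneg w]

end T1

theorem theta_fe (q : GaussianInt) (χ : GaussianInt →* ℂ) (H : HC q χ) :
    ∃ w : ℂ, ‖w‖ = 1 ∧ ∀ x : ℝ, 0 < x →
      TH (bH χ) (1 / (‖tc q‖ * x)) =
        w * (x : ℂ) ^ 2 * (starRingEnd ℂ) (TH (bH χ) (x / ‖tc q‖)) :=
  T1.main (fun q hq f g h => hasSum_rep q hq f g h) (fun q χ H m => gs_eq q χ H m)
    (fun a b Y hY => kern_fe a b Y hY) q χ H

end Pool.Agent.H304R3.HK
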