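import Pool.Agent.H304R3.HK.Defs
import Pool.Agent.H304R3.HK.LgB
import Pool.Agent.H304R3.HK.LamH
import Pool.Agent.H304R3.HK.ThetaH
import Pool.Agent.H304R3.HK.Theta2
import Pool.Agent.H304R3.HK.PairH
import Pool.Agent.H304R3.HK.GrowthH
import Pool.Agent.H304R3.HK.LeftH
import Pool.Agent.H304R3.HK.SymH
import Pool.Agent.H304R3.HK.LogDerH
import Pool.Agent.H304R3.HK.NzrHof
import Pool.Agent.H385R2.GoodD

set_option autoImplicit false

open Finset Filter Topology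

namespace Pool.Agent.H304R3.HK

open Pool.Agent.H304R2.EC (PS Sh)

theorem tc_re (a : GaussianInt) : (tc a).re = a.re := by
  simp only [tc, Complex.add_re, Complex.mul_re, Complex.I_re, Complex.I_im, Complex.intCast_re,
    Complex.intCast_im]
  ring

theorem tc_im (a : GaussianInt) : (tc a).im = a.im := by
  simp only [tc, Complex.add_im, Complex.mul_im, Complex.I_re, Complex.I_im, Complex.intCast_re,
    Complex.intCast_im]
  ring

theorem tc_star_mul (a : GaussianInt) : ‖tc a‖ ^ 2 = ((a.norm : ℤ) : ℝ) := by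
  rw [← Complex.normSq_eq_norm_sq, Complex.normSq_apply, tc_re, tc_im, Zsqrtd.norm]
  push_cast
  ring

theorem tc_ne_zero {a : GaussianInt} (ha : a ≠ 0) : tc a ≠ 0 := by
  intro h
  apply ha
  have h1 := congrArg Complex.re h
  have h2 := congrArg Complex.im h
  rw [tc_re, Complex.zero_re] at h1
  rw [tc_im, Complex.zero_im] at h2
  exact Zsqrtd.ext (Int.cast_eq_zero.1 h1) (Int.cast_eq_zero.1 h2)

theorem one_le_norm_tc {a : GaussianInt} (ha : a ≠ 0) : 1 ≤ ‖tc a‖ := by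
  have h := tc_star_mul a
  have h1 : 0 < ‖tc a‖ := norm_pos_iff.2 (tc_ne_zero ha)
  have h2 : (0 : ℝ) < ((a.norm : ℤ) : ℝ) := by rw [← h]; positivity
  have h3 : (1 : ℝ) ≤ ((a.norm : ℤ) : ℝ) := by exact_mod_cast h2
  nlinarith

theorem psi_apply (χ : GaussianInt →* ℂ) {a : GaussianInt} (ha : a ≠ 0) :
    psi χ a = χ a * (tc a / (‖tc a‖ : ℂ)) := by
  show (if a = 0 then 0 else χ a * (tc a / (‖tc a‖ : ℂ))) = _
  rw [if_neg ha]

theorem psi_zero (χ : GaussianInt →* ℂ) : psi χ 0 = 0 := by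
  show (if (0 : GaussianInt) = 0 then 0 else χ 0 * (tc 0 / (‖tc 0‖ : ℂ))) = _
  rw [if_pos rfl]

theorem chi_le (q : GaussianInt) (χ : GaussianInt →* ℂ) (H : HC q χ) (a : GaussianInt) :
    ‖χ a‖ ≤ 1 := by
  by_cases h : χ a = 0
  · rw [h]; simp
  · exact (H.nrm a ((H.supp a).1 h)).le

theorem uh_psi (q : GaussianInt) (χ : GaussianInt →* ℂ) (H : HC q χ) : UH (psi χ) where
  h0 := psi_zero χ
  hb := by
    intro a
    by_cases ha : a = 0
    · rw [ha, psi_zero]; simp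
    · rw [psi_apply χ ha, norm_mul, norm_div, Complex.norm_real, norm_norm,
        div_self (norm_ne_zero_iff.2 (tc_ne_zero ha)), mul_one]
      exact chi_le q χ H a
  hi := by
    have h : (⟨0, 1⟩ : GaussianInt) ≠ 0 := by
      intro h
      have := congrArg Zsqrtd.im h
      simp at this
    rw [psi_apply χ h, H.unit]
    have e : tc ⟨0, 1⟩ = Complex.I := by simp [tc]
    rw [e, Complex.norm_I]
    simp

theorem uh_sq (h : GaussianInt →* ℂ) (hh : UH h) : UH (h ^ 2) where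
  h0 := by simp [hh.h0]
  hb := by
    intro a
    rw [MonoidHom.pow_apply, norm_pow]
    exact pow_le_one₀ (norm_nonneg _) (hh.hb a)
  hi := by simp [hh.hi]

theorem th_psi (q : GaussianInt) (χ : GaussianInt →* ℂ) (H : HC q χ) :
    ∃ w : ℂ, Th ‖tc q‖ (bH χ) w := by
  obtain ⟨w, hw, hfe⟩ := theta_fe q χ H
  have hL := lg_bb (psi χ) (uh_psi q χ H)
  exact ⟨w, one_le_norm_tc H.q0, hL.b0, hL.bd, hw, hfe⟩

/-- all analytic facts about the Hecke L-functions of infinity type one, uniformly in the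
modulus -/
theorem goodH : ∃ A : ℝ, 1 ≤ A ∧ ∀ (q : GaussianInt) (χ : GaussianInt →* ℂ), HC q χ →
    Differentiable ℂ (LH χ) ∧
    (∀ s : ℂ, 1 < s.re → HasSum (fun n : ℕ => bH χ n * (n : ℂ) ^ (-s)) (LH χ s)) ∧
    (∀ n, ‖aH χ n‖ ≤ 2 * ArithmeticFunction.vonMangoldt n) ∧
    H385.GoodD 2 A ‖tc q‖ (LH χ) (aH χ) := by
  obtain ⟨A1, hA1, hgr⟩ := FF_growth
  obtain ⟨A2, hA2, hleft⟩ := FF_left_of LL_fe FF_eq FF_entire
  obtain ⟨c0, hc0, hlow⟩ := F_lower
  refine ⟨max (max A1 A2) (c0⁻¹), le_max_of_le_left (le_max_of_le_left hA1), ?_⟩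
  intro q χ H
  obtain ⟨w, hTh⟩ := th_psi q χ H
  have hLg := lg_bb (psi χ) (uh_psi q χ H)
  have hent : Differentiable ℂ (LH χ) := FF_entire _ _ _ hTh
  have hser : ∀ s : ℂ, 1 < s.re →
      HasSum (fun n : ℕ => bH χ n * (n : ℂ) ^ (-s)) (LH χ s) := by
    intro s hs
    exact FF_series (bH χ) hLg.b0 hLg.bd s hs
  have haH : ∀ n, aH χ n = (ArithmeticFunction.vonMangoldt n : ℂ) * ccf (psi χ) n :=
    fun n => lam_eq (psi χ) (uh_psi q χ H) n
  have hab : ∀ n, ‖aH χ n‖ ≤ 2 * ArithmeticFunction.vonMangoldt n := by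
    intro n
    rw [haH, norm_mul, Complex.norm_real, Real.norm_of_nonneg
      ArithmeticFunction.vonMangoldt_nonneg]
    nlinarith [hLg.cd n, norm_nonneg (ccf (psi χ) n),
      ArithmeticFunction.vonMangoldt_nonneg (n := n)]
  have hne : ∀ s : ℂ, 1 < s.re → LH χ s ≠ 0 :=
    fun s hs => F_ne_zero (bH χ) (ccf (psi χ)) hLg (LH χ) hser s hs
  have hnz : ∀ s : ℂ, 1 ≤ s.re → 1 ≤ s.im → LH χ s ≠ 0 := by
    intro s h1 h2
    rcases h1.lt_or_eq with h1 | h1
    · exact hne s h1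
    · obtain ⟨G, hG, sG⟩ := psi_sq q χ H
      have h3 := nz_line_of lg_bb lam_eq lam_one F_ne_zero F_ld (psi χ) (uh_psi q χ H) (LH χ) G hent hG hser sG s.im (by linarith)
      have h4 : s = ⟨1, s.im⟩ := Complex.ext h1.symm rfl
      rw [h4]
      exact h3
  refine ⟨hent, hser, hab, ?_⟩
  constructor
  · intro s _
    exact hent.analyticAt s
  · intro s h1 h2 h3
    refine (hgr _ _ _ hTh s h1 h2 h3).trans ?_
    have hQ : 1 ≤ ‖tc q‖ * s.im := by nlinarith [one_le_norm_tc H.q0]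
    have hA : A1 ≤ max (max A1 A2) (c0⁻¹) := le_max_of_le_left (le_max_left _ _)
    have h5 : (‖tc q‖ * s.im) ^ A1 ≤ (‖tc q‖ * s.im) ^ (max (max A1 A2) (c0⁻¹)) :=
      Real.rpow_le_rpow_of_exponent_le hQ hA
    have h6 : 0 ≤ (‖tc q‖ * s.im) ^ (max (max A1 A2) (c0⁻¹)) := by positivity
    nlinarith [mul_le_mul hA h5 (by positivity) (by linarith)]
  · intro t _
    have h1 : (max (max A1 A2) (c0⁻¹))⁻¹ ≤ c0 := by
      rw [inv_le_comm₀ (lt_of_lt_of_le (by linarith) (le_max_of_le_left (le_max_left A1 A2))) hc0]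
      exact le_max_right _ _
    exact h1.trans (hlow (bH χ) (ccf (psi χ)) (LH χ) hLg hser t)
  · exact hnz
  · intro s h1 h2
    exact FF_nzl _ _ _ hTh hnz s h1 h2
  · intro s _ _ h3
    exact FF_symm _ _ _ hTh s h3
  · exact hab
  · intro s hs _
    rw [F_ld (bH χ) (ccf (psi χ)) hLg (LH χ) hser s hs]
    congr 1
    apply tsum_congr
    intro n
    rw [haH]
  · intro s h1 h2 h3 h4
    exact (hleft _ _ _ hTh s h1 h2 h3 h4).trans (le_max_of_le_left (le_max_right _ _))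

end Pool.Agent.H304R3.HK
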