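import Pool.Agent.H304R3.HK.NzrHof
import Pool.Agent.H304R3.HK.LgB
import Pool.Agent.H304R3.HK.LamH
import Pool.Agent.H304R3.HK.LogDerH

set_option autoImplicit false

/-!
TEAM Q3, task L5 (helper666): no zeros on `Re s = 1`.
-/

namespace Pool.Agent.H304R3.HK

theorem nz_line (h : GaussianInt →* ℂ) (hh : UH h) (F G : ℂ → ℂ) (hF : Differentiable ℂ F)
    (hG : Differentiable ℂ G)
    (sF : ∀ s : ℂ, 1 < s.re → HasSum (fun n : ℕ => bb h n * (n : ℂ) ^ (-s)) (F s))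
    (sG : ∀ s : ℂ, 1 < s.re →
      HasSum (fun n : ℕ => bb (fun a => (h a) ^ 2) n * (n : ℂ) ^ (-s)) (G s))
    (t : ℝ) (ht : t ≠ 0) : F (⟨1, t⟩ : ℂ) ≠ 0 :=
  nz_line_of lg_bb lam_eq lam_one F_ne_zero F_ld h hh F G hF hG sF sG t ht

end Pool.Agent.H304R3.HK
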