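import Pool.Agent.H304R3.HK.Defs
import Pool.Agent.H304R2.EC.Defs
import Pool.Agent.H385R2.GoodD

set_option autoImplicit false

/-!
TEAM Q3 (helper304): stubs. Every statement is to be proved under the same name in namespace
`Pool.Agent.H304R3.HK`, in the file named in its section (never import this file there).
-/

open Finset Filter Topology

namespace Pool.Agent.H304R3.HK.Stubs

open Pool.Agent.H304R3.HK
open Pool.Agent.H304R2.EC (PS Sh)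

/-! ### M1 (BbSh.lean): the sum over ideals in terms of primary elements -/

theorem bb_zero (h : GaussianInt → ℂ) (h0 : h 0 = 0) : bb h 0 = 0 := sorry

theorem bb_two_odd (h : GaussianInt →* ℂ) (hi : h ⟨0, 1⟩ = 1) (k m : ℕ) (hm : m % 2 = 1) :
    bb h (2 ^ k * m) = (h ⟨1, 1⟩) ^ k * Sh h m := sorry

/-! ### M2 (GenLog.lean): logarithmic derivative of an Euler product of degree two, complex values -/

theorem ts_bound (u v : ℂ) (hu : ‖u‖ ≤ 1) (hv : ‖v‖ ≤ 1) (k : ℕ) :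
    ‖ts (u + v) (u * v) k‖ ≤ 2 := sorry

theorem ts_eq (u v : ℂ) (k : ℕ) : ts (u + v) (u * v) k = u ^ k + v ^ k := sorry

theorem f_bound (u v : ℂ) (hu : ‖u‖ ≤ 1) (hv : ‖v‖ ≤ 1) (F : ℕ → ℂ) (hF0 : F 0 = 1)
    (hF1 : F 1 = u + v) (hF : ∀ k, F (k + 2) = (u + v) * F (k + 1) - u * v * F k) (k : ℕ) :
    ‖F k‖ ≤ k + 1 := sorry

theorem gen_log (f : ℕ → ℂ) (e : ℕ → ℂ) (c : ℕ → ℂ)
    (h1 : f 1 = 1) (hmul : ∀ m n, Nat.Coprime m n → f (m * n) = f m * f n)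
    (hrec : ∀ p, p.Prime → ∀ k, f (p ^ (k + 2)) = f p * f (p ^ (k + 1)) - e p * f (p ^ k))
    (hc : ∀ p, p.Prime → ∀ k, c (p ^ (k + 1)) = ts (f p) (e p) (k + 1)) (n : ℕ) (hn : n ≠ 0) :
    f n * (Real.log n : ℂ) =
      ∑ d ∈ n.divisors, (ArithmeticFunction.vonMangoldt d : ℂ) * c d * f (n / d) := sorry

/-! ### M3 (LgB.lean): the arithmetic hypothesis `Lg` (from M1, M2, EC.Mult) -/

theorem lg_bb (h : GaussianInt →* ℂ) (hh : UH h) : Lg (bb h) (ccf h) := sorry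

/-! ### M4 (LamH.lean): the von Mangoldt function of `ℤ[i]` -/

theorem lam_eq (h : GaussianInt →* ℂ) (hh : UH h) (n : ℕ) :
    bb (fun a => (LamK a : ℂ) * h a) n = (ArithmeticFunction.vonMangoldt n : ℂ) * ccf h n := sorry

theorem lam_one (n : ℕ) : bb (fun a => (LamK a : ℂ)) n =
    ((ArithmeticFunction.vonMangoldt n * (1 + ((ZMod.χ₄ (n : ZMod 4) : ℤ) : ℝ)) : ℝ) : ℂ) := sorry

/-! ### G1 (GaussH.lean): coset representatives and Gauss sums -/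

theorem rep_spec (q : GaussianInt) (hq : q ≠ 0) (a : GaussianInt) :
    ∃! c : GaussianInt, c ∈ Rep q ∧ q ∣ a - c := sorry

theorem eq_per (q : GaussianInt) (hq : q ≠ 0) (x y : GaussianInt) (h : q ∣ x - y) :
    eq_ q x = eq_ q y := sorry

theorem gs_eq (q : GaussianInt) (χ : GaussianInt →* ℂ) (H : HC q χ) (m : GaussianInt) :
    GS q χ m = GS q χ 1 * (starRingEnd ℂ) (χ m) := sorry

theorem hasSum_rep (q : GaussianInt) (hq : q ≠ 0) (f : GaussianInt → ℂ) (g : GaussianInt → ℂ)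
    (h : ∀ c ∈ Rep q, HasSum (fun n : GaussianInt => f (c + q * n)) (g c)) :
    HasSum f (∑ c ∈ Rep q, g c) := sorry

/-! ### K1 (KernH.lean): Poisson summation for `x e^{-π Y |x|²}` on `ℤ[i] + z` -/

theorem kern_fe (a b Y : ℝ) (hY : 0 < Y) : ∃ V : ℂ,
    HasSum (fun p : ℤ × ℤ => ((((p.1 : ℝ) + a : ℝ) : ℂ) + (((p.2 : ℝ) + b : ℝ) : ℂ) * Complex.I) *
      (Real.exp (-Real.pi * Y * (((p.1 : ℝ) + a) ^ 2 + ((p.2 : ℝ) + b) ^ 2)) : ℂ)) V ∧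
    HasSum (fun p : ℤ × ℤ => (-Complex.I / (Y : ℂ) ^ 2) * ((p.1 : ℂ) + (p.2 : ℂ) * Complex.I) *
      Complex.exp (2 * Real.pi * Complex.I * ((p.1 : ℂ) * a + (p.2 : ℂ) * b)) *
      (Real.exp (-Real.pi * ((p.1 : ℝ) ^ 2 + (p.2 : ℝ) ^ 2) / Y) : ℂ)) V := sorry

/-! ### K2 (Kern2.lean): the same for `x² e^{-π Y |x|²}` -/

theorem kern2_fe (a b Y : ℝ) (hY : 0 < Y) : ∃ V : ℂ,
    HasSum (fun p : ℤ × ℤ => ((((p.1 : ℝ) + a : ℝ) : ℂ) + (((p.2 : ℝ) + b : ℝ) : ℂ) * Complex.I) ^ 2 *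
      (Real.exp (-Real.pi * Y * (((p.1 : ℝ) + a) ^ 2 + ((p.2 : ℝ) + b) ^ 2)) : ℂ)) V ∧
    HasSum (fun p : ℤ × ℤ => (-1 / (Y : ℂ) ^ 3) * ((p.1 : ℂ) + (p.2 : ℂ) * Complex.I) ^ 2 *
      Complex.exp (2 * Real.pi * Complex.I * ((p.1 : ℂ) * a + (p.2 : ℂ) * b)) *
      (Real.exp (-Real.pi * ((p.1 : ℝ) ^ 2 + (p.2 : ℝ) ^ 2) / Y) : ℂ)) V := sorry

/-! ### T1 (ThetaH.lean): functional equation of the theta series (from G1, K1) -/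

theorem theta_fe (q : GaussianInt) (χ : GaussianInt →* ℂ) (H : HC q χ) :
    ∃ w : ℂ, ‖w‖ = 1 ∧ ∀ x : ℝ, 0 < x →
      TH (bH χ) (1 / (‖tc q‖ * x)) =
        w * (x : ℂ) ^ 2 * (starRingEnd ℂ) (TH (bH χ) (x / ‖tc q‖)) := sorry

/-! ### T2 (Theta2.lean): continuation of the L-function of `ψ²` (from G1, K2) -/

theorem psi_sq (q : GaussianInt) (χ : GaussianInt →* ℂ) (H : HC q χ) :
    ∃ G : ℂ → ℂ, Differentiable ℂ G ∧ ∀ s : ℂ, 1 < s.re →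
      HasSum (fun n : ℕ => bb (fun a => (psi χ a) ^ 2) n * (n : ℂ) ^ (-s)) (G s) := sorry

/-! ### L1 (PairH.lean): continuation and functional equation -/

theorem LL_entire (κ : ℝ) (b : ℕ → ℂ) (w : ℂ) (H : Th κ b w) : Differentiable ℂ (LL κ b) := sorry

theorem LL_fe (κ : ℝ) (b : ℕ → ℂ) (w : ℂ) (H : Th κ b w) (s : ℂ) :
    LL κ b (1 - s) = w * (starRingEnd ℂ) (LL κ b ((starRingEnd ℂ) s)) := sorry

theorem FF_eq (κ : ℝ) (hκ : 1 ≤ κ) (b : ℕ → ℂ) (s : ℂ) :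
    FF b s = (Complex.Gamma (s + 1 / 2))⁻¹ *
      ((κ / Real.pi : ℝ) : ℂ) ^ (-(s + 1 / 2)) * LL κ b s := sorry

theorem FF_entire (κ : ℝ) (b : ℕ → ℂ) (w : ℂ) (H : Th κ b w) : Differentiable ℂ (FF b) := sorry

theorem FF_series (b : ℕ → ℂ) (h0 : b 0 = 0) (hb : ∀ n, ‖b n‖ ≤ n.divisors.card) (s : ℂ)
    (hs : 1 < s.re) : HasSum (fun n : ℕ => b n * (n : ℂ) ^ (-s)) (FF b s) := sorry

theorem LL_bdd (κ : ℝ) (b : ℕ → ℂ) (w : ℂ) (H : Th κ b w) (a c : ℝ) :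
    ∃ C : ℝ, ∀ s : ℂ, a ≤ s.re → s.re ≤ c → ‖LL κ b s‖ ≤ C := sorry

/-! ### L2 (GrowthH.lean), from L1 -/

theorem FF_growth : ∃ A : ℝ, 1 ≤ A ∧ ∀ (κ : ℝ) (b : ℕ → ℂ) (w : ℂ), Th κ b w →
    ∀ s : ℂ, (1 / 16 : ℝ) ≤ s.re → s.re ≤ 4 → 1 ≤ s.im → ‖FF b s‖ ≤ A * (κ * s.im) ^ A := sorry

/-! ### L3 (LeftH.lean), from L1 -/

theorem FF_left : ∃ A : ℝ, 1 ≤ A ∧ ∀ (κ : ℝ) (b : ℕ → ℂ) (w : ℂ), Th κ b w →
    ∀ s : ℂ, -1 / 2 ≤ s.re → s.re ≤ 1 / 2 → 1 ≤ s.im → FF b s ≠ 0 →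
    ‖deriv (FF b) s / FF b s + ((2 * Real.log (κ * s.im) : ℝ) : ℂ) +
      (starRingEnd ℂ) (deriv (FF b) (1 - (starRingEnd ℂ) s) /
        FF b (1 - (starRingEnd ℂ) s))‖ ≤ A := sorry

/-! ### L4 (LogDerH.lean): `Re s > 1` -/

theorem F_ne_zero (b c : ℕ → ℂ) (H : Lg b c) (F : ℂ → ℂ)
    (hF : ∀ s : ℂ, 1 < s.re → HasSum (fun n : ℕ => b n * (n : ℂ) ^ (-s)) (F s))
    (s : ℂ) (hs : 1 < s.re) : F s ≠ 0 := sorry

theorem F_ld (b c : ℕ → ℂ) (H : Lg b c) (F : ℂ → ℂ)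
    (hF : ∀ s : ℂ, 1 < s.re → HasSum (fun n : ℕ => b n * (n : ℂ) ^ (-s)) (F s))
    (s : ℂ) (hs : 1 < s.re) :
    deriv F s / F s = - ∑' n : ℕ, ((ArithmeticFunction.vonMangoldt n : ℂ) * c n) * (n : ℂ) ^ (-s) :=
  sorry

theorem F_lower : ∃ c₀ : ℝ, 0 < c₀ ∧ ∀ (b c : ℕ → ℂ) (F : ℂ → ℂ), Lg b c →
    (∀ s : ℂ, 1 < s.re → HasSum (fun n : ℕ => b n * (n : ℂ) ^ (-s)) (F s)) →
    ∀ t : ℝ, c₀ ≤ ‖F (⟨2, t⟩ : ℂ)‖ := sorry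

/-! ### L5 (NzrH.lean): no zeros on `Re s = 1` (from M3, M4, L4; uses `3+4cos+cos`) -/

theorem nz_line (h : GaussianInt →* ℂ) (hh : UH h) (F G : ℂ → ℂ) (hF : Differentiable ℂ F)
    (hG : Differentiable ℂ G)
    (sF : ∀ s : ℂ, 1 < s.re → HasSum (fun n : ℕ => bb h n * (n : ℂ) ^ (-s)) (F s))
    (sG : ∀ s : ℂ, 1 < s.re →
      HasSum (fun n : ℕ => bb (fun a => (h a) ^ 2) n * (n : ℂ) ^ (-s)) (G s))
    (t : ℝ) (ht : t ≠ 0) : F (⟨1, t⟩ : ℂ) ≠ 0 := sorry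

/-! ### L6 (SymH.lean): symmetry of the zeros, from L1 -/

theorem FF_nzl (κ : ℝ) (b : ℕ → ℂ) (w : ℂ) (H : Th κ b w)
    (hnz : ∀ s : ℂ, 1 ≤ s.re → 1 ≤ s.im → FF b s ≠ 0)
    (s : ℂ) (h1 : s.re ≤ 0) (h2 : 1 ≤ s.im) : FF b s ≠ 0 := sorry

theorem FF_symm (κ : ℝ) (b : ℕ → ℂ) (w : ℂ) (H : Th κ b w) (s : ℂ) (h2 : 1 ≤ s.im) :
    analyticOrderAt (FF b) (1 - (starRingEnd ℂ) s) = analyticOrderAt (FF b) s := sorry

/-! ### FIN (helper304): assembly -/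

theorem goodH : ∃ A : ℝ, 1 ≤ A ∧ ∀ (q : GaussianInt) (χ : GaussianInt →* ℂ), HC q χ →
    Differentiable ℂ (LH χ) ∧
    (∀ s : ℂ, 1 < s.re → HasSum (fun n : ℕ => bH χ n * (n : ℂ) ^ (-s)) (LH χ s)) ∧
    (∀ n, ‖aH χ n‖ ≤ 2 * ArithmeticFunction.vonMangoldt n) ∧
    H385.GoodD 2 A ‖tc q‖ (LH χ) (aH χ) := sorry

end Pool.Agent.H304R3.HK.Stubs
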